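import Mathlib

set_option autoImplicit false

/-! Waring's problem with shifts: the first derivative test and the tiling of an interval by unit intervals. -/

namespace Pool.Agent.K7.H74.WS
open Finset MeasureTheory Complex

/-- the first derivative test for a convex phase -/
lemma osc {a b : ℝ} (hab : a ≤ b) {φ φ1 φ2 : ℝ → ℝ} (h1 : ∀ t, HasDerivAt φ (φ1 t) t)
    (h2 : ∀ t, HasDerivAt φ1 (φ2 t) t) (hc : Continuous φ2) (hpos : ∀ t ∈ Set.Icc a b, 0 ≤ φ2 t)
    {l : ℝ} (hl : 0 < l) (hl1 : ∀ t ∈ Set.Icc a b, l ≤ φ1 t) :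
    ‖∫ t in a..b, cexp (φ t * I)‖ ≤ 2 / l := by
  have hne : ∀ t ∈ Set.Icc a b, φ1 t ≠ 0 := fun t ht => ne_of_gt (lt_of_lt_of_le hl (hl1 t ht))
  have hcφ : Continuous φ := continuous_iff_continuousAt.2 fun t => (h1 t).continuousAt
  have hcφ1 : Continuous φ1 := continuous_iff_continuousAt.2 fun t => (h2 t).continuousAt
  have huIcc : Set.uIcc a b = Set.Icc a b := Set.uIcc_of_le hab
  -- the integration by parts
  have hG : ∀ t ∈ Set.uIcc a b, HasDerivAt (fun t => cexp (φ t * I) / (φ1 t * I))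
      (cexp (φ t * I) - cexp (φ t * I) * (φ2 t / (φ1 t) ^ 2) / I) t := by
    intro t ht
    rw [huIcc] at ht
    have e0 : (φ1 t : ℂ) ≠ 0 := by exact_mod_cast hne t ht
    have e1 : HasDerivAt (fun t => (φ t : ℂ) * I) ((φ1 t : ℂ) * I) t := (h1 t).ofReal_comp.mul_const I
    have e2 : HasDerivAt (fun t => (φ1 t : ℂ) * I) ((φ2 t : ℂ) * I) t := (h2 t).ofReal_comp.mul_const I
    have e3 := e1.cexp.div e2 (mul_ne_zero e0 I_ne_zero)
    refine e3.congr_deriv ?_
    field_simp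
  have hcont1 : ContinuousOn (fun t => cexp (φ t * I) * (φ2 t / (φ1 t) ^ 2) / I) (Set.uIcc a b) := by
    rw [huIcc]
    apply ContinuousOn.div_const
    apply ContinuousOn.mul (by fun_prop)
    apply ContinuousOn.div (by fun_prop) (by fun_prop)
    intro t ht
    have := hne t ht
    have e0 : (φ1 t : ℂ) ≠ 0 := by exact_mod_cast this
    exact pow_ne_zero _ e0
  have hint1 : IntervalIntegrable (fun t => cexp (φ t * I) * (φ2 t / (φ1 t) ^ 2) / I) volume a b :=
    hcont1.intervalIntegrable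
  have hint0 : IntervalIntegrable (fun t => cexp (φ t * I)) volume a b :=
    (by fun_prop : Continuous fun t => cexp (φ t * I)).intervalIntegrable _ _
  have h3 := intervalIntegral.integral_eq_sub_of_hasDerivAt hG (hint0.sub hint1)
  rw [intervalIntegral.integral_sub hint0 hint1] at h3
  have h4 : ∫ t in a..b, cexp (φ t * I) = cexp (φ b * I) / (φ1 b * I) - cexp (φ a * I) / (φ1 a * I) +
      ∫ t in a..b, cexp (φ t * I) * (φ2 t / (φ1 t) ^ 2) / I := by
    rw [← h3]; ring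
  -- the second integral
  have hF : ∀ t ∈ Set.uIcc a b, HasDerivAt (fun t => -(φ1 t)⁻¹) (φ2 t / (φ1 t) ^ 2) t := by
    intro t ht
    rw [huIcc] at ht
    have e3 := ((h2 t).inv (hne t ht)).neg
    refine e3.congr_deriv ?_
    ring
  have hcont2 : ContinuousOn (fun t => φ2 t / (φ1 t) ^ 2) (Set.uIcc a b) := by
    rw [huIcc]
    apply ContinuousOn.div (by fun_prop) (by fun_prop)
    intro t ht
    exact pow_ne_zero _ (hne t ht)
  have h5 := intervalIntegral.integral_eq_sub_of_hasDerivAt hF hcont2.intervalIntegrable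
  have h6 : ‖∫ t in a..b, cexp (φ t * I) * (φ2 t / (φ1 t) ^ 2) / I‖ ≤ ∫ t in a..b, φ2 t / (φ1 t) ^ 2 := by
    apply intervalIntegral.norm_integral_le_of_norm_le hab _ hcont2.intervalIntegrable
    refine Filter.Eventually.of_forall fun t ht => ?_
    have ht' : t ∈ Set.Icc a b := ⟨ht.1.le, ht.2⟩
    rw [norm_div, norm_mul, norm_exp_ofReal_mul_I, one_mul, norm_I, div_one]
    have e1 : ((φ2 t : ℂ) / (φ1 t : ℂ) ^ 2) = ((φ2 t / (φ1 t) ^ 2 : ℝ) : ℂ) := by push_cast; rfl
    rw [e1, Complex.norm_real, Real.norm_of_nonneg (div_nonneg (hpos t ht') (sq_nonneg _))]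
  have hn : ∀ t, ‖cexp (φ t * I) / (φ1 t * I)‖ = |φ1 t|⁻¹ := by
    intro t
    rw [norm_div, norm_exp_ofReal_mul_I, norm_mul, norm_I, mul_one, Complex.norm_real, Real.norm_eq_abs,
      one_div]
  have ha : a ∈ Set.Icc a b := ⟨le_refl _, hab⟩
  have hb : b ∈ Set.Icc a b := ⟨hab, le_refl _⟩
  have ha1 := hl1 a ha
  have hb1 := hl1 b hb
  rw [h4]
  refine (norm_add_le _ _).trans ?_
  refine (add_le_add (norm_sub_le _ _) h6).trans ?_
  rw [hn, hn, h5, abs_of_pos (lt_of_lt_of_le hl ha1), abs_of_pos (lt_of_lt_of_le hl hb1)]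
  have h7 : (φ1 a)⁻¹ ≤ l⁻¹ := inv_anti₀ hl ha1
  rw [div_eq_mul_inv]
  linarith

/-- the tiling of an interval by unit intervals -/
lemma tile {E : Type} [NormedAddCommGroup E] [NormedSpace ℝ E] (h : ℝ → E) (hh : Continuous h) {a b : ℕ} (hab : a ≤ b) :
    ∑ x ∈ Ico a b, ∫ t in (0 : ℝ)..1, h ((x : ℝ) + t) = ∫ u in (a : ℝ)..(b : ℝ), h u := by
  rw [← intervalIntegral.sum_integral_adjacent_intervals_Ico (a := fun n : ℕ => (n : ℝ)) hab
    (fun k _ => hh.intervalIntegrable _ _)]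
  apply sum_congr rfl
  intro x _
  rw [intervalIntegral.integral_comp_add_left]
  push_cast
  rw [add_zero]

end Pool.Agent.K7.H74.WS
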