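import Mathlib
import Pool.Agent.K7.H74.WS.Osc

set_option autoImplicit false

/-! Waring's problem with shifts: the mean square over the shift of the exponential sum. -/

namespace Pool.Agent.K7.H74.WS
open Finset MeasureTheory Complex

/-- `e(t)` -/
noncomputable def e (t : ℝ) : ℂ := cexp ((2 * Real.pi * t : ℝ) * I)

lemma norm_e (t : ℝ) : ‖e t‖ = 1 := norm_exp_ofReal_mul_I _

lemma e_cont : Continuous e := by unfold e; fun_prop

lemma e_add (s t : ℝ) : e (s + t) = e s * e t := by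
  unfold e
  rw [← Complex.exp_add]
  congr 1
  push_cast
  ring

lemma e_neg (t : ℝ) : e (-t) = (starRingEnd ℂ) (e t) := by
  unfold e
  rw [← Complex.exp_conj]
  congr 1
  rw [map_mul, Complex.conj_I, Complex.conj_ofReal]
  push_cast
  ring

lemma e_sub (s t : ℝ) : e (s - t) = e s * (starRingEnd ℂ) (e t) := by
  rw [sub_eq_add_neg, e_add, e_neg]

lemma e_zero : e 0 = 1 := by unfold e; simp

lemma e_lip (s t : ℝ) : ‖e s - e t‖ ≤ 2 * Real.pi * |s - t| := by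
  have h1 : e s - e t = e t * (e (s - t) - 1) := by
    rw [mul_sub, ← e_add, mul_one]
    congr 2
    ring
  rw [h1, norm_mul, norm_e, one_mul]
  unfold e
  rw [mul_comm _ I]
  refine (Real.norm_exp_I_mul_ofReal_sub_one_le).trans ?_
  rw [Real.norm_eq_abs, abs_mul, abs_of_pos (by positivity)]

/-- the exponential sum over the `k`-th powers of `x + ξ`, `P ≤ x < 3 P` -/
noncomputable def S (k P : ℕ) (α ξ : ℝ) : ℂ := ∑ x ∈ Ico P (3 * P), e (α * ((x : ℝ) + ξ) ^ k)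

/-- its mean value over the shift -/
noncomputable def M (k P : ℕ) (α : ℝ) : ℂ := ∫ u in (P : ℝ)..((3 * P : ℕ) : ℝ), e (α * u ^ k)

lemma S_cont (k P : ℕ) : Continuous fun p : ℝ × ℝ => S k P p.1 p.2 := by
  unfold S
  exact continuous_finsetSum _ fun x _ => e_cont.comp (by fun_prop)

lemma S_cont2 (k P : ℕ) (α : ℝ) : Continuous fun ξ : ℝ => S k P α ξ :=
  (S_cont k P).comp (by fun_prop : Continuous fun ξ : ℝ => ((α, ξ) : ℝ × ℝ))

lemma S_le (k P : ℕ) (α ξ : ℝ) : ‖S k P α ξ‖ ≤ 2 * P := by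
  unfold S
  refine (norm_sum_le _ _).trans ?_
  rw [sum_congr rfl (fun x _ => norm_e _), sum_const, Nat.card_Ico, nsmul_eq_mul, mul_one]
  have : 3 * P - P = 2 * P := by omega
  rw [this]; push_cast; exact le_refl _

lemma int_S (k P : ℕ) (α : ℝ) : ∫ ξ in (0 : ℝ)..1, S k P α ξ = M k P α := by
  unfold S M
  have hc : ∀ x : ℕ, Continuous fun ξ : ℝ => e (α * ((x : ℝ) + ξ) ^ k) := fun x => e_cont.comp (by fun_prop)
  rw [intervalIntegral.integral_finsetSum (fun x _ => (hc x).intervalIntegrable _ _)]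
  exact tile (fun u => e (α * u ^ k)) (e_cont.comp (by fun_prop)) (by omega)

lemma M_cont (k P : ℕ) : Continuous fun α : ℝ => M k P α := by
  unfold M
  apply intervalIntegral.continuous_parametric_intervalIntegral_of_continuous'
  unfold Function.uncurry
  exact e_cont.comp (by fun_prop)

/-! ### symmetry -/

lemma int_neg {f : ℝ → ℝ} (a b : ℝ) :
    ‖∫ t in a..b, e (-f t)‖ = ‖∫ t in a..b, e (f t)‖ := by
  have h1 : ∀ t, e (-f t) = (starRingEnd ℂ) (e (f t)) := fun t => e_neg _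
  simp_rw [h1]
  rw [intervalIntegral, intervalIntegral, integral_conj, integral_conj, ← map_sub, Complex.norm_conj]

lemma M_le {m P : ℕ} (hP : 1 ≤ P) {α : ℝ} (hα : α ≠ 0) :
    ‖M (m + 2) P α‖ ≤ 1 / (|α| * (P : ℝ) ^ (m + 1)) := by
  have hP0 : (0 : ℝ) < P := by exact_mod_cast hP
  have key : ∀ β : ℝ, 0 < β → ‖∫ u in (P : ℝ)..((3 * P : ℕ) : ℝ), e (β * u ^ (m + 2))‖ ≤ 1 / (β * (P : ℝ) ^ (m + 1)) := by
    intro β hβ
    have h1 := osc (a := (P : ℝ)) (b := ((3 * P : ℕ) : ℝ)) (by push_cast; linarith)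
      (φ := fun u => 2 * Real.pi * (β * u ^ (m + 2)))
      (φ1 := fun u => 2 * Real.pi * (β * (((m + 2 : ℕ) : ℝ) * u ^ (m + 1))))
      (φ2 := fun u => 2 * Real.pi * (β * (((m + 2 : ℕ) : ℝ) * (((m + 1 : ℕ) : ℝ) * u ^ m))))
      (fun t => ((hasDerivAt_pow (m + 2) t).const_mul β).const_mul (2 * Real.pi))
      (fun t => ((((hasDerivAt_pow (m + 1) t).const_mul ((m + 2 : ℕ) : ℝ))).const_mul β).const_mul (2 * Real.pi))
      (by fun_prop)
      (fun t ht => by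
        have : 0 ≤ t := hP0.le.trans ht.1
        positivity)
      (l := 2 * (β * (P : ℝ) ^ (m + 1))) (by positivity)
      (fun t ht => by
        have h2 : (P : ℝ) ^ (m + 1) ≤ t ^ (m + 1) := pow_le_pow_left₀ hP0.le ht.1 _
        have h3 : (1 : ℝ) ≤ ((m + 2 : ℕ) : ℝ) := by exact_mod_cast (by omega : 1 ≤ m + 2)
        have h4 : (1 : ℝ) ≤ Real.pi := by have := Real.pi_gt_three; linarith
        have h5 : (P : ℝ) ^ (m + 1) ≤ ((m + 2 : ℕ) : ℝ) * t ^ (m + 1) := by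
          have : 0 ≤ t ^ (m + 1) := (by positivity : (0 : ℝ) ≤ (P : ℝ) ^ (m + 1)).trans h2
          nlinarith
        have h6 : β * (P : ℝ) ^ (m + 1) ≤ β * (((m + 2 : ℕ) : ℝ) * t ^ (m + 1)) := mul_le_mul_of_nonneg_left h5 hβ.le
        have h7 : 0 ≤ β * (((m + 2 : ℕ) : ℝ) * t ^ (m + 1)) := (by positivity : 0 ≤ β * (P : ℝ) ^ (m + 1)).trans h6
        nlinarith)
    have h2 : ∀ u : ℝ, e (β * u ^ (m + 2)) = cexp (((fun u : ℝ => 2 * Real.pi * (β * u ^ (m + 2))) u : ℝ) * I) := fun u => rfl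
    simp_rw [h2]
    refine h1.trans (le_of_eq ?_)
    field_simp
  unfold M
  rcases lt_or_gt_of_ne hα with h | h
  · have h1 : ∀ u : ℝ, α * u ^ (m + 2) = -(-α * u ^ (m + 2)) := fun u => by ring
    simp_rw [h1]
    rw [int_neg (f := fun u => -α * u ^ (m + 2)), abs_of_neg h]
    exact key (-α) (by linarith)
  · rw [abs_of_pos h]
    exact key α h

lemma M_le' (k P : ℕ) (α : ℝ) : ‖M k P α‖ ≤ 2 * P := by
  rw [← int_S]
  have h := intervalIntegral.norm_integral_le_of_norm_le_const (a := 0) (b := 1) (C := 2 * (P : ℝ))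
    (f := fun ξ => S k P α ξ) (fun ξ _ => S_le k P α ξ)
  simpa using h

/-! ### the pairs of arguments with given distance -/

lemma pow_add_ge {x d : ℝ} (hx : 0 ≤ x) (hd : 0 ≤ d) (n : ℕ) :
    x ^ (n + 1) + (n + 1) * (d * x ^ n) ≤ (x + d) ^ (n + 1) := by
  induction n with
  | zero => simp
  | succ n ih =>
    have h1 : (x ^ (n + 1) + (n + 1) * (d * x ^ n)) * (x + d) ≤ (x + d) ^ (n + 1) * (x + d) :=
      mul_le_mul_of_nonneg_right ih (by linarith)
    have h2 : 0 ≤ x ^ n := pow_nonneg hx n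
    have h3 : x ^ (n + 1 + 1) + ((n + 1 : ℕ) + 1) * (d * x ^ (n + 1)) ≤
        (x ^ (n + 1) + (n + 1) * (d * x ^ n)) * (x + d) := by
      have e1 : (x ^ (n + 1) + (n + 1) * (d * x ^ n)) * (x + d) =
        x ^ (n + 1 + 1) + ((n + 1 : ℕ) + 1) * (d * x ^ (n + 1)) + (n + 1) * (d * d * x ^ n) := by
        push_cast
        ring
      rw [e1]
      have : 0 ≤ ((n : ℝ) + 1) * (d * d * x ^ n) := by positivity
      linarith
    calc _ ≤ _ := h3
      _ ≤ _ := h1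
      _ = _ := by rw [← pow_succ]

lemma corr {m P D : ℕ} (hP : 1 ≤ P) (hD : 1 ≤ D) (hD2 : D ≤ 2 * P) {α : ℝ} (hα : α ≠ 0) :
    ‖∫ u in (P : ℝ)..((3 * P - D : ℕ) : ℝ), e (α * ((u + D) ^ (m + 2) - u ^ (m + 2)))‖ ≤
      1 / (4 * |α| * (P : ℝ) ^ m) * (1 / D) := by
  have hP0 : (0 : ℝ) < P := by exact_mod_cast hP
  have hD0 : (0 : ℝ) < D := by exact_mod_cast hD
  have hle : (P : ℝ) ≤ ((3 * P - D : ℕ) : ℝ) := by exact_mod_cast (by omega : P ≤ 3 * P - D)
  have hpi := Real.pi_gt_three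
  have key : ∀ β : ℝ, 0 < β → ‖∫ u in (P : ℝ)..((3 * P - D : ℕ) : ℝ), e (β * ((u + D) ^ (m + 2) - u ^ (m + 2)))‖ ≤
      1 / (4 * β * (P : ℝ) ^ m) * (1 / D) := by
    intro β hβ
    have hd : ∀ (n : ℕ) (t : ℝ), HasDerivAt (fun u : ℝ => (u + D) ^ (n + 1) - u ^ (n + 1))
        (((n + 1 : ℕ) : ℝ) * ((t + D) ^ n - t ^ n)) t := by
      intro n t
      have h1 : HasDerivAt (fun u : ℝ => (u + D) ^ (n + 1)) (((n + 1 : ℕ) : ℝ) * (t + D) ^ n * 1) t :=
        ((hasDerivAt_id t).add_const (D : ℝ)).pow (n + 1)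
      have h2 : HasDerivAt (fun u : ℝ => u ^ (n + 1)) (((n + 1 : ℕ) : ℝ) * t ^ n) t := hasDerivAt_pow (n + 1) t
      refine (h1.sub h2).congr_deriv ?_
      ring
    have h1 := osc (a := (P : ℝ)) (b := ((3 * P - D : ℕ) : ℝ)) hle
      (φ := fun u => 2 * Real.pi * (β * ((u + D) ^ (m + 2) - u ^ (m + 2))))
      (φ1 := fun u => 2 * Real.pi * (β * (((m + 2 : ℕ) : ℝ) * ((u + D) ^ (m + 1) - u ^ (m + 1)))))
      (φ2 := fun u => 2 * Real.pi * (β * (((m + 2 : ℕ) : ℝ) * (((m + 1 : ℕ) : ℝ) * ((u + D) ^ m - u ^ m)))))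
      (fun t => ((hd (m + 1) t).const_mul β).const_mul (2 * Real.pi))
      (fun t => ((((hd m t).const_mul ((m + 2 : ℕ) : ℝ))).const_mul β).const_mul (2 * Real.pi))
      (by fun_prop)
      (fun t ht => by
        have h0 : 0 ≤ t := hP0.le.trans ht.1
        have h2 : t ^ m ≤ (t + D) ^ m := pow_le_pow_left₀ h0 (by linarith) _
        have h3 : 0 ≤ (t + D) ^ m - t ^ m := by linarith
        positivity)
      (l := 8 * (β * (P : ℝ) ^ m) * D) (by positivity)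
      (fun t ht => by
        have h0 : 0 ≤ t := hP0.le.trans ht.1
        have h2 := pow_add_ge h0 hD0.le m
        have h3 : (P : ℝ) ^ m ≤ t ^ m := pow_le_pow_left₀ hP0.le ht.1 _
        have h4 : D * (P : ℝ) ^ m ≤ (t + D) ^ (m + 1) - t ^ (m + 1) := by
          have h5 : (0 : ℝ) ≤ D * t ^ m := by positivity
          have h6 : (D : ℝ) * P ^ m ≤ D * t ^ m := mul_le_mul_of_nonneg_left h3 hD0.le
          have h7 : (0 : ℝ) ≤ m * (D * t ^ m) := by positivity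
          nlinarith
        have h5 : (2 : ℝ) ≤ ((m + 2 : ℕ) : ℝ) := by exact_mod_cast (by omega : 2 ≤ m + 2)
        have h6 : (0 : ℝ) ≤ D * (P : ℝ) ^ m := by positivity
        have h7 : 2 * (D * (P : ℝ) ^ m) ≤ ((m + 2 : ℕ) : ℝ) * ((t + D) ^ (m + 1) - t ^ (m + 1)) :=
          mul_le_mul h5 h4 h6 (by positivity)
        have h8 : β * (2 * (D * (P : ℝ) ^ m)) ≤ β * (((m + 2 : ℕ) : ℝ) * ((t + D) ^ (m + 1) - t ^ (m + 1))) :=
          mul_le_mul_of_nonneg_left h7 hβ.le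
        have h9 : 0 ≤ β * (2 * (D * (P : ℝ) ^ m)) := by positivity
        have h10 : 4 * (β * (2 * (D * (P : ℝ) ^ m))) ≤ 2 * Real.pi * (β * (2 * (D * (P : ℝ) ^ m))) :=
          mul_le_mul_of_nonneg_right (by linarith) h9
        have h11 : 2 * Real.pi * (β * (2 * (D * (P : ℝ) ^ m))) ≤
            2 * Real.pi * (β * (((m + 2 : ℕ) : ℝ) * ((t + D) ^ (m + 1) - t ^ (m + 1)))) :=
          mul_le_mul_of_nonneg_left h8 (by positivity)
        linarith)
    have h2 : ∀ u : ℝ, e (β * ((u + D) ^ (m + 2) - u ^ (m + 2))) =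
      cexp (((fun u : ℝ => 2 * Real.pi * (β * ((u + D) ^ (m + 2) - u ^ (m + 2)))) u : ℝ) * I) := fun u => rfl
    simp_rw [h2]
    refine h1.trans (le_of_eq ?_)
    field_simp
    norm_num
  rcases lt_or_gt_of_ne hα with h | h
  · have h1 : ∀ u : ℝ, α * ((u + D) ^ (m + 2) - u ^ (m + 2)) = -(-α * ((u + D) ^ (m + 2) - u ^ (m + 2))) := fun u => by ring
    simp_rw [h1]
    rw [int_neg (f := fun u => -α * ((u + D) ^ (m + 2) - u ^ (m + 2))), abs_of_neg h]
    exact key (-α) (by linarith)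
  · rw [abs_of_pos h]
    exact key α h

/-- a double sum, arranged by the difference -/
lemma double_sum (f : ℕ → ℕ → ℂ) (a b : ℕ) :
    ∑ x ∈ Ico a b, ∑ y ∈ Ico a b, f x y = ∑ x ∈ Ico a b, f x x +
      ∑ D ∈ Ico 1 (b - a), ∑ y ∈ Ico a (b - D), (f (y + D) y + f y (y + D)) := by
  have h1 : ∀ x ∈ Ico a b, ∑ y ∈ Ico a b, f x y = f x x + (∑ y ∈ Ico a x, f x y + ∑ y ∈ Ico (x + 1) b, f x y) := by
    intro x hx
    rw [mem_Ico] at hx
    rw [← sum_Ico_consecutive _ hx.1 hx.2.le, ← sum_Ico_consecutive _ (Nat.le_succ x) hx.2]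
    rw [Nat.succ_eq_add_one, Nat.Ico_succ_singleton, sum_singleton]
    ring
  have hA : ∑ x ∈ Ico a b, ∑ y ∈ Ico a x, f x y = ∑ D ∈ Ico 1 (b - a), ∑ y ∈ Ico a (b - D), f (y + D) y := by
    have e1 : ∑ x ∈ Ico a b, ∑ y ∈ Ico a x, f x y = ∑ y ∈ Ico a b, ∑ x ∈ Ico (y + 1) b, f x y := by
      apply sum_comm'
      intro x y
      simp only [mem_Ico]
      omega
    have e2 : ∀ y ∈ Ico a b, ∑ x ∈ Ico (y + 1) b, f x y = ∑ D ∈ Ico 1 (b - y), f (y + D) y := by
      intro y hy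
      rw [mem_Ico] at hy
      have := sum_Ico_add (fun x => f x y) 1 (b - y) y
      rw [show 1 + y = y + 1 by ring, show b - y + y = b by omega] at this
      exact this.symm
    rw [e1, sum_congr rfl e2]
    apply sum_comm'
    intro y D
    simp only [mem_Ico]
    omega
  have hB : ∑ x ∈ Ico a b, ∑ y ∈ Ico (x + 1) b, f x y = ∑ D ∈ Ico 1 (b - a), ∑ y ∈ Ico a (b - D), f y (y + D) := by
    have e2 : ∀ y ∈ Ico a b, ∑ x ∈ Ico (y + 1) b, f y x = ∑ D ∈ Ico 1 (b - y), f y (y + D) := by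
      intro y hy
      rw [mem_Ico] at hy
      have := sum_Ico_add (fun x => f y x) 1 (b - y) y
      rw [show 1 + y = y + 1 by ring, show b - y + y = b by omega] at this
      exact this.symm
    rw [sum_congr rfl e2]
    apply sum_comm'
    intro y D
    simp only [mem_Ico]
    omega
  rw [sum_congr rfl h1, sum_add_distrib, sum_add_distrib, hA, hB, ← sum_add_distrib]
  congr 1
  apply sum_congr rfl
  intro D _
  rw [← sum_add_distrib]

/-- the mean square over the shift -/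
theorem second {m P : ℕ} (hP : 1 ≤ P) {α : ℝ} (hα : α ≠ 0) :
    ∫ ξ in (0 : ℝ)..1, ‖S (m + 2) P α ξ‖ ^ 2 ≤ 2 * P + (1 + Real.log (2 * P)) / (|α| * (P : ℝ) ^ m) := by
  have hP0 : (0 : ℝ) < P := by exact_mod_cast hP
  have hα0 : 0 < |α| := abs_pos.2 hα
  set h : ℕ → ℕ → ℝ → ℂ := fun x y ξ => e (α * ((x : ℝ) + ξ) ^ (m + 2) - α * ((y : ℝ) + ξ) ^ (m + 2)) with hh
  have hhc : ∀ x y, Continuous (h x y) := fun x y => e_cont.comp (by fun_prop)
  have h1 : ∀ ξ : ℝ, ((‖S (m + 2) P α ξ‖ ^ 2 : ℝ) : ℂ) = ∑ x ∈ Ico P (3 * P), ∑ y ∈ Ico P (3 * P), h x y ξ := by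
    intro ξ
    push_cast
    rw [← Complex.mul_conj', S, map_sum, sum_mul_sum]
    apply sum_congr rfl
    intro x _
    apply sum_congr rfl
    intro y _
    rw [hh]
    simp only
    rw [e_sub]
  have h2 : ((∫ ξ in (0 : ℝ)..1, ‖S (m + 2) P α ξ‖ ^ 2 : ℝ) : ℂ) =
      ∑ x ∈ Ico P (3 * P), ∑ y ∈ Ico P (3 * P), ∫ ξ in (0 : ℝ)..1, h x y ξ := by
    rw [← intervalIntegral.integral_ofReal]
    simp_rw [h1]
    rw [intervalIntegral.integral_finsetSum (fun x _ =>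
      (continuous_finsetSum _ fun y _ => hhc x y).intervalIntegrable _ _)]
    apply sum_congr rfl
    intro x _
    rw [intervalIntegral.integral_finsetSum (fun y _ => (hhc x y).intervalIntegrable _ _)]
  rw [double_sum] at h2
  have h3 : ∑ x ∈ Ico P (3 * P), ∫ ξ in (0 : ℝ)..1, h x x ξ = ((2 * P : ℝ) : ℂ) := by
    have e1 : ∀ x ∈ Ico P (3 * P), ∫ ξ in (0 : ℝ)..1, h x x ξ = 1 := by
      intro x _
      have : ∀ ξ : ℝ, h x x ξ = 1 := fun ξ => by
        rw [hh]; simp only [sub_self]; exact e_zero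
      simp_rw [this]
      simp
    rw [sum_congr rfl e1, sum_const, Nat.card_Ico, show 3 * P - P = 2 * P by omega]
    simp
  -- the correlations
  have h4 : ∀ D ∈ Ico 1 (3 * P - P), ‖∑ y ∈ Ico P (3 * P - D), ((∫ ξ in (0 : ℝ)..1, h (y + D) y ξ) + ∫ ξ in (0 : ℝ)..1, h y (y + D) ξ)‖ ≤
      1 / (2 * |α| * (P : ℝ) ^ m) * (1 / D) := by
    intro D hD
    rw [mem_Ico] at hD
    have hD1 : 1 ≤ D := hD.1
    have hD2 : D ≤ 2 * P := by omega
    rw [sum_add_distrib]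
    have e1 : ∑ y ∈ Ico P (3 * P - D), ∫ ξ in (0 : ℝ)..1, h (y + D) y ξ =
        ∫ u in (P : ℝ)..((3 * P - D : ℕ) : ℝ), e (α * ((u + D) ^ (m + 2) - u ^ (m + 2))) := by
      rw [← tile (fun u => e (α * ((u + D) ^ (m + 2) - u ^ (m + 2)))) (e_cont.comp (by fun_prop)) (by omega)]
      apply sum_congr rfl
      intro y _
      apply intervalIntegral.integral_congr
      intro ξ _
      rw [hh]
      simp only
      congr 1
      push_cast
      ring
    have e2 : ∑ y ∈ Ico P (3 * P - D), ∫ ξ in (0 : ℝ)..1, h y (y + D) ξ =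
        ∫ u in (P : ℝ)..((3 * P - D : ℕ) : ℝ), e (-α * ((u + D) ^ (m + 2) - u ^ (m + 2))) := by
      rw [← tile (fun u => e (-α * ((u + D) ^ (m + 2) - u ^ (m + 2)))) (e_cont.comp (by fun_prop)) (by omega)]
      apply sum_congr rfl
      intro y _
      apply intervalIntegral.integral_congr
      intro ξ _
      rw [hh]
      simp only
      congr 1
      push_cast
      ring
    rw [e1, e2]
    refine (norm_add_le _ _).trans ?_
    have c1 := corr (m := m) hP hD1 hD2 hα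
    have c2 := corr (m := m) hP hD1 hD2 (neg_ne_zero.2 hα)
    rw [abs_neg] at c2
    refine (add_le_add c1 c2).trans (le_of_eq ?_)
    field_simp
    norm_num
  have h5 : ‖((∫ ξ in (0 : ℝ)..1, ‖S (m + 2) P α ξ‖ ^ 2 : ℝ) : ℂ)‖ ≤ 2 * P + 1 / (2 * |α| * (P : ℝ) ^ m) * (1 + Real.log (2 * P)) := by
    rw [h2, h3]
    refine (norm_add_le _ _).trans ?_
    have e1 : ‖((2 * P : ℝ) : ℂ)‖ = 2 * P := by
      rw [Complex.norm_real, Real.norm_of_nonneg (by positivity)]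
    rw [e1]
    have e2 : ‖∑ D ∈ Ico 1 (3 * P - P), ∑ y ∈ Ico P (3 * P - D), ((∫ ξ in (0 : ℝ)..1, h (y + D) y ξ) + ∫ ξ in (0 : ℝ)..1, h y (y + D) ξ)‖ ≤
        1 / (2 * |α| * (P : ℝ) ^ m) * (1 + Real.log (2 * P)) := by
      refine (norm_sum_le _ _).trans ((sum_le_sum h4).trans ?_)
      rw [← mul_sum]
      apply mul_le_mul_of_nonneg_left _ (by positivity)
      have e3 : ∑ D ∈ Ico 1 (3 * P - P), 1 / (D : ℝ) ≤ ((harmonic (2 * P) : ℚ) : ℝ) := by
        rw [harmonic]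
        push_cast
        rw [show 3 * P - P = 2 * P by omega, Finset.sum_Ico_eq_sum_range]
        have e4 : ∀ i ∈ range (2 * P - 1), 1 / (((1 + i : ℕ)) : ℝ) = ((i : ℝ) + 1)⁻¹ := by
          intro i _
          rw [one_div]
          congr 1
          push_cast
          ring
        rw [sum_congr rfl e4]
        apply sum_le_sum_of_subset_of_nonneg
        · intro i hi
          rw [mem_range] at hi ⊢
          omega
        · intro i _ _
          positivity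
      refine e3.trans ?_
      have := harmonic_le_one_add_log (2 * P)
      refine this.trans (le_of_eq ?_)
      push_cast
      rfl
    linarith
  rw [Complex.norm_real] at h5
  refine (le_abs_self _).trans (h5.trans ?_)
  have hlog : 0 ≤ Real.log (2 * P) := Real.log_nonneg (by
    have : (1 : ℝ) ≤ P := by exact_mod_cast hP
    linarith)
  have e4 : 1 / (2 * |α| * (P : ℝ) ^ m) * (1 + Real.log (2 * P)) ≤ (1 + Real.log (2 * P)) / (|α| * (P : ℝ) ^ m) := by
    rw [div_mul_eq_mul_div, one_mul]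
    apply div_le_div_of_nonneg_left (by linarith) (by positivity)
    have : 0 < |α| * (P : ℝ) ^ m := by positivity
    linarith
  linarith

/-- the variance -/
lemma variance {f : ℝ → ℂ} (hf : Continuous f) {z : ℂ} (hz : ∫ ξ in (0 : ℝ)..1, f ξ = z) :
    (∫ ξ in (0 : ℝ)..1, ‖f ξ - z‖) ^ 2 ≤ ∫ ξ in (0 : ℝ)..1, ‖f ξ‖ ^ 2 := by
  have h1 : ∫ ξ in (0 : ℝ)..1, ‖f ξ - z‖ ^ 2 = (∫ ξ in (0 : ℝ)..1, ‖f ξ‖ ^ 2) - ‖z‖ ^ 2 := by
    have e1 : ∀ ξ : ℝ, ‖f ξ - z‖ ^ 2 = ‖f ξ‖ ^ 2 - 2 * (f ξ * (starRingEnd ℂ) z).re + ‖z‖ ^ 2 := by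
      intro ξ
      rw [← Complex.normSq_eq_norm_sq, ← Complex.normSq_eq_norm_sq, ← Complex.normSq_eq_norm_sq, Complex.normSq_sub]
      ring
    simp_rw [e1]
    have i1 : IntervalIntegrable (fun ξ => ‖f ξ‖ ^ 2) volume 0 1 := (by fun_prop : Continuous fun ξ => ‖f ξ‖ ^ 2).intervalIntegrable _ _
    have i2 : IntervalIntegrable (fun ξ => 2 * (f ξ * (starRingEnd ℂ) z).re) volume 0 1 := by
      apply Continuous.intervalIntegrable
      exact continuous_const.mul (Complex.continuous_re.comp (hf.mul continuous_const))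
    rw [intervalIntegral.integral_add (i1.sub i2) (by simp), intervalIntegral.integral_sub i1 i2]
    have e2 : ∫ ξ in (0 : ℝ)..1, 2 * (f ξ * (starRingEnd ℂ) z).re = 2 * ‖z‖ ^ 2 := by
      rw [intervalIntegral.integral_const_mul]
      congr 1
      have i3 : IntervalIntegrable (fun ξ => f ξ * (starRingEnd ℂ) z) volume 0 1 :=
        (hf.mul continuous_const).intervalIntegrable _ _
      have := Complex.reCLM.intervalIntegral_comp_comm i3
      simp only [Complex.reCLM_apply] at this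
      rw [this, intervalIntegral.integral_mul_const, hz, Complex.mul_conj, Complex.ofReal_re, Complex.normSq_eq_norm_sq]
    rw [e2]
    simp
    ring
  set c := ∫ ξ in (0 : ℝ)..1, ‖f ξ - z‖ with hc
  have h2 : 0 ≤ ∫ ξ in (0 : ℝ)..1, (‖f ξ - z‖ - c) ^ 2 :=
    intervalIntegral.integral_nonneg zero_le_one fun ξ _ => sq_nonneg _
  have h3 : ∫ ξ in (0 : ℝ)..1, (‖f ξ - z‖ - c) ^ 2 = (∫ ξ in (0 : ℝ)..1, ‖f ξ - z‖ ^ 2) - c ^ 2 := by
    have e1 : ∀ ξ : ℝ, (‖f ξ - z‖ - c) ^ 2 = ‖f ξ - z‖ ^ 2 - (2 * c) * ‖f ξ - z‖ + c ^ 2 := fun ξ => by ring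
    simp_rw [e1]
    have i1 : IntervalIntegrable (fun ξ => ‖f ξ - z‖ ^ 2) volume 0 1 :=
      (by fun_prop : Continuous fun ξ => ‖f ξ - z‖ ^ 2).intervalIntegrable _ _
    have i2 : IntervalIntegrable (fun ξ => (2 * c) * ‖f ξ - z‖) volume 0 1 :=
      (by fun_prop : Continuous fun ξ => (2 * c) * ‖f ξ - z‖).intervalIntegrable _ _
    rw [intervalIntegral.integral_add (i1.sub i2) (by simp), intervalIntegral.integral_sub i1 i2,
      intervalIntegral.integral_const_mul, ← hc]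
    simp
    ring
  nlinarith [sq_nonneg ‖z‖]

/-- the deviation from the mean, for small `α` -/
lemma dev {m P : ℕ} (hP : 1 ≤ P) (α : ℝ) {ξ : ℝ} (h0 : 0 ≤ ξ) (h1 : ξ ≤ 1) :
    ‖S (m + 2) P α ξ - M (m + 2) P α‖ ≤ (4 * Real.pi * (m + 2) * 3 ^ (m + 1)) * (|α| * (P : ℝ) ^ (m + 2)) := by
  have hP0 : (0 : ℝ) < P := by exact_mod_cast hP
  have e1 : M (m + 2) P α = ∑ x ∈ Ico P (3 * P), ∫ t in (0 : ℝ)..1, e (α * ((x : ℝ) + t) ^ (m + 2)) := by
    rw [M]
    exact (tile (fun u => e (α * u ^ (m + 2))) (e_cont.comp (by fun_prop)) (by omega)).symm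
  have e2 : S (m + 2) P α ξ = ∑ x ∈ Ico P (3 * P), ∫ t in (0 : ℝ)..1, e (α * ((x : ℝ) + ξ) ^ (m + 2)) := by
    rw [S]
    apply sum_congr rfl
    intro x _
    simp
  rw [e1, e2, ← sum_sub_distrib]
  have e3 : ∀ x ∈ Ico P (3 * P), ‖(∫ t in (0 : ℝ)..1, e (α * ((x : ℝ) + ξ) ^ (m + 2))) -
      ∫ t in (0 : ℝ)..1, e (α * ((x : ℝ) + t) ^ (m + 2))‖ ≤
      2 * Real.pi * (|α| * ((m + 2) * (3 * P) ^ (m + 1))) := by
    intro x hx
    rw [mem_Ico] at hx
    have hc : Continuous fun t : ℝ => e (α * ((x : ℝ) + t) ^ (m + 2)) := e_cont.comp (by fun_prop)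
    have hc' : Continuous fun _ : ℝ => e (α * ((x : ℝ) + ξ) ^ (m + 2)) := continuous_const
    rw [← intervalIntegral.integral_sub (hc'.intervalIntegrable _ _) (hc.intervalIntegrable _ _)]
    have e4 : ∀ t ∈ Set.uIoc (0 : ℝ) 1, ‖e (α * ((x : ℝ) + ξ) ^ (m + 2)) - e (α * ((x : ℝ) + t) ^ (m + 2))‖ ≤
        2 * Real.pi * (|α| * ((m + 2) * (3 * P) ^ (m + 1))) := by
      intro t ht
      rw [Set.uIoc_of_le zero_le_one] at ht
      refine (e_lip _ _).trans ?_
      apply mul_le_mul_of_nonneg_left _ (by positivity)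
      rw [← mul_sub, abs_mul]
      apply mul_le_mul_of_nonneg_left _ (abs_nonneg _)
      have hx0 : (0 : ℝ) ≤ x := Nat.cast_nonneg _
      have hx1 : (x : ℝ) + 1 ≤ 3 * P := by exact_mod_cast hx.2
      refine (abs_pow_sub_pow_le _ _ _).trans ?_
      have a1 : |(x : ℝ) + ξ - (x + t)| ≤ 1 := by
        rw [abs_le]
        constructor <;> linarith [ht.1, ht.2]
      have a2 : max |(x : ℝ) + ξ| |(x : ℝ) + t| ≤ 3 * P := by
        rw [abs_of_nonneg (by linarith), abs_of_nonneg (by linarith [ht.1])]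
        exact max_le (by linarith) (by linarith [ht.2])
      have a3 : max |(x : ℝ) + ξ| |(x : ℝ) + t| ^ (m + 2 - 1) ≤ (3 * P) ^ (m + 1) := by
        rw [show m + 2 - 1 = m + 1 by omega]
        exact pow_le_pow_left₀ (le_max_of_le_left (abs_nonneg _)) a2 _
      have a4 : (0 : ℝ) ≤ ((m + 2 : ℕ) : ℝ) := Nat.cast_nonneg _
      calc |(x : ℝ) + ξ - (x + t)| * ((m + 2 : ℕ) : ℝ) * max |(x : ℝ) + ξ| |(x : ℝ) + t| ^ (m + 2 - 1)
          ≤ 1 * ((m + 2 : ℕ) : ℝ) * (3 * P) ^ (m + 1) := by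
            apply mul_le_mul (mul_le_mul_of_nonneg_right a1 a4) a3 (by positivity) (by positivity)
        _ = _ := by push_cast; ring
    have := intervalIntegral.norm_integral_le_of_norm_le_const e4
    simpa using this
  refine (norm_sum_le _ _).trans ((sum_le_sum e3).trans ?_)
  rw [sum_const, Nat.card_Ico, nsmul_eq_mul, show 3 * P - P = 2 * P by omega]
  apply le_of_eq
  push_cast
  ring

end Pool.Agent.K7.H74.WS
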