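import Mathlib
import Pool.Agent.K7.H74.WS.Sec

set_option autoImplicit false

/-! Waring's problem with shifts: the triangle function and its Fourier transform. -/

namespace Pool.Agent.K7.H74.WS
open Finset MeasureTheory Complex
open scoped FourierTransform

/-- the triangle function -/
noncomputable def w (y : ℝ) : ℝ := max 0 (1 - |y|)

/-- its Fourier transform -/
noncomputable def W (α : ℝ) : ℝ := Real.sinc (Real.pi * α) ^ 2

lemma w_cont : Continuous w := by unfold w; fun_prop
lemma w_nonneg (y : ℝ) : 0 ≤ w y := le_max_left _ _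
lemma w_le (y : ℝ) : w y ≤ 1 := max_le zero_le_one (by have := abs_nonneg y; linarith)
lemma w_zero {y : ℝ} (h : 1 ≤ |y|) : w y = 0 := max_eq_left (by linarith)
lemma w_half {y : ℝ} (h : |y| ≤ 1 / 2) : 1 / 2 ≤ w y := le_max_of_le_right (by linarith)

lemma W_cont : Continuous W := by
  unfold W
  exact (Real.continuous_sinc.comp (by fun_prop)).pow 2

lemma W_nonneg (α : ℝ) : 0 ≤ W α := sq_nonneg _

lemma W_le (α : ℝ) : W α ≤ 1 := by
  unfold W
  rw [← sq_abs]
  have h1 := Real.abs_sinc_le_one (Real.pi * α)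
  have h2 := abs_nonneg (Real.sinc (Real.pi * α))
  nlinarith

lemma W_le2 (α : ℝ) : W α ≤ 2 * (1 + α ^ 2)⁻¹ := by
  have hpos : 0 < 1 + α ^ 2 := by positivity
  rw [← div_eq_mul_inv, le_div_iff₀ hpos]
  rcases le_or_gt |α| 1 with h | h
  · have h1 : α ^ 2 ≤ 1 := by rw [← sq_abs]; nlinarith [abs_nonneg α]
    have h2 := W_le α
    have h3 := W_nonneg α
    nlinarith
  · have hα : α ≠ 0 := by
      rintro rfl
      simp at h
      linarith
    have hpα : Real.pi * α ≠ 0 := mul_ne_zero Real.pi_pos.ne' hα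
    unfold W
    rw [Real.sinc_of_ne_zero hpα, div_pow]
    have h1 : Real.sin (Real.pi * α) ^ 2 ≤ 1 := by
      rw [← sq_abs]
      have := Real.abs_sin_le_one (Real.pi * α)
      nlinarith [abs_nonneg (Real.sin (Real.pi * α))]
    have h2 : 1 ≤ α ^ 2 := by rw [← sq_abs]; nlinarith
    have h3 : (1 : ℝ) ≤ Real.pi ^ 2 := by
      have := Real.pi_gt_three
      nlinarith
    have h4 : α ^ 2 ≤ (Real.pi * α) ^ 2 := by
      rw [mul_pow]
      nlinarith [sq_nonneg α]
    rw [div_mul_eq_mul_div, div_le_iff₀ (by positivity)]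
    have h5 : 0 ≤ Real.sin (Real.pi * α) ^ 2 := sq_nonneg _
    calc Real.sin (Real.pi * α) ^ 2 * (1 + α ^ 2) ≤ 1 * (1 + α ^ 2) := by gcongr
      _ ≤ 2 * α ^ 2 := by linarith
      _ ≤ 2 * (Real.pi * α) ^ 2 := by linarith

lemma W_int : Integrable W := by
  refine (integrable_inv_one_add_sq.const_mul 2).mono' W_cont.aestronglyMeasurable ?_
  refine Filter.Eventually.of_forall fun α => ?_
  rw [Real.norm_of_nonneg (W_nonneg α)]
  exact W_le2 α

lemma int_even {f : ℝ → ℝ} (hf : Continuous f) :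
    ∫ β in (-1 : ℝ)..1, f β = ∫ β in (0 : ℝ)..1, (f β + f (-β)) := by
  have hc : Continuous fun β => f (-β) := hf.comp continuous_neg
  rw [← intervalIntegral.integral_add_adjacent_intervals (b := 0) (hf.intervalIntegrable _ _) (hf.intervalIntegrable _ _),
    intervalIntegral.integral_add (hf.intervalIntegrable _ _) (hc.intervalIntegrable _ _)]
  have h1 : ∫ β in (0 : ℝ)..1, f (-β) = ∫ β in (-1 : ℝ)..0, f β := by
    rw [intervalIntegral.integral_comp_neg]
    simp
  rw [h1, add_comm]

/-- the Fejér kernel -/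
lemma fejer (x : ℝ) : ∫ β in (-1 : ℝ)..1, (1 - |β|) * Real.cos (2 * Real.pi * x * β) = W x := by
  have hpi := Real.pi_pos
  rw [int_even (by fun_prop)]
  have h1 : ∀ β ∈ Set.uIcc (0 : ℝ) 1, (1 - |β|) * Real.cos (2 * Real.pi * x * β) +
      (1 - |-β|) * Real.cos (2 * Real.pi * x * -β) =
      2 * ((1 - β) * Real.cos (2 * Real.pi * x * β)) := by
    intro β hβ
    rw [Set.uIcc_of_le zero_le_one] at hβ
    rw [abs_neg, abs_of_nonneg hβ.1, mul_neg, Real.cos_neg]
    ring
  rw [intervalIntegral.integral_congr h1]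
  rcases eq_or_ne x 0 with rfl | hx
  · have e1 : ∀ β ∈ Set.uIcc (0 : ℝ) 1, HasDerivAt (fun β : ℝ => 2 * β - β ^ 2) (2 * ((1 - β) * Real.cos (2 * Real.pi * 0 * β))) β := by
      intro β _
      have := ((hasDerivAt_id β).const_mul 2).sub (hasDerivAt_pow 2 β)
      refine this.congr_deriv ?_
      simp
      ring
    rw [intervalIntegral.integral_eq_sub_of_hasDerivAt e1
      ((by fun_prop : Continuous fun β : ℝ => 2 * ((1 - β) * Real.cos (2 * Real.pi * 0 * β))).intervalIntegrable _ _)]
    unfold W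
    simp
    norm_num
  · set k := 2 * Real.pi * x with hkdef
    have hk : k ≠ 0 := by positivity
    have h2 : ∀ β ∈ Set.uIcc (0 : ℝ) 1, HasDerivAt (fun β : ℝ => 2 * ((1 - β) * Real.sin (k * β) / k -
        Real.cos (k * β) / k ^ 2)) (2 * ((1 - β) * Real.cos (k * β))) β := by
      intro β _
      have h3 : HasDerivAt (fun β : ℝ => k * β) k β := by
        simpa using (hasDerivAt_id β).const_mul k
      have h4 := h3.sin
      have h5 := h3.cos
      have h6 : HasDerivAt (fun β : ℝ => 1 - β) (-1) β := by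
        simpa using (hasDerivAt_id β).const_sub 1
      have h7 := (((h6.mul h4).div_const k).sub (h5.div_const (k ^ 2))).const_mul 2
      refine h7.congr_deriv ?_
      field_simp
      ring
    rw [intervalIntegral.integral_eq_sub_of_hasDerivAt h2
      ((by fun_prop : Continuous fun β : ℝ => 2 * ((1 - β) * Real.cos (k * β))).intervalIntegrable _ _)]
    have h8 : Real.cos (k * 1) = 1 - 2 * Real.sin (Real.pi * x) ^ 2 := by
      have : k * 1 = 2 * (Real.pi * x) := by rw [hkdef]; ring
      rw [this, Real.cos_two_mul, Real.cos_sq']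
      ring
    rw [h8]
    unfold W
    rw [Real.sinc_of_ne_zero (mul_ne_zero hpi.ne' hx)]
    simp only [mul_zero, Real.sin_zero, Real.cos_zero, sub_self, zero_mul, zero_div, sub_zero, mul_one]
    rw [hkdef]
    field_simp
    ring

lemma fourier_w (α : ℝ) : 𝓕 (fun y : ℝ => (w y : ℂ)) α = (W α : ℂ) := by
  rw [Real.fourier_real_eq_integral_exp_smul]
  have hsupp : Function.support (fun v : ℝ => cexp ((-2 * Real.pi * v * α : ℝ) * I) • (w v : ℂ)) ⊆ Set.Ioc (-1) 1 := by
    intro v hv
    by_contra h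
    apply hv
    have : 1 ≤ |v| := by
      by_contra h2
      push Not at h2
      obtain ⟨h3, h4⟩ := abs_lt.1 h2
      exact h ⟨h3, h4.le⟩
    simp only [w_zero this, Complex.ofReal_zero, smul_zero]
  rw [← intervalIntegral.integral_eq_integral_of_support_subset hsupp]
  have hwv : ∀ v ∈ Set.uIcc (-1 : ℝ) 1, w v = 1 - |v| := by
    intro v hv
    rw [Set.uIcc_of_le (by norm_num)] at hv
    unfold w
    exact max_eq_right (by have := abs_le.2 hv; linarith)
  have h1 : ∀ v ∈ Set.uIcc (-1 : ℝ) 1, cexp ((-2 * Real.pi * v * α : ℝ) * I) • (w v : ℂ) =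
      (((1 - |v|) * Real.cos (2 * Real.pi * α * v) : ℝ) : ℂ) - (((1 - |v|) * Real.sin (2 * Real.pi * α * v) : ℝ) : ℂ) * I := by
    intro v hv
    rw [hwv v hv, smul_eq_mul, Complex.exp_mul_I, ← Complex.ofReal_cos, ← Complex.ofReal_sin]
    have e1 : -2 * Real.pi * v * α = -(2 * Real.pi * α * v) := by ring
    rw [e1, Real.cos_neg, Real.sin_neg]
    push_cast
    ring
  rw [intervalIntegral.integral_congr h1]
  have i1 : IntervalIntegrable (fun v : ℝ => (((1 - |v|) * Real.cos (2 * Real.pi * α * v) : ℝ) : ℂ)) volume (-1) 1 :=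
    (by fun_prop : Continuous fun v : ℝ => (((1 - |v|) * Real.cos (2 * Real.pi * α * v) : ℝ) : ℂ)).intervalIntegrable _ _
  have i2 : IntervalIntegrable (fun v : ℝ => (((1 - |v|) * Real.sin (2 * Real.pi * α * v) : ℝ) : ℂ) * I) volume (-1) 1 :=
    (by fun_prop : Continuous fun v : ℝ => (((1 - |v|) * Real.sin (2 * Real.pi * α * v) : ℝ) : ℂ) * I).intervalIntegrable _ _
  rw [intervalIntegral.integral_sub i1 i2, intervalIntegral.integral_ofReal, fejer, intervalIntegral.integral_mul_const,
    intervalIntegral.integral_ofReal]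
  have h2 : ∫ v in (-1 : ℝ)..1, (1 - |v|) * Real.sin (2 * Real.pi * α * v) = 0 := by
    rw [int_even (by fun_prop)]
    have : ∀ β : ℝ, (1 - |β|) * Real.sin (2 * Real.pi * α * β) + (1 - |-β|) * Real.sin (2 * Real.pi * α * -β) = 0 := by
      intro β
      rw [abs_neg, mul_neg, Real.sin_neg]
      ring
    simp_rw [this]
    simp
  rw [h2]
  simp

lemma w_int : Integrable (fun y : ℝ => (w y : ℂ)) := by
  apply Continuous.integrable_of_hasCompactSupport (by have := w_cont; fun_prop)
  apply HasCompactSupport.intro (isCompact_Icc (a := -1) (b := 1))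
  intro y hy
  have : 1 ≤ |y| := by
    by_contra h2
    push Not at h2
    obtain ⟨h3, h4⟩ := abs_lt.1 h2
    exact hy ⟨h3.le, h4.le⟩
  rw [w_zero this]
  simp

/-- Fourier inversion -/
lemma w_eq (y : ℝ) : (w y : ℂ) = ∫ β : ℝ, (W β : ℂ) * e (β * y) := by
  have hF : 𝓕 (fun y : ℝ => (w y : ℂ)) = fun α => (W α : ℂ) := funext fourier_w
  have h1 := Continuous.fourierInv_fourier_eq (f := fun y : ℝ => (w y : ℂ)) (by have := w_cont; fun_prop) w_int
    (by rw [hF]; exact W_int.ofReal)
  have h2 := congrFun h1 y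
  rw [← h2, hF, Real.fourierInv_eq']
  refine integral_congr_ae (Filter.Eventually.of_forall fun v => ?_)
  show cexp (((2 * Real.pi * inner ℝ v y : ℝ) : ℂ) * I) • (W v : ℂ) = _
  rw [smul_eq_mul, mul_comm]
  congr 1
  unfold e
  congr 2
  have h3 : inner ℝ v y = v * y := by
    rw [real_inner_comm]
    rfl
  rw [h3]

lemma W_one : ∫ β : ℝ, W β = 1 := by
  have h := w_eq 0
  have e1 : ∀ β : ℝ, (W β : ℂ) * e (β * 0) = (W β : ℂ) := fun β => by rw [mul_zero, e_zero, mul_one]
  simp_rw [e1] at h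
  rw [integral_complex_ofReal] at h
  have h2 : w 0 = 1 := by unfold w; simp
  rw [h2] at h
  exact_mod_cast h.symm

end Pool.Agent.K7.H74.WS
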