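import Mathlib
import Pool.Agent.K7.H74.WS.Ker

set_option autoImplicit false

/-! Waring's problem with shifts: the expected deviation of a product from its mean. -/

namespace Pool.Agent.K7.H74.WS
open Finset MeasureTheory Complex

/-- Lebesgue measure on the unit cube -/
noncomputable def cube (s : ℕ) : Measure (Fin s → ℝ) := Measure.pi fun _ => volume.restrict (Set.Ioc (0 : ℝ) 1)

instance unitP : IsProbabilityMeasure (volume.restrict (Set.Ioc (0 : ℝ) 1)) :=
  ⟨by rw [Measure.restrict_apply_univ, Real.volume_Ioc]; simp⟩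

instance cubeP (s : ℕ) : IsProbabilityMeasure (cube s) := by unfold cube; infer_instance

lemma int_unit {E : Type} [NormedAddCommGroup E] [NormedSpace ℝ E] (f : ℝ → E) :
    ∫ ξ, f ξ ∂(volume.restrict (Set.Ioc (0 : ℝ) 1)) = ∫ ξ in (0 : ℝ)..1, f ξ := by
  rw [intervalIntegral.integral_of_le zero_le_one]

theorem prod_dev (s : ℕ) {f : ℝ → ℂ} (hf : Continuous f) {B : ℝ} (hB : ∀ ξ, ‖f ξ‖ ≤ B) (z : ℂ) :
    ∫ ξ, ‖∏ i, f (ξ i) - z ^ s‖ ∂(cube s) ≤ ((∫ ξ in (0 : ℝ)..1, ‖f ξ - z‖) + ‖z‖) ^ s - ‖z‖ ^ s := by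
  classical
  set m1 := ∫ ξ in (0 : ℝ)..1, ‖f ξ - z‖ with hm1
  -- the terms
  set G : Finset (Fin s) → (Fin s → ℝ) → ℝ := fun t ξ => ∏ i, if i ∈ t then ‖f (ξ i) - z‖ else ‖z‖ with hG
  have hGc : ∀ t, Continuous (G t) := by
    intro t
    rw [hG]
    refine continuous_finsetProd _ fun i _ => ?_
    by_cases h : i ∈ t
    · simp only [h, if_true]
      exact ((hf.comp (continuous_apply i)).sub continuous_const).norm
    · simp only [h, if_false]
      exact continuous_const
  have hB0 : 0 ≤ B := (norm_nonneg _).trans (hB 0)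
  have hGb : ∀ t ξ, ‖G t ξ‖ ≤ (B + ‖z‖) ^ s := by
    intro t ξ
    rw [hG]
    simp only
    rw [norm_prod]
    calc ∏ i, ‖(if i ∈ t then ‖f (ξ i) - z‖ else ‖z‖ : ℝ)‖ ≤ ∏ _i : Fin s, (B + ‖z‖) := by
          apply prod_le_prod (fun i _ => norm_nonneg _)
          intro i _
          by_cases h : i ∈ t
          · simp only [h, if_true, norm_norm]
            exact (norm_sub_le _ _).trans (add_le_add (hB _) (le_refl _))
          · simp only [h, if_false, norm_norm]
            linarith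
      _ = _ := by rw [prod_const, card_univ, Fintype.card_fin]
  have hGi : ∀ t, Integrable (G t) (cube s) := fun t =>
    Integrable.of_bound (hGc t).aestronglyMeasurable _ (Filter.Eventually.of_forall (hGb t))
  have hGint : ∀ t, ∫ ξ, G t ξ ∂(cube s) = m1 ^ t.card * ‖z‖ ^ (s - t.card) := by
    intro t
    rw [hG, cube]
    have h1 := integral_fintype_prod_eq_prod (𝕜 := ℝ) (fun (i : Fin s) (x : ℝ) => if i ∈ t then ‖f x - z‖ else ‖z‖)
      (μ := fun _ => volume.restrict (Set.Ioc (0 : ℝ) 1))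
    refine h1.trans ?_
    have h2 : ∀ i : Fin s, ∫ x, (if i ∈ t then ‖f x - z‖ else ‖z‖) ∂(volume.restrict (Set.Ioc (0 : ℝ) 1)) =
        if i ∈ t then m1 else ‖z‖ := by
      intro i
      by_cases h : i ∈ t
      · simp only [h, if_true]
        rw [int_unit]
      · simp only [h, if_false]
        simp
    simp_rw [h2]
    rw [prod_ite, prod_const, prod_const]
    congr 2
    · congr 1
      ext i; simp
    · have : (univ.filter fun i => i ∉ t) = tᶜ := by ext i; simp
      rw [this, card_compl, Fintype.card_fin]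
  -- the pointwise bound
  have hpt : ∀ ξ : Fin s → ℝ, ‖∏ i, f (ξ i) - z ^ s‖ ≤ ∑ t ∈ (univ : Finset (Fin s)).powerset.erase ∅, G t ξ := by
    intro ξ
    have h1 : ∏ i, f (ξ i) = ∑ t ∈ (univ : Finset (Fin s)).powerset, (∏ i ∈ t, (f (ξ i) - z)) * ∏ _i ∈ univ \ t, z := by
      rw [← prod_add]
      apply prod_congr rfl
      intro i _
      ring
    have h2 : (∅ : Finset (Fin s)) ∈ (univ : Finset (Fin s)).powerset := by simp
    rw [h1, ← add_sum_erase _ _ h2]
    have h3 : (∏ i ∈ (∅ : Finset (Fin s)), (f (ξ i) - z)) * ∏ _i ∈ univ \ (∅ : Finset (Fin s)), z = z ^ s := by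
      simp
    rw [h3, add_sub_cancel_left]
    refine (norm_sum_le _ _).trans (sum_le_sum fun t _ => ?_)
    rw [hG]
    simp only
    rw [prod_ite, norm_mul, norm_prod, norm_prod]
    have e1 : (univ.filter fun i => i ∈ t) = t := by ext i; simp
    have e2 : (univ.filter fun i => i ∉ t) = univ \ t := by ext i; simp
    rw [e1, e2]
  have hint : Integrable (fun ξ : Fin s → ℝ => ‖∏ i, f (ξ i) - z ^ s‖) (cube s) := by
    refine (integrable_finsetSum _ fun t _ => hGi t : Integrable (fun ξ => ∑ t ∈ (univ : Finset (Fin s)).powerset.erase ∅, G t ξ) (cube s)).mono' ?_ ?_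
    · apply Continuous.aestronglyMeasurable
      exact ((continuous_finsetProd _ fun i _ => hf.comp (continuous_apply i)).sub continuous_const).norm
    · refine Filter.Eventually.of_forall fun ξ => ?_
      rw [norm_norm]
      exact hpt ξ
  have h4 : ∫ ξ, ‖∏ i, f (ξ i) - z ^ s‖ ∂(cube s) ≤ ∫ ξ, ∑ t ∈ (univ : Finset (Fin s)).powerset.erase ∅, G t ξ ∂(cube s) :=
    integral_mono hint (integrable_finsetSum _ fun t _ => hGi t) hpt
  refine h4.trans (le_of_eq ?_)
  rw [integral_finsetSum _ fun t _ => hGi t, sum_congr rfl (fun t _ => hGint t)]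
  have h5 := sum_pow_mul_eq_add_pow m1 ‖z‖ (univ : Finset (Fin s))
  rw [card_univ, Fintype.card_fin] at h5
  have h2 : (∅ : Finset (Fin s)) ∈ (univ : Finset (Fin s)).powerset := by simp
  rw [← add_sum_erase _ _ h2] at h5
  simp only [card_empty, pow_zero, one_mul, Nat.sub_zero] at h5
  linarith

lemma pow_diff {a b : ℝ} (ha : 0 ≤ a) (hb : 0 ≤ b) (n : ℕ) : (a + b) ^ (n + 1) - b ^ (n + 1) ≤ (n + 1) * (a * (a + b) ^ n) := by
  induction n with
  | zero => simp
  | succ n ih =>
    have h1 : (a + b) ^ (n + 1 + 1) - b ^ (n + 1 + 1) = a * (a + b) ^ (n + 1) + b * ((a + b) ^ (n + 1) - b ^ (n + 1)) := by ring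
    rw [h1]
    have h2 : b * ((a + b) ^ (n + 1) - b ^ (n + 1)) ≤ b * ((n + 1) * (a * (a + b) ^ n)) := mul_le_mul_of_nonneg_left ih hb
    have h3 : b * ((n + 1) * (a * (a + b) ^ n)) ≤ (a + b) * ((n + 1) * (a * (a + b) ^ n)) := by
      apply mul_le_mul_of_nonneg_right (by linarith) (by positivity)
    have h4 : (a + b) * (((n : ℝ) + 1) * (a * (a + b) ^ n)) = (n + 1) * (a * (a + b) ^ (n + 1)) := by ring
    push_cast
    linarith

end Pool.Agent.K7.H74.WS
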