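import Mathlib
import Pool.Agent.K7.H74.WS.Prodx

set_option autoImplicit false

/-! Waring's problem with shifts: the exponential sum over a full interval. -/

namespace Pool.Agent.K7.H74.WS
open Finset MeasureTheory Complex

/-- the exponential sum over the `k`-th powers of `x + ξ`, `0 ≤ x < 3 ^ J` -/
noncomputable def SF (k J : ℕ) (α ξ : ℝ) : ℂ := ∑ x ∈ range (3 ^ J), e (α * ((x : ℝ) + ξ) ^ k)

/-- its mean value over the shift -/
noncomputable def MF (k J : ℕ) (α : ℝ) : ℂ := ∫ u in (0 : ℝ)..((3 ^ J : ℕ) : ℝ), e (α * u ^ k)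

/-- the mean deviation -/
noncomputable def DF (k J : ℕ) (α : ℝ) : ℝ := ∫ ξ in (0 : ℝ)..1, ‖SF k J α ξ - MF k J α‖

lemma SF_cont (k J : ℕ) : Continuous fun p : ℝ × ℝ => SF k J p.1 p.2 := by
  unfold SF
  exact continuous_finsetSum _ fun x _ => e_cont.comp (by fun_prop)

lemma SF_cont2 (k J : ℕ) (α : ℝ) : Continuous fun ξ : ℝ => SF k J α ξ :=
  (SF_cont k J).comp (by fun_prop : Continuous fun ξ : ℝ => ((α, ξ) : ℝ × ℝ))

lemma SF_le (k J : ℕ) (α ξ : ℝ) : ‖SF k J α ξ‖ ≤ (3 : ℝ) ^ J := by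
  unfold SF
  refine (norm_sum_le _ _).trans ?_
  rw [sum_congr rfl (fun x _ => norm_e _), sum_const, card_range, nsmul_eq_mul, mul_one]
  push_cast
  exact le_refl _

lemma int_SF (k J : ℕ) (α : ℝ) : ∫ ξ in (0 : ℝ)..1, SF k J α ξ = MF k J α := by
  unfold SF MF
  have hc : ∀ x : ℕ, Continuous fun ξ : ℝ => e (α * ((x : ℝ) + ξ) ^ k) := fun x => e_cont.comp (by fun_prop)
  rw [intervalIntegral.integral_finsetSum (fun x _ => (hc x).intervalIntegrable _ _), range_eq_Ico]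
  have h := tile (fun u => e (α * u ^ k)) (e_cont.comp (by fun_prop)) (Nat.zero_le (3 ^ J))
  rw [h, Nat.cast_zero]

lemma MF_cont (k J : ℕ) : Continuous fun α : ℝ => MF k J α := by
  unfold MF
  apply intervalIntegral.continuous_parametric_intervalIntegral_of_continuous'
  unfold Function.uncurry
  exact e_cont.comp (by fun_prop)

lemma MF_le' (k J : ℕ) (α : ℝ) : ‖MF k J α‖ ≤ (3 : ℝ) ^ J := by
  rw [← int_SF]
  have h := intervalIntegral.norm_integral_le_of_norm_le_const (a := 0) (b := 1) (C := (3 : ℝ) ^ J)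
    (f := fun ξ => SF k J α ξ) (fun ξ _ => SF_le k J α ξ)
  simpa using h

lemma DF_cont (k J : ℕ) : Continuous fun α : ℝ => DF k J α := by
  unfold DF
  apply intervalIntegral.continuous_parametric_intervalIntegral_of_continuous'
  unfold Function.uncurry
  exact ((SF_cont k J).sub ((MF_cont k J).comp continuous_fst)).norm

lemma DF_nonneg (k J : ℕ) (α : ℝ) : 0 ≤ DF k J α :=
  intervalIntegral.integral_nonneg zero_le_one fun _ _ => norm_nonneg _

lemma SF_succ (k J : ℕ) (α ξ : ℝ) : SF k (J + 1) α ξ = SF k J α ξ + S k (3 ^ J) α ξ := by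
  unfold SF S
  rw [range_eq_Ico, range_eq_Ico, ← sum_Ico_consecutive _ (Nat.zero_le (3 ^ J)) (by rw [pow_succ]; omega : 3 ^ J ≤ 3 ^ (J + 1))]
  congr 2
  rw [pow_succ, mul_comm]

lemma MF_succ (k J : ℕ) (α : ℝ) : MF k (J + 1) α = MF k J α + M k (3 ^ J) α := by
  rw [← int_SF, ← int_SF, ← int_S, ← intervalIntegral.integral_add ((SF_cont2 k J α).intervalIntegrable _ _)
    ((S_cont2 k _ α).intervalIntegrable _ _)]
  simp_rw [SF_succ]

/-- the mean deviation for one block -/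
noncomputable def DB (k P : ℕ) (α : ℝ) : ℝ := ∫ ξ in (0 : ℝ)..1, ‖S k P α ξ - M k P α‖

lemma DF_le_sum (k J : ℕ) (α : ℝ) : DF k J α ≤ 2 + ∑ i ∈ range J, DB k (3 ^ i) α := by
  induction J with
  | zero =>
    rw [range_zero, sum_empty, add_zero]
    have h : DF k 0 α ≤ ∫ ξ in (0 : ℝ)..1, (2 : ℝ) := by
      unfold DF
      apply intervalIntegral.integral_mono_on zero_le_one
      · exact ((SF_cont2 k 0 α).sub continuous_const).norm.intervalIntegrable _ _
      · exact intervalIntegrable_const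
      · intro ξ _
        have h1 := SF_le k 0 α ξ
        have h2 := MF_le' k 0 α
        rw [pow_zero] at h1 h2
        have := norm_sub_le (SF k 0 α ξ) (MF k 0 α)
        linarith
    simpa using h
  | succ J ih =>
    rw [sum_range_succ]
    have h : DF k (J + 1) α ≤ DF k J α + DB k (3 ^ J) α := by
      unfold DF DB
      have hc1 : Continuous fun ξ : ℝ => ‖SF k J α ξ - MF k J α‖ := ((SF_cont2 k J α).sub continuous_const).norm
      have hc2 : Continuous fun ξ : ℝ => ‖S k (3 ^ J) α ξ - M k (3 ^ J) α‖ := ((S_cont2 k _ α).sub continuous_const).norm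
      rw [← intervalIntegral.integral_add (hc1.intervalIntegrable _ _) (hc2.intervalIntegrable _ _)]
      apply intervalIntegral.integral_mono_on zero_le_one
      · exact ((SF_cont2 k (J + 1) α).sub continuous_const).norm.intervalIntegrable _ _
      · exact (hc1.add hc2).intervalIntegrable _ _
      · intro ξ _
        rw [SF_succ, MF_succ]
        have : SF k J α ξ + S k (3 ^ J) α ξ - (MF k J α + M k (3 ^ J) α) =
          (SF k J α ξ - MF k J α) + (S k (3 ^ J) α ξ - M k (3 ^ J) α) := by ring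
        rw [this]
        exact norm_add_le _ _
    linarith

/-- the constant in the trivial bound -/
noncomputable def CK (m : ℕ) : ℝ := 4 * Real.pi * (m + 2) * 3 ^ (m + 1)

lemma CK_pos (m : ℕ) : 0 < CK m := by unfold CK; have := Real.pi_pos; positivity

lemma DB_triv {m P : ℕ} (hP : 1 ≤ P) (α : ℝ) : DB (m + 2) P α ≤ CK m * (|α| * (P : ℝ) ^ (m + 2)) := by
  have h : DB (m + 2) P α ≤ ∫ ξ in (0 : ℝ)..1, CK m * (|α| * (P : ℝ) ^ (m + 2)) := by
    unfold DB
    apply intervalIntegral.integral_mono_on zero_le_one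
    · exact ((S_cont2 _ _ α).sub continuous_const).norm.intervalIntegrable _ _
    · exact intervalIntegrable_const
    · intro ξ hξ
      exact dev hP α hξ.1 hξ.2
  simpa using h

lemma DB_sq {m P : ℕ} (hP : 1 ≤ P) {α : ℝ} (hα : α ≠ 0) :
    (DB (m + 2) P α) ^ 2 ≤ 2 * P + (1 + Real.log (2 * P)) / (|α| * (P : ℝ) ^ m) :=
  (variance (S_cont2 _ _ α) (int_S _ _ α)).trans (second hP hα)

/-- one block, all frequencies -/
lemma DB_all {m P : ℕ} (hP : 1 ≤ P) {α q L : ℝ} (hα : α ≠ 0) (hq : 1 ≤ q) (hPq : (P : ℝ) ≤ q ^ 4)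
    (hL : 1 + Real.log (2 * P) ≤ L) (hL1 : 1 ≤ L) : DB (m + 2) P α ≤ (CK m + 2) * L * q ^ 3 := by
  have hP0 : (0 : ℝ) < P := by exact_mod_cast hP
  have hC := CK_pos m
  have hα0 : 0 < |α| := abs_pos.2 hα
  have hq3 : 0 < q ^ 3 := by positivity
  rcases le_or_gt (|α| * (P : ℝ) ^ (m + 2)) (q ^ 3) with h | h
  · calc DB (m + 2) P α ≤ CK m * (|α| * (P : ℝ) ^ (m + 2)) := DB_triv hP α
      _ ≤ CK m * q ^ 3 := mul_le_mul_of_nonneg_left h hC.le
      _ ≤ (CK m + 2) * L * q ^ 3 := by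
          apply mul_le_mul_of_nonneg_right _ hq3.le
          nlinarith
  · have h1 := DB_sq (m := m) hP hα
    have h2 : (1 + Real.log (2 * P)) / (|α| * (P : ℝ) ^ m) ≤ L * q ^ 5 := by
      rw [div_le_iff₀ (by positivity)]
      refine hL.trans ?_
      have h3 : q ^ 3 ≤ |α| * (P : ℝ) ^ m * q ^ 8 := by
        calc q ^ 3 ≤ |α| * (P : ℝ) ^ (m + 2) := h.le
          _ = |α| * (P : ℝ) ^ m * (P : ℝ) ^ 2 := by ring
          _ ≤ |α| * (P : ℝ) ^ m * (q ^ 4) ^ 2 := by gcongr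
          _ = _ := by ring
      have h4 : 1 ≤ |α| * (P : ℝ) ^ m * q ^ 5 := by
        have : |α| * (P : ℝ) ^ m * q ^ 8 = |α| * (P : ℝ) ^ m * q ^ 5 * q ^ 3 := by ring
        rw [this] at h3
        by_contra h5
        push Not at h5
        nlinarith
      calc L = L * 1 := (mul_one _).symm
        _ ≤ L * (|α| * (P : ℝ) ^ m * q ^ 5) := mul_le_mul_of_nonneg_left h4 (by linarith)
        _ = _ := by ring
    have h3 : (DB (m + 2) P α) ^ 2 ≤ (2 * L * q ^ 3) ^ 2 := by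
      have e1 : q ^ 4 ≤ q ^ 6 := pow_le_pow_right₀ hq (by norm_num)
      have e2 : q ^ 5 ≤ q ^ 6 := pow_le_pow_right₀ hq (by norm_num)
      have e3 : L * q ^ 5 ≤ L * q ^ 6 := mul_le_mul_of_nonneg_left e2 (by linarith)
      have e4 : q ^ 6 ≤ L ^ 2 * q ^ 6 := le_mul_of_one_le_left (by positivity) (one_le_pow₀ hL1)
      have e5 : L * q ^ 6 ≤ L ^ 2 * q ^ 6 := by
        apply mul_le_mul_of_nonneg_right _ (by positivity)
        nlinarith
      calc (DB (m + 2) P α) ^ 2 ≤ 2 * P + (1 + Real.log (2 * P)) / (|α| * (P : ℝ) ^ m) := h1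
        _ ≤ 2 * q ^ 4 + L * q ^ 5 := by linarith
        _ ≤ 4 * (L ^ 2 * q ^ 6) := by nlinarith [(by positivity : 0 ≤ L ^ 2 * q ^ 6)]
        _ = _ := by ring
    have h4 := abs_le_of_sq_le_sq h3 (by positivity)
    calc DB (m + 2) P α ≤ 2 * L * q ^ 3 := (le_abs_self _).trans h4
      _ ≤ (CK m + 2) * L * q ^ 3 := by
          apply mul_le_mul_of_nonneg_right _ hq3.le
          apply mul_le_mul_of_nonneg_right _ (by linarith)
          linarith

/-- one block, large frequencies -/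
lemma DB_large {m P : ℕ} (hP : 1 ≤ P) {α q L : ℝ} (hα : α ≠ 0) (hq : 1 ≤ q) (hPq : (P : ℝ) ≤ q ^ 4)
    (hL : 1 + Real.log (2 * P) ≤ L) (hL1 : 1 ≤ L) (hαq : 1 ≤ |α| * q ^ (2 * (m + 2))) :
    DB (m + 2) P α ≤ (CK m + 2) * L * q ^ 2 := by
  have hP0 : (0 : ℝ) < P := by exact_mod_cast hP
  have hC := CK_pos m
  have hα0 : 0 < |α| := abs_pos.2 hα
  have hq0 : 0 < q := by linarith
  have hq2 : 0 < q ^ 2 := by positivity
  rcases le_or_gt (|α| * (P : ℝ) ^ (m + 2)) (q ^ 2) with h | h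
  · calc DB (m + 2) P α ≤ CK m * (|α| * (P : ℝ) ^ (m + 2)) := DB_triv hP α
      _ ≤ CK m * q ^ 2 := mul_le_mul_of_nonneg_left h hC.le
      _ ≤ (CK m + 2) * L * q ^ 2 := by
          apply mul_le_mul_of_nonneg_right _ hq2.le
          nlinarith
  · have h1 := DB_sq (m := m) hP hα
    have h4 : 1 ≤ |α| * (P : ℝ) ^ m * q ^ 4 := by
      rcases le_or_gt (P : ℝ) (q ^ 3) with h5 | h5
      · have h3 : q ^ 2 ≤ |α| * (P : ℝ) ^ m * q ^ 6 := by
          calc q ^ 2 ≤ |α| * (P : ℝ) ^ (m + 2) := h.le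
            _ = |α| * (P : ℝ) ^ m * (P : ℝ) ^ 2 := by ring
            _ ≤ |α| * (P : ℝ) ^ m * (q ^ 3) ^ 2 := by gcongr
            _ = _ := by ring
        have : |α| * (P : ℝ) ^ m * q ^ 6 = |α| * (P : ℝ) ^ m * q ^ 4 * q ^ 2 := by ring
        rw [this] at h3
        by_contra h6
        push Not at h6
        nlinarith
      · calc (1 : ℝ) ≤ |α| * q ^ (2 * (m + 2)) := hαq
          _ ≤ |α| * q ^ (3 * m + 4) := by
              apply mul_le_mul_of_nonneg_left _ hα0.le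
              exact pow_le_pow_right₀ hq (by omega)
          _ = |α| * (q ^ 3) ^ m * q ^ 4 := by rw [← pow_mul, mul_assoc, ← pow_add]
          _ ≤ _ := by gcongr
    have h2 : (1 + Real.log (2 * P)) / (|α| * (P : ℝ) ^ m) ≤ L * q ^ 4 := by
      rw [div_le_iff₀ (by positivity)]
      refine hL.trans ?_
      calc L = L * 1 := (mul_one _).symm
        _ ≤ L * (|α| * (P : ℝ) ^ m * q ^ 4) := mul_le_mul_of_nonneg_left h4 (by linarith)
        _ = _ := by ring
    have h3 : (DB (m + 2) P α) ^ 2 ≤ (2 * L * q ^ 2) ^ 2 := by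
      have e4 : q ^ 4 ≤ L ^ 2 * q ^ 4 := le_mul_of_one_le_left (by positivity) (one_le_pow₀ hL1)
      have e5 : L * q ^ 4 ≤ L ^ 2 * q ^ 4 := by
        apply mul_le_mul_of_nonneg_right _ (by positivity)
        nlinarith
      calc (DB (m + 2) P α) ^ 2 ≤ 2 * P + (1 + Real.log (2 * P)) / (|α| * (P : ℝ) ^ m) := h1
        _ ≤ 2 * q ^ 4 + L * q ^ 4 := by linarith
        _ ≤ 4 * (L ^ 2 * q ^ 4) := by nlinarith [(by positivity : 0 ≤ L ^ 2 * q ^ 4)]
        _ = _ := by ring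
    have h4 := abs_le_of_sq_le_sq h3 (by positivity)
    calc DB (m + 2) P α ≤ 2 * L * q ^ 2 := (le_abs_self _).trans h4
      _ ≤ (CK m + 2) * L * q ^ 2 := by
          apply mul_le_mul_of_nonneg_right _ hq2.le
          apply mul_le_mul_of_nonneg_right _ (by linarith)
          linarith

/-- the logarithmic factor -/
noncomputable def LJ (m J : ℕ) : ℝ := 2 + J * ((CK m + 2) * (2 * J + 2))

lemma LJ_pos (m J : ℕ) : 0 < LJ m J := by unfold LJ; have := CK_pos m; positivity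

lemma log_block {i J : ℕ} (h : i < J) : 1 + Real.log (2 * ((3 ^ i : ℕ) : ℝ)) ≤ 2 * J + 2 := by
  push_cast
  rw [Real.log_mul (by norm_num) (by positivity), Real.log_pow]
  have h1 : Real.log 2 ≤ 1 := by have := Real.log_two_lt_d9; linarith
  have h2 : Real.log 3 ≤ 2 := by
    have := Real.log_le_sub_one_of_pos (by norm_num : (0 : ℝ) < 3)
    linarith
  have h3 : (i : ℝ) + 1 ≤ J := by exact_mod_cast h
  have h4 : (0 : ℝ) ≤ i := Nat.cast_nonneg _
  have h5 : (i : ℝ) * Real.log 3 ≤ i * 2 := mul_le_mul_of_nonneg_left h2 h4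
  linarith

lemma DF_all {m J : ℕ} {α q : ℝ} (hα : α ≠ 0) (hq : 1 ≤ q) (hJ : (3 : ℝ) ^ J = q ^ 4) :
    DF (m + 2) J α ≤ LJ m J * q ^ 3 := by
  have hC := CK_pos m
  refine (DF_le_sum _ _ _).trans ?_
  have h1 : ∑ i ∈ range J, DB (m + 2) (3 ^ i) α ≤ ∑ _i ∈ range J, (CK m + 2) * (2 * J + 2) * q ^ 3 := by
    apply sum_le_sum
    intro i hi
    rw [mem_range] at hi
    refine DB_all (Nat.one_le_pow _ _ (by norm_num)) hα hq ?_ (log_block hi) (by have : (0 : ℝ) ≤ J := Nat.cast_nonneg _; linarith)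
    rw [← hJ]
    push_cast
    exact pow_le_pow_right₀ (by norm_num) hi.le
  rw [sum_const, card_range, nsmul_eq_mul] at h1
  have h2 : (2 : ℝ) ≤ 2 * q ^ 3 := by nlinarith [one_le_pow₀ hq (n := 3)]
  unfold LJ
  have e : (2 + (J : ℝ) * ((CK m + 2) * (2 * J + 2))) * q ^ 3 = 2 * q ^ 3 + J * ((CK m + 2) * (2 * J + 2) * q ^ 3) := by ring
  rw [e]
  linarith

lemma DF_large {m J : ℕ} {α q : ℝ} (hα : α ≠ 0) (hq : 1 ≤ q) (hJ : (3 : ℝ) ^ J = q ^ 4)
    (hαq : 1 ≤ |α| * q ^ (2 * (m + 2))) : DF (m + 2) J α ≤ LJ m J * q ^ 2 := by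
  have hC := CK_pos m
  refine (DF_le_sum _ _ _).trans ?_
  have h1 : ∑ i ∈ range J, DB (m + 2) (3 ^ i) α ≤ ∑ _i ∈ range J, (CK m + 2) * (2 * J + 2) * q ^ 2 := by
    apply sum_le_sum
    intro i hi
    rw [mem_range] at hi
    refine DB_large (Nat.one_le_pow _ _ (by norm_num)) hα hq ?_ (log_block hi) (by have : (0 : ℝ) ≤ J := Nat.cast_nonneg _; linarith) hαq
    rw [← hJ]
    push_cast
    exact pow_le_pow_right₀ (by norm_num) hi.le
  rw [sum_const, card_range, nsmul_eq_mul] at h1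
  have h2 : (2 : ℝ) ≤ 2 * q ^ 2 := by nlinarith [one_le_pow₀ hq (n := 2)]
  unfold LJ
  have e : (2 + (J : ℝ) * ((CK m + 2) * (2 * J + 2))) * q ^ 2 = 2 * q ^ 2 + J * ((CK m + 2) * (2 * J + 2) * q ^ 2) := by ring
  rw [e]
  linarith

/-! ### the mean value -/

lemma MF_neg (k J : ℕ) (α : ℝ) : ‖MF k J (-α)‖ = ‖MF k J α‖ := by
  unfold MF
  have h1 : ∀ u : ℝ, -α * u ^ k = -(α * u ^ k) := fun u => by ring
  simp_rw [h1]
  exact int_neg (f := fun u => α * u ^ k) _ _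

lemma MF_pos {m J : ℕ} {α u : ℝ} (hα : 0 < α) (hu : 0 < u) (hu1 : α * u ^ (m + 2) = 1) (huX : u ≤ 3 ^ J) :
    ‖MF (m + 2) J α‖ ≤ 2 * u := by
  have hc : Continuous fun u : ℝ => e (α * u ^ (m + 2)) := e_cont.comp (by fun_prop)
  unfold MF
  push_cast
  rw [← intervalIntegral.integral_add_adjacent_intervals (b := u) (hc.intervalIntegrable _ _) (hc.intervalIntegrable _ _)]
  have h1 : ‖∫ v in (0 : ℝ)..u, e (α * v ^ (m + 2))‖ ≤ 1 * |u - 0| :=
    intervalIntegral.norm_integral_le_of_norm_le_const fun v _ => (norm_e _).le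
  rw [one_mul, sub_zero, abs_of_pos hu] at h1
  have h2 : ‖∫ v in u..(3 : ℝ) ^ J, e (α * v ^ (m + 2))‖ ≤ u := by
    have h3 := osc (a := u) (b := (3 : ℝ) ^ J) huX
      (φ := fun v => 2 * Real.pi * (α * v ^ (m + 2)))
      (φ1 := fun v => 2 * Real.pi * (α * (((m + 2 : ℕ) : ℝ) * v ^ (m + 1))))
      (φ2 := fun v => 2 * Real.pi * (α * (((m + 2 : ℕ) : ℝ) * (((m + 1 : ℕ) : ℝ) * v ^ m))))
      (fun t => ((hasDerivAt_pow (m + 2) t).const_mul α).const_mul (2 * Real.pi))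
      (fun t => ((((hasDerivAt_pow (m + 1) t).const_mul ((m + 2 : ℕ) : ℝ))).const_mul α).const_mul (2 * Real.pi))
      (by fun_prop)
      (fun t ht => by
        have : 0 ≤ t := hu.le.trans ht.1
        have := Real.pi_pos
        positivity)
      (l := 2 * (α * u ^ (m + 1))) (by positivity)
      (fun t ht => by
        have h2 : u ^ (m + 1) ≤ t ^ (m + 1) := pow_le_pow_left₀ hu.le ht.1 _
        have h3 : (1 : ℝ) ≤ ((m + 2 : ℕ) : ℝ) := by exact_mod_cast (by omega : 1 ≤ m + 2)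
        have h4 : (1 : ℝ) ≤ Real.pi := by have := Real.pi_gt_three; linarith
        have h5 : u ^ (m + 1) ≤ ((m + 2 : ℕ) : ℝ) * t ^ (m + 1) := by
          have : 0 ≤ t ^ (m + 1) := (by positivity : (0 : ℝ) ≤ u ^ (m + 1)).trans h2
          nlinarith
        have h6 : α * u ^ (m + 1) ≤ α * (((m + 2 : ℕ) : ℝ) * t ^ (m + 1)) := mul_le_mul_of_nonneg_left h5 hα.le
        have h7 : 0 ≤ α * (((m + 2 : ℕ) : ℝ) * t ^ (m + 1)) := (by positivity : 0 ≤ α * u ^ (m + 1)).trans h6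
        nlinarith)
    have h4 : ∀ v : ℝ, e (α * v ^ (m + 2)) = cexp (((fun v : ℝ => 2 * Real.pi * (α * v ^ (m + 2))) v : ℝ) * I) := fun v => rfl
    simp_rw [h4]
    refine h3.trans (le_of_eq ?_)
    have h5 : α * u ^ (m + 1) * u = 1 := by rw [← hu1]; ring
    field_simp
    linarith
  have := norm_add_le (∫ v in (0 : ℝ)..u, e (α * v ^ (m + 2))) (∫ v in u..(3 : ℝ) ^ J, e (α * v ^ (m + 2)))
  linarith

/-- the decay of the main term -/
lemma MF_pow {m J n : ℕ} (hn : 2 * (m + 2) ≤ n) {α : ℝ} (hα : α ≠ 0) :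
    ‖MF (m + 2) J α‖ ^ n ≤ 2 * 4 ^ (m + 2) * ((3 : ℝ) ^ J) ^ n * (1 + (|α| * ((3 : ℝ) ^ J) ^ (m + 2)) ^ 2)⁻¹ := by
  set X : ℝ := (3 : ℝ) ^ J with hX
  have hX1 : 1 ≤ X := one_le_pow₀ (by norm_num)
  have hX0 : 0 < X := by linarith
  have hα0 : 0 < |α| := abs_pos.2 hα
  have hab : ‖MF (m + 2) J α‖ = ‖MF (m + 2) J |α|‖ := by
    rcases abs_choice α with h | h
    · rw [h]
    · rw [h, MF_neg]
  have h0 : ‖MF (m + 2) J α‖ ^ n ≤ X ^ n := pow_le_pow_left₀ (norm_nonneg _) (MF_le' _ _ _) _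
  set b := |α| * X ^ (m + 2) with hb
  have hb0 : 0 < b := by positivity
  have hpos : 0 < 1 + b ^ 2 := by positivity
  rw [← div_eq_mul_inv, le_div_iff₀ hpos]
  rcases le_or_gt b 1 with h | h
  · have h1 : 1 + b ^ 2 ≤ 2 := by nlinarith
    have h2 : (1 : ℝ) ≤ 4 ^ (m + 2) := one_le_pow₀ (by norm_num)
    calc ‖MF (m + 2) J α‖ ^ n * (1 + b ^ 2) ≤ X ^ n * 2 := mul_le_mul h0 h1 (by positivity) (by positivity)
      _ ≤ 2 * 4 ^ (m + 2) * X ^ n := by nlinarith [(by positivity : 0 ≤ X ^ n)]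
  · -- the point `u`
    set u : ℝ := |α| ^ (-(1 / ((m + 2 : ℕ) : ℝ))) with hu
    have hu0 : 0 < u := Real.rpow_pos_of_pos hα0 _
    have hu1 : |α| * u ^ (m + 2) = 1 := by
      rw [hu, ← Real.rpow_natCast, ← Real.rpow_mul hα0.le]
      have : -(1 / ((m + 2 : ℕ) : ℝ)) * ((m + 2 : ℕ) : ℝ) = -1 := by
        have : ((m + 2 : ℕ) : ℝ) ≠ 0 := by positivity
        field_simp
      rw [this, Real.rpow_neg_one, mul_inv_cancel₀ hα0.ne']
    have huX : u ≤ X := by
      by_contra h1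
      push Not at h1
      have h2 : X ^ (m + 2) ≤ u ^ (m + 2) := pow_le_pow_left₀ hX0.le h1.le _
      have h3 : b ≤ |α| * u ^ (m + 2) := mul_le_mul_of_nonneg_left h2 hα0.le
      linarith
    have hM := MF_pos (J := J) hα0 hu0 hu1 huX
    rw [← hab] at hM
    obtain ⟨l, rfl⟩ := Nat.exists_eq_add_of_le hn
    have hMX : ‖MF (m + 2) J α‖ ≤ X := MF_le' _ _ _
    have h1 : ‖MF (m + 2) J α‖ ^ (2 * (m + 2) + l) ≤ (2 * u) ^ (2 * (m + 2)) * X ^ l := by
      rw [pow_add]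
      exact mul_le_mul (pow_le_pow_left₀ (norm_nonneg _) hM _) (pow_le_pow_left₀ (norm_nonneg _) hMX _)
        (by positivity) (by positivity)
    have h2 : (2 * u) ^ (2 * (m + 2)) * b ^ 2 = 4 ^ (m + 2) * X ^ (2 * (m + 2)) := by
      have e0 : (2 * u) ^ (2 * (m + 2)) = 4 ^ (m + 2) * (u ^ (m + 2)) ^ 2 := by
        rw [mul_pow, pow_mul 2 2, ← pow_mul u, mul_comm 2 (m + 2)]
        norm_num
      have e1 : (2 * u) ^ (2 * (m + 2)) * b ^ 2 = 4 ^ (m + 2) * (|α| * u ^ (m + 2)) ^ 2 * X ^ (2 * (m + 2)) := by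
        rw [e0, hb]; ring
      rw [e1, hu1]
      norm_num
    have h3 : 1 + b ^ 2 ≤ 2 * b ^ 2 := by nlinarith
    calc ‖MF (m + 2) J α‖ ^ (2 * (m + 2) + l) * (1 + b ^ 2) ≤ ((2 * u) ^ (2 * (m + 2)) * X ^ l) * (2 * b ^ 2) :=
          mul_le_mul h1 h3 (by positivity) (by positivity)
      _ = 2 * ((2 * u) ^ (2 * (m + 2)) * b ^ 2) * X ^ l := by ring
      _ = 2 * (4 ^ (m + 2) * X ^ (2 * (m + 2))) * X ^ l := by rw [h2]
      _ = 2 * 4 ^ (m + 2) * X ^ (2 * (m + 2) + l) := by rw [pow_add]; ring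

end Pool.Agent.K7.H74.WS
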