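import Mathlib
import Pool.Agent.K7.H74.WS.Full

set_option autoImplicit false

/-! Waring's problem with shifts: the expected error. -/

namespace Pool.Agent.K7.H74.WS
open Finset MeasureTheory Complex

lemma LJ_ge (m J : ℕ) : 2 ≤ LJ m J := by
  unfold LJ
  have := CK_pos m
  have : 0 ≤ (J : ℝ) * ((CK m + 2) * (2 * J + 2)) := by positivity
  linarith

lemma DF_zero (m J : ℕ) : DF (m + 2) J 0 ≤ 2 := by
  refine (DF_le_sum _ _ _).trans ?_
  have h1 : ∑ i ∈ range J, DB (m + 2) (3 ^ i) 0 ≤ ∑ _i ∈ range J, (0 : ℝ) := by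
    apply sum_le_sum
    intro i _
    refine (DB_triv (Nat.one_le_pow _ _ (by norm_num)) 0).trans (le_of_eq ?_)
    rw [abs_zero, zero_mul, mul_zero]
  rw [sum_const_zero] at h1
  linarith

lemma DF_all' {m J : ℕ} (α : ℝ) {q : ℝ} (hq : 1 ≤ q) (hJ : (3 : ℝ) ^ J = q ^ 4) :
    DF (m + 2) J α ≤ LJ m J * q ^ 3 := by
  rcases eq_or_ne α 0 with h | h
  · rw [h]
    refine (DF_zero m J).trans ?_
    have h1 := LJ_ge m J
    have h2 := one_le_pow₀ hq (n := 3)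
    nlinarith
  · exact DF_all h hq hJ

lemma MF_pow' {m J n : ℕ} (hn : 2 * (m + 2) ≤ n) (α : ℝ) :
    ‖MF (m + 2) J α‖ ^ n ≤ 2 * 4 ^ (m + 2) * ((3 : ℝ) ^ J) ^ n * (1 + (|α| * ((3 : ℝ) ^ J) ^ (m + 2)) ^ 2)⁻¹ := by
  rcases eq_or_ne α 0 with h | h
  · rw [h, abs_zero, zero_mul]
    have h0 : ‖MF (m + 2) J 0‖ ^ n ≤ ((3 : ℝ) ^ J) ^ n := pow_le_pow_left₀ (norm_nonneg _) (MF_le' _ _ _) _
    have h2 : (1 : ℝ) ≤ 4 ^ (m + 2) := one_le_pow₀ (by norm_num)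
    have h3 : 0 ≤ ((3 : ℝ) ^ J) ^ n := by positivity
    norm_num
    nlinarith
  · exact MF_pow hn h

/-- the deviation of the product -/
noncomputable def dl (k J s : ℕ) (α : ℝ) (ξ : Fin s → ℝ) : ℝ := ‖∏ i, SF k J α (ξ i) - MF k J α ^ s‖

lemma dl_nonneg (k J s : ℕ) (α : ℝ) (ξ : Fin s → ℝ) : 0 ≤ dl k J s α ξ := norm_nonneg _

lemma dl_cont (k J s : ℕ) {T : Type} [TopologicalSpace T] {f : T → ℝ} {g : T → Fin s → ℝ} (hf : Continuous f)
    (hg : Continuous g) : Continuous fun t => dl k J s (f t) (g t) := by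
  unfold dl
  refine ((continuous_finsetProd _ fun i _ => ?_).sub (((MF_cont k J).comp hf).pow s)).norm
  exact (SF_cont k J).comp (hf.prodMk ((continuous_apply i).comp hg))

lemma dl_le (k J s : ℕ) (α : ℝ) (ξ : Fin s → ℝ) : dl k J s α ξ ≤ 2 * ((3 : ℝ) ^ J) ^ s := by
  unfold dl
  refine (norm_sub_le _ _).trans ?_
  rw [norm_prod, norm_pow]
  have h1 : ∏ i : Fin s, ‖SF k J α (ξ i)‖ ≤ ∏ _i : Fin s, (3 : ℝ) ^ J :=
    prod_le_prod (fun i _ => norm_nonneg _) fun i _ => SF_le _ _ _ _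
  rw [prod_const, card_univ, Fintype.card_fin] at h1
  have h2 : ‖MF k J α‖ ^ s ≤ ((3 : ℝ) ^ J) ^ s := pow_le_pow_left₀ (norm_nonneg _) (MF_le' _ _ _) _
  linarith

/-- the total error -/
noncomputable def Err (k J s : ℕ) (η : ℝ) (ξ : Fin s → ℝ) : ℝ := ∫ β : ℝ, W β * dl k J s (β / η) ξ

lemma Err_nonneg (k J s : ℕ) (η : ℝ) (ξ : Fin s → ℝ) : 0 ≤ Err k J s η ξ :=
  integral_nonneg fun β => mul_nonneg (W_nonneg _) (dl_nonneg _ _ _ _ _)

lemma Wdl_int2 (k J s : ℕ) (η : ℝ) :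
    Integrable (fun p : (Fin s → ℝ) × ℝ => W p.2 * dl k J s (p.2 / η) p.1) ((cube s).prod volume) := by
  have h1 : Integrable (fun p : (Fin s → ℝ) × ℝ => (2 * ((3 : ℝ) ^ J) ^ s) * W p.2) ((cube s).prod volume) :=
    (integrable_const (2 * ((3 : ℝ) ^ J) ^ s)).mul_prod W_int
  refine h1.mono' (f := fun p : (Fin s → ℝ) × ℝ => W p.2 * dl k J s (p.2 / η) p.1) ?_ ?_
  · have hW : Continuous fun p : (Fin s → ℝ) × ℝ => W p.2 := W_cont.comp continuous_snd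
    have h4 : Continuous fun p : (Fin s → ℝ) × ℝ => dl k J s (p.2 / η) p.1 :=
      dl_cont k J s (continuous_snd.div_const η) continuous_fst
    exact (hW.mul h4).aestronglyMeasurable
  · refine Filter.Eventually.of_forall fun p => ?_
    rw [Real.norm_of_nonneg (mul_nonneg (W_nonneg _) (dl_nonneg _ _ _ _ _)), mul_comm]
    exact mul_le_mul_of_nonneg_right (dl_le _ _ _ _ _) (W_nonneg _)

lemma Err_meas (k J s : ℕ) (η : ℝ) : Integrable (Err k J s η) (cube s) := (Wdl_int2 k J s η).integral_prod_left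

/-- the expected error at one frequency -/
lemma dl_mean {m J r : ℕ} (hr : 2 * (m + 2) ≤ r) {q : ℝ} (hq : 1 ≤ q) (hJ : (3 : ℝ) ^ J = q ^ 4) {η : ℝ} (hη : 0 < η) (β : ℝ) :
    W β * ∫ ξ, dl (m + 2) J (r + 1) (β / η) ξ ∂(cube (r + 1)) ≤
      (r + 1) * 2 ^ r * ((LJ m J * q ^ 3) ^ (r + 1) * (Set.Icc (-(η / q ^ (2 * (m + 2)))) (η / q ^ (2 * (m + 2)))).indicator (fun _ => (1 : ℝ)) β
      + (LJ m J * q ^ 2) ^ (r + 1) * W β
      + (LJ m J * q ^ 3) * (2 * 4 ^ (m + 2) * ((3 : ℝ) ^ J) ^ r) * (1 + (β / (η / ((3 : ℝ) ^ J) ^ (m + 2))) ^ 2)⁻¹) := by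
  set α := β / η with hα
  set D := DF (m + 2) J α with hD
  set N := ‖MF (m + 2) J α‖ with hN
  have hD0 : 0 ≤ D := DF_nonneg _ _ _
  have hN0 : 0 ≤ N := norm_nonneg _
  have hq0 : 0 < q := by linarith
  have hL := LJ_ge m J
  have hW0 := W_nonneg β
  have hW1 := W_le β
  have h1 : ∫ ξ, dl (m + 2) J (r + 1) α ξ ∂(cube (r + 1)) ≤ (r + 1) * 2 ^ r * (D ^ (r + 1) + D * N ^ r) := by
    have h2 := prod_dev (r + 1) (SF_cont2 (m + 2) J α) (SF_le (m + 2) J α) (MF (m + 2) J α)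
    refine h2.trans ((pow_diff hD0 hN0 r).trans ?_)
    have h3 : (D + N) ^ r ≤ 2 ^ r * (D ^ r + N ^ r) := by
      refine (add_pow_le hD0 hN0 r).trans ?_
      apply mul_le_mul_of_nonneg_right _ (by positivity)
      exact pow_le_pow_right₀ (by norm_num) (Nat.sub_le _ _)
    calc ((r : ℝ) + 1) * (D * (D + N) ^ r) ≤ (r + 1) * (D * (2 ^ r * (D ^ r + N ^ r))) := by gcongr
      _ = _ := by ring
  have h4 : D ^ (r + 1) * W β ≤ (LJ m J * q ^ 3) ^ (r + 1) *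
      (Set.Icc (-(η / q ^ (2 * (m + 2)))) (η / q ^ (2 * (m + 2)))).indicator (fun _ => (1 : ℝ)) β +
      (LJ m J * q ^ 2) ^ (r + 1) * W β := by
    by_cases hβ : β ∈ Set.Icc (-(η / q ^ (2 * (m + 2)))) (η / q ^ (2 * (m + 2)))
    · rw [Set.indicator_of_mem hβ, mul_one]
      have h5 : D ^ (r + 1) ≤ (LJ m J * q ^ 3) ^ (r + 1) := pow_le_pow_left₀ hD0 (DF_all' α hq hJ) _
      have h6 : D ^ (r + 1) * W β ≤ D ^ (r + 1) * 1 := mul_le_mul_of_nonneg_left hW1 (by positivity)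
      have h7 : 0 ≤ (LJ m J * q ^ 2) ^ (r + 1) * W β := by positivity
      linarith
    · rw [Set.indicator_of_notMem hβ, mul_zero, zero_add]
      apply mul_le_mul_of_nonneg_right _ hW0
      apply pow_le_pow_left₀ hD0
      have h5 : η / q ^ (2 * (m + 2)) < |β| := by
        by_contra h6
        push Not at h6
        exact hβ ⟨(abs_le.1 h6).1, (abs_le.1 h6).2⟩
      have h7 : β ≠ 0 := by
        intro h8
        rw [h8, abs_zero] at h5
        have : 0 < η / q ^ (2 * (m + 2)) := by positivity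
        linarith
      apply DF_large _ hq hJ
      · rw [hα, abs_div, abs_of_pos hη]
        rw [div_lt_iff₀ (by positivity)] at h5
        rw [div_mul_eq_mul_div, le_div_iff₀ hη]
        linarith
      · rw [hα]
        exact div_ne_zero h7 hη.ne'
  have h5 : D * N ^ r * W β ≤ (LJ m J * q ^ 3) * (2 * 4 ^ (m + 2) * ((3 : ℝ) ^ J) ^ r) *
      (1 + (β / (η / ((3 : ℝ) ^ J) ^ (m + 2))) ^ 2)⁻¹ := by
    have h6 := MF_pow' (J := J) hr α
    have h7 : (|α| * ((3 : ℝ) ^ J) ^ (m + 2)) ^ 2 = (β / (η / ((3 : ℝ) ^ J) ^ (m + 2))) ^ 2 := by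
      rw [mul_pow, sq_abs, hα]
      field_simp
    rw [h7] at h6
    have h8 := DF_all' (m := m) α hq hJ
    calc D * N ^ r * W β ≤ D * N ^ r * 1 := mul_le_mul_of_nonneg_left hW1 (by positivity)
      _ = D * N ^ r := mul_one _
      _ ≤ (LJ m J * q ^ 3) * (2 * 4 ^ (m + 2) * ((3 : ℝ) ^ J) ^ r * (1 + (β / (η / ((3 : ℝ) ^ J) ^ (m + 2))) ^ 2)⁻¹) :=
          mul_le_mul h8 h6 (by positivity) (by positivity)
      _ = _ := by ring
  calc W β * ∫ ξ, dl (m + 2) J (r + 1) α ξ ∂(cube (r + 1)) ≤ W β * ((r + 1) * 2 ^ r * (D ^ (r + 1) + D * N ^ r)) :=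
        mul_le_mul_of_nonneg_left h1 hW0
    _ = (r + 1) * 2 ^ r * (D ^ (r + 1) * W β + D * N ^ r * W β) := by ring
    _ ≤ _ := by
        apply mul_le_mul_of_nonneg_left _ (by positivity)
        linarith

theorem Err_mean {m J r : ℕ} (hr : 2 * (m + 2) ≤ r) {q : ℝ} (hq : 1 ≤ q) (hJ : (3 : ℝ) ^ J = q ^ 4) {η : ℝ} (hη : 0 < η) :
    ∫ ξ, Err (m + 2) J (r + 1) η ξ ∂(cube (r + 1)) ≤
      (r + 1) * 2 ^ r * ((LJ m J * q ^ 3) ^ (r + 1) * (2 * (η / q ^ (2 * (m + 2))))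
      + (LJ m J * q ^ 2) ^ (r + 1)
      + (LJ m J * q ^ 3) * (2 * 4 ^ (m + 2) * ((3 : ℝ) ^ J) ^ r) * (η / ((3 : ℝ) ^ J) ^ (m + 2) * Real.pi)) := by
  have hq0 : 0 < q := by linarith
  have h1 : ∫ ξ, Err (m + 2) J (r + 1) η ξ ∂(cube (r + 1)) =
      ∫ β, W β * ∫ ξ, dl (m + 2) J (r + 1) (β / η) ξ ∂(cube (r + 1)) := by
    unfold Err
    rw [integral_integral_swap (f := fun (ξ : Fin (r + 1) → ℝ) (β : ℝ) => W β * dl (m + 2) J (r + 1) (β / η) ξ)
      (Wdl_int2 (m + 2) J (r + 1) η)]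
    simp_rw [integral_const_mul]
  rw [h1]
  set a := η / q ^ (2 * (m + 2)) with ha
  have ha0 : 0 < a := by positivity
  set c := η / ((3 : ℝ) ^ J) ^ (m + 2) with hc
  have hc0 : 0 < c := by positivity
  have hi1 : Integrable (fun β : ℝ => (Set.Icc (-a) a).indicator (fun _ => (1 : ℝ)) β) := by
    rw [integrable_indicator_iff measurableSet_Icc]
    exact integrableOn_const (by rw [Real.volume_Icc]; exact ENNReal.ofReal_ne_top) 
  have hi2 := W_int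
  have hi3 : Integrable (fun β : ℝ => (1 + (β / c) ^ 2)⁻¹) := integrable_inv_one_add_sq.comp_div hc0.ne'
  have hint : Integrable (fun β : ℝ => ((r : ℝ) + 1) * 2 ^ r * ((LJ m J * q ^ 3) ^ (r + 1) * (Set.Icc (-a) a).indicator (fun _ => (1 : ℝ)) β
      + (LJ m J * q ^ 2) ^ (r + 1) * W β
      + (LJ m J * q ^ 3) * (2 * 4 ^ (m + 2) * ((3 : ℝ) ^ J) ^ r) * (1 + (β / c) ^ 2)⁻¹)) :=
    (((hi1.const_mul _).add (hi2.const_mul _)).add (hi3.const_mul _)).const_mul _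
  refine (integral_mono_of_nonneg (Filter.Eventually.of_forall fun β => ?_) hint
    (Filter.Eventually.of_forall fun β => dl_mean hr hq hJ hη β)).trans (le_of_eq ?_)
  · exact mul_nonneg (W_nonneg _) (integral_nonneg fun _ => dl_nonneg _ _ _ _ _)
  · rw [integral_const_mul]
    have e0 : ∫ β : ℝ, ((LJ m J * q ^ 3) ^ (r + 1) * (Set.Icc (-a) a).indicator (fun _ => (1 : ℝ)) β
        + (LJ m J * q ^ 2) ^ (r + 1) * W β
        + (LJ m J * q ^ 3) * (2 * 4 ^ (m + 2) * ((3 : ℝ) ^ J) ^ r) * (1 + (β / c) ^ 2)⁻¹) =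
        (∫ β : ℝ, ((LJ m J * q ^ 3) ^ (r + 1) * (Set.Icc (-a) a).indicator (fun _ => (1 : ℝ)) β
        + (LJ m J * q ^ 2) ^ (r + 1) * W β)) +
        ∫ β : ℝ, (LJ m J * q ^ 3) * (2 * 4 ^ (m + 2) * ((3 : ℝ) ^ J) ^ r) * (1 + (β / c) ^ 2)⁻¹ :=
      integral_add ((hi1.const_mul _).add (hi2.const_mul _)) (hi3.const_mul _)
    rw [e0, integral_add (hi1.const_mul _) (hi2.const_mul _), integral_const_mul, integral_const_mul, integral_const_mul]
    have e1 : ∫ β : ℝ, (Set.Icc (-a) a).indicator (fun _ => (1 : ℝ)) β = 2 * a := by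
      rw [integral_indicator measurableSet_Icc, setIntegral_const, smul_eq_mul, mul_one, measureReal_def, Real.volume_Icc,
        ENNReal.toReal_ofReal (by linarith)]
      ring
    have e3 : ∫ β : ℝ, (1 + (β / c) ^ 2)⁻¹ = c * Real.pi := by
      rw [Measure.integral_comp_div (fun x : ℝ => (1 + x ^ 2)⁻¹) c, integral_univ_inv_one_add_sq, abs_of_pos hc0, smul_eq_mul]
    rw [e1, e3, W_one, mul_one]

end Pool.Agent.K7.H74.WS
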