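import Mathlib
import Pool.Agent.K7.H74.WS.Err

set_option autoImplicit false

/-! Waring's problem with shifts: counting with windows. -/

namespace Pool.Agent.K7.H74.WS
open Finset MeasureTheory Complex
open scoped Pointwise

/-- the box of arguments -/
def box (J s : ℕ) : Finset (Fin s → ℕ) := Fintype.piFinset fun _ : Fin s => range (3 ^ J)

/-- the sum of the shifted powers -/
noncomputable def sp (k : ℕ) {s : ℕ} (ξ : Fin s → ℝ) (x : Fin s → ℕ) : ℝ := ∑ i, ((x i : ℝ) + ξ i) ^ k

/-- the weighted number of solutions -/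
noncomputable def RF (k J s : ℕ) (η t : ℝ) (ξ : Fin s → ℝ) : ℝ := ∑ x ∈ box J s, w ((sp k ξ x - t) / η)

/-- Lebesgue measure on the large box -/
noncomputable def bm (J s : ℕ) : Measure (Fin s → ℝ) := Measure.pi fun _ => volume.restrict (Set.Ioc (0 : ℝ) ((3 ^ J : ℕ) : ℝ))

instance bmFin (J s : ℕ) : IsFiniteMeasure (bm J s) := by unfold bm; infer_instance

/-- the expected number -/
noncomputable def VF (k J s : ℕ) (η t : ℝ) : ℝ := ∫ u, w (((∑ i, u i ^ k) - t) / η) ∂(bm J s)

lemma e_sum {ι : Type} (A : Finset ι) (f : ι → ℝ) : e (∑ i ∈ A, f i) = ∏ i ∈ A, e (f i) := by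
  classical
  induction A using Finset.induction_on with
  | empty => rw [sum_empty, prod_empty, e_zero]
  | insert a A ha ih => rw [sum_insert ha, prod_insert ha, e_add, ih]

lemma We_int (y : ℝ) : Integrable fun β : ℝ => (W β : ℂ) * e (β * y) := by
  refine W_int.mono' ?_ (Filter.Eventually.of_forall fun β => ?_)
  · have h1 : Continuous fun β : ℝ => (W β : ℂ) := continuous_ofReal.comp W_cont
    have h2 : Continuous fun β : ℝ => e (β * y) := e_cont.comp (by fun_prop)
    exact (h1.mul h2).aestronglyMeasurable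
  · rw [norm_mul, norm_e, mul_one, Complex.norm_of_nonneg (W_nonneg _)]

lemma e_split (k : ℕ) {s : ℕ} (η t β : ℝ) (v : Fin s → ℝ) :
    e (β * (((∑ i, v i ^ k) - t) / η)) = (∏ i, e (β / η * v i ^ k)) * e (-(β / η * t)) := by
  rw [← e_sum, ← e_add, ← mul_sum]
  congr 1
  ring

lemma RF_eq (k J s : ℕ) (η t : ℝ) (ξ : Fin s → ℝ) :
    (RF k J s η t ξ : ℂ) = ∫ β : ℝ, (W β : ℂ) * ((∏ i, SF k J (β / η) (ξ i)) * e (-(β / η * t))) := by
  unfold RF
  push_cast
  have h1 : ∀ x ∈ box J s, (w ((sp k ξ x - t) / η) : ℂ) = ∫ β : ℝ, (W β : ℂ) * e (β * ((sp k ξ x - t) / η)) :=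
    fun x _ => w_eq _
  rw [sum_congr rfl h1, ← integral_finsetSum _ fun x _ => We_int _]
  refine integral_congr_ae (Filter.Eventually.of_forall fun β => ?_)
  simp only
  rw [← mul_sum]
  congr 1
  unfold sp
  rw [sum_congr rfl fun (x : Fin s → ℕ) _ => e_split k η t β (fun i => (x i : ℝ) + ξ i), ← sum_mul]
  congr 1
  unfold SF box
  rw [prod_univ_sum]

lemma VF_eq (k J s : ℕ) (η t : ℝ) :
    (VF k J s η t : ℂ) = ∫ β : ℝ, (W β : ℂ) * (MF k J (β / η) ^ s * e (-(β / η * t))) := by
  unfold VF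
  rw [← integral_complex_ofReal]
  have h1 : ∀ u : Fin s → ℝ, (w (((∑ i, u i ^ k) - t) / η) : ℂ) = ∫ β : ℝ, (W β : ℂ) * e (β * (((∑ i, u i ^ k) - t) / η)) :=
    fun u => w_eq _
  simp_rw [h1]
  have hint : Integrable (fun p : (Fin s → ℝ) × ℝ => (W p.2 : ℂ) * e (p.2 * (((∑ i, p.1 i ^ k) - t) / η))) ((bm J s).prod volume) := by
    have h2 : Integrable (fun p : (Fin s → ℝ) × ℝ => (1 : ℝ) * W p.2) ((bm J s).prod volume) :=
      (integrable_const (1 : ℝ)).mul_prod W_int
    refine h2.mono' ?_ (Filter.Eventually.of_forall fun p => ?_)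
    · have hW : Continuous fun p : (Fin s → ℝ) × ℝ => (W p.2 : ℂ) := continuous_ofReal.comp (W_cont.comp continuous_snd)
      have h4 : Continuous fun p : (Fin s → ℝ) × ℝ => e (p.2 * (((∑ i, p.1 i ^ k) - t) / η)) := e_cont.comp (by fun_prop)
      exact (hW.mul h4).aestronglyMeasurable
    · rw [norm_mul, norm_e, mul_one, Complex.norm_of_nonneg (W_nonneg _), one_mul]
  rw [integral_integral_swap (f := fun (u : Fin s → ℝ) (β : ℝ) => (W β : ℂ) * e (β * (((∑ i, u i ^ k) - t) / η))) hint]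
  refine integral_congr_ae (Filter.Eventually.of_forall fun β => ?_)
  simp only
  rw [integral_const_mul]
  congr 1
  simp_rw [e_split]
  rw [integral_mul_const]
  congr 1
  unfold bm
  have h3 := integral_fintype_prod_eq_prod (𝕜 := ℂ) (fun (_ : Fin s) (x : ℝ) => e (β / η * x ^ k))
    (μ := fun _ => volume.restrict (Set.Ioc (0 : ℝ) ((3 ^ J : ℕ) : ℝ)))
  refine h3.trans ?_
  rw [prod_const, card_univ, Fintype.card_fin]
  congr 1
  unfold MF
  rw [intervalIntegral.integral_of_le (Nat.cast_nonneg _)]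

theorem RF_VF (k J s : ℕ) (η t : ℝ) (ξ : Fin s → ℝ) : |RF k J s η t ξ - VF k J s η t| ≤ Err k J s η ξ := by
  have h1 : ((RF k J s η t ξ - VF k J s η t : ℝ) : ℂ) =
      ∫ β : ℝ, (W β : ℂ) * (((∏ i, SF k J (β / η) (ξ i)) - MF k J (β / η) ^ s) * e (-(β / η * t))) := by
    push_cast
    rw [RF_eq, VF_eq]
    rw [← integral_sub]
    · refine integral_congr_ae (Filter.Eventually.of_forall fun β => ?_)
      simp only
      ring
    · refine (W_int.const_mul (((3 : ℝ) ^ J) ^ s)).mono' ?_ (Filter.Eventually.of_forall fun β => ?_)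
      · have h1 : Continuous fun β : ℝ => (W β : ℂ) := continuous_ofReal.comp W_cont
        have h2 : Continuous fun β : ℝ => e (-(β / η * t)) := e_cont.comp (by fun_prop)
        have h3 : Continuous fun β : ℝ => ∏ i, SF k J (β / η) (ξ i) := continuous_finsetProd _ fun i _ =>
          (SF_cont k J).comp ((continuous_id.div_const η).prodMk continuous_const)
        exact (h1.mul (h3.mul h2)).aestronglyMeasurable
      · rw [norm_mul, norm_mul, norm_e, mul_one, Complex.norm_of_nonneg (W_nonneg _), mul_comm]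
        apply mul_le_mul_of_nonneg_right _ (W_nonneg _)
        rw [norm_prod]
        have h1 : ∏ i : Fin s, ‖SF k J (β / η) (ξ i)‖ ≤ ∏ _i : Fin s, (3 : ℝ) ^ J :=
          prod_le_prod (fun i _ => norm_nonneg _) fun i _ => SF_le _ _ _ _
        rwa [prod_const, card_univ, Fintype.card_fin] at h1
    · refine (W_int.const_mul (((3 : ℝ) ^ J) ^ s)).mono' ?_ (Filter.Eventually.of_forall fun β => ?_)
      · have h1 : Continuous fun β : ℝ => (W β : ℂ) := continuous_ofReal.comp W_cont
        have h2 : Continuous fun β : ℝ => e (-(β / η * t)) := e_cont.comp (by fun_prop)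
        have h3 : Continuous fun β : ℝ => MF k J (β / η) ^ s := ((MF_cont k J).comp (continuous_id.div_const η)).pow s
        exact (h1.mul (h3.mul h2)).aestronglyMeasurable
      · rw [norm_mul, norm_mul, norm_e, mul_one, Complex.norm_of_nonneg (W_nonneg _), mul_comm]
        apply mul_le_mul_of_nonneg_right _ (W_nonneg _)
        rw [norm_pow]
        exact pow_le_pow_left₀ (norm_nonneg _) (MF_le' _ _ _) _
  have h2 : |RF k J s η t ξ - VF k J s η t| = ‖((RF k J s η t ξ - VF k J s η t : ℝ) : ℂ)‖ := by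
    rw [Complex.norm_real, Real.norm_eq_abs]
  rw [h2, h1]
  refine (norm_integral_le_integral_norm _).trans (le_of_eq ?_)
  unfold Err dl
  refine integral_congr_ae (Filter.Eventually.of_forall fun β => ?_)
  simp only
  rw [norm_mul, norm_mul, norm_e, mul_one, Complex.norm_of_nonneg (W_nonneg _)]

/-! ### windows -/

/-- the ramp -/
noncomputable def rp (t : ℝ) : ℝ := max 0 (min 1 t)

lemma rp_nonneg (t : ℝ) : 0 ≤ rp t := le_max_left _ _
lemma rp_le (t : ℝ) : rp t ≤ 1 := max_le zero_le_one (min_le_left _ _)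
lemma rp_one {t : ℝ} (h : 1 ≤ t) : rp t = 1 := by unfold rp; rw [min_eq_left h]; exact max_eq_right zero_le_one
lemma rp_zero {t : ℝ} (h : t ≤ 0) : rp t = 0 := by
  unfold rp; rw [min_eq_right (by linarith)]; exact max_eq_left h
lemma rp_mono {a b : ℝ} (h : a ≤ b) : rp a ≤ rp b := by unfold rp; gcongr

lemma w_rp (y : ℝ) : w y = rp (y + 1) - rp y := by
  unfold w
  rcases le_or_gt y (-1) with h1 | h1
  · rw [rp_zero (by linarith), rp_zero (by linarith), abs_of_nonpos (by linarith), max_eq_left (by linarith)]; ring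
  rcases le_or_gt y 0 with h2 | h2
  · rw [rp_zero h2, abs_of_nonpos h2, rp, min_eq_right (by linarith), max_eq_right (by linarith), max_eq_right (by linarith)]; ring
  rcases le_or_gt y 1 with h3 | h3
  · rw [rp_one (by linarith), abs_of_pos h2, rp, min_eq_right h3, max_eq_right (by linarith), max_eq_right (by linarith)]
  · rw [rp_one (by linarith), rp_one (by linarith), abs_of_pos h2, max_eq_left (by linarith)]; ring

/-- the trapezoid -/
noncomputable def tz (N : ℕ) (y : ℝ) : ℝ := ∑ i ∈ range N, w (y - i)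

lemma tz_eq (N : ℕ) (y : ℝ) : tz N y = rp (y + 1) - rp (y + 1 - N) := by
  unfold tz
  induction N with
  | zero => simp
  | succ N ih =>
    rw [sum_range_succ, ih, w_rp]
    push_cast
    have h1 : y - N + 1 = y + 1 - N := by ring
    have h2 : y + 1 - (N + 1) = y - N := by ring
    rw [h1, h2]
    ring

lemma tz_cont (N : ℕ) : Continuous (tz N) := by
  unfold tz
  exact continuous_finsetSum _ fun i _ => w_cont.comp (by fun_prop)

lemma tz_nonneg (N : ℕ) (y : ℝ) : 0 ≤ tz N y := sum_nonneg fun _ _ => w_nonneg _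

lemma tz_le (N : ℕ) (y : ℝ) : tz N y ≤ 1 := by
  rw [tz_eq]
  have := rp_le (y + 1)
  have := rp_nonneg (y + 1 - N)
  linarith

lemma tz_one {N : ℕ} {y : ℝ} (h1 : 0 ≤ y) (h2 : y ≤ N - 1) : tz N y = 1 := by
  rw [tz_eq, rp_one (by linarith), rp_zero (by linarith), sub_zero]

lemma tz_zero_left {N : ℕ} {y : ℝ} (h1 : y ≤ -1) : tz N y = 0 := by
  rw [tz_eq, rp_zero (by linarith), rp_zero (by have : (0 : ℝ) ≤ N := Nat.cast_nonneg _; linarith), sub_zero]

lemma tz_zero_right {N : ℕ} {y : ℝ} (h1 : (N : ℝ) ≤ y) : tz N y = 0 := by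
  rw [tz_eq, rp_one (by have : (0 : ℝ) ≤ N := Nat.cast_nonneg _; linarith), rp_one (by linarith), sub_self]

lemma tz_window (N : ℕ) {η : ℝ} (hη : 0 < η) (v t : ℝ) :
    ∑ i ∈ range N, w ((v - (t + i * η)) / η) = tz N ((v - t) / η) := by
  unfold tz
  apply sum_congr rfl
  intro i _
  congr 1
  field_simp
  ring

theorem windows (k J s : ℕ) {η : ℝ} (hη : 0 < η) (t : ℝ) (N : ℕ) (ξ : Fin s → ℝ) :
    |∑ x ∈ box J s, tz N ((sp k ξ x - t) / η) - ∫ u, tz N (((∑ i, u i ^ k) - t) / η) ∂(bm J s)| ≤ N * Err k J s η ξ := by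
  have h1 : ∑ x ∈ box J s, tz N ((sp k ξ x - t) / η) = ∑ i ∈ range N, RF k J s η (t + i * η) ξ := by
    unfold RF
    rw [sum_comm]
    exact sum_congr rfl fun x _ => (tz_window N hη _ _).symm
  have h2 : ∫ u, tz N (((∑ i, u i ^ k) - t) / η) ∂(bm J s) = ∑ i ∈ range N, VF k J s η (t + i * η) := by
    unfold VF
    rw [← integral_finsetSum]
    · refine integral_congr_ae (Filter.Eventually.of_forall fun u => ?_)
      exact (tz_window N hη _ _).symm
    · intro i _
      refine Integrable.of_bound (C := 1) ?_ (Filter.Eventually.of_forall fun u => ?_)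
      · exact (w_cont.comp (by fun_prop)).aestronglyMeasurable
      · rw [Real.norm_of_nonneg (w_nonneg _)]
        exact w_le _
  rw [h1, h2, ← sum_sub_distrib]
  refine (abs_sum_le_sum_abs _ _).trans ?_
  refine (sum_le_sum (s := range N) fun (i : ℕ) _ => RF_VF k J s η (t + (i : ℝ) * η) ξ).trans (le_of_eq ?_)
  rw [sum_const, card_range, nsmul_eq_mul]

/-! ### the volume -/

/-- the positive part of the body `∑ u_i ^ k < 1` -/
def A1 (k s : ℕ) : Set (Fin s → ℝ) := {u | (∀ i, 0 < u i) ∧ ∑ i, u i ^ k < 1}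

/-- its volume -/
noncomputable def Vs (k s : ℕ) : ℝ := (volume (A1 k s)).toReal

lemma bm_eq (J s : ℕ) : bm J s = volume.restrict (Set.univ.pi fun _ : Fin s => Set.Ioc (0 : ℝ) ((3 ^ J : ℕ) : ℝ)) := by
  unfold bm
  rw [volume_pi, Measure.restrict_pi_pi]

lemma GF_eq {k J s : ℕ} (hk : 1 ≤ k) {c : ℝ} (hc : 0 < c) (hcX : c ≤ ((3 : ℝ) ^ J) ^ k) :
    (bm J s).real {u | ∑ i, u i ^ k < c} = Vs k s * c ^ ((s : ℝ) / k) := by
  have hk0 : (k : ℝ) ≠ 0 := by positivity
  set r : ℝ := c ^ (1 / (k : ℝ)) with hr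
  have hr0 : 0 < r := Real.rpow_pos_of_pos hc _
  have hrk : r ^ k = c := by
    rw [hr, ← Real.rpow_natCast, ← Real.rpow_mul hc.le, one_div_mul_cancel hk0, Real.rpow_one]
  have hrs : r ^ s = c ^ ((s : ℝ) / k) := by
    rw [hr, ← Real.rpow_natCast, ← Real.rpow_mul hc.le]
    congr 1
    ring
  have hm : MeasurableSet {u : Fin s → ℝ | ∑ i, u i ^ k < c} :=
    measurableSet_lt (by fun_prop) measurable_const
  have h1 : {u : Fin s → ℝ | ∑ i, u i ^ k < c} ∩ (Set.univ.pi fun _ : Fin s => Set.Ioc (0 : ℝ) ((3 ^ J : ℕ) : ℝ)) =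
      r • A1 k s := by
    ext u
    rw [Set.mem_smul_set_iff_inv_smul_mem₀ hr0.ne']
    simp only [Set.mem_inter_iff, Set.mem_ofPred_eq, Set.mem_pi, Set.mem_univ, true_implies, A1, Set.mem_Ioc, Pi.smul_apply, smul_eq_mul,
      mul_pow, ← mul_sum]
    have h2 : (r⁻¹ ^ k * ∑ i, u i ^ k < 1) ↔ ∑ i, u i ^ k < c := by
      rw [inv_pow, hrk, inv_mul_lt_iff₀ hc, mul_one]
    have h3 : (∀ i, 0 < r⁻¹ * u i) ↔ ∀ i, 0 < u i :=
      forall_congr' fun i => ⟨fun h => (mul_pos_iff_of_pos_left (inv_pos.2 hr0)).1 h, fun h => mul_pos (inv_pos.2 hr0) h⟩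
    rw [h2, h3]
    constructor
    · rintro ⟨a, b⟩
      exact ⟨fun i => (b i).1, a⟩
    · rintro ⟨a, b⟩
      refine ⟨b, fun i => ⟨a i, ?_⟩⟩
      by_contra h4
      push Not at h4
      have h5 : u i ^ k ≤ ∑ i, u i ^ k := single_le_sum (f := fun i => u i ^ k) (fun j _ => pow_nonneg (a j).le _) (mem_univ i)
      have h6 : ((3 : ℝ) ^ J) ^ k ≤ u i ^ k := by
        apply pow_le_pow_left₀ (by positivity)
        push_cast at h4
        exact h4.le
      linarith
  rw [measureReal_def, bm_eq, Measure.restrict_apply hm, h1, Measure.addHaar_smul, Module.finrank_fin_fun,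
    ENNReal.toReal_mul, ENNReal.toReal_ofReal (abs_nonneg _), abs_of_pos (by positivity), hrs, mul_comm]
  rfl

open Classical in
theorem count_lower {k J s : ℕ} (hk : 1 ≤ k) {η t : ℝ} (hη : 0 < η) (ht : 0 < t) {N : ℕ} (hN : 1 ≤ N)
    (hX : t + (N - 1) * η ≤ ((3 : ℝ) ^ J) ^ k) (ξ : Fin s → ℝ) :
    Vs k s * ((t + (N - 1) * η) ^ ((s : ℝ) / k) - t ^ ((s : ℝ) / k)) - N * Err k J s η ξ ≤
      (((box J s).filter fun x => t - η < sp k ξ x ∧ sp k ξ x < t + N * η).card : ℝ) := by
  have hN1 : (1 : ℝ) ≤ N := by exact_mod_cast hN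
  have hb : t ≤ t + (N - 1) * η := by nlinarith
  have h1 := windows k J s hη t N ξ
  have h2 : ∑ x ∈ box J s, tz N ((sp k ξ x - t) / η) ≤
      (((box J s).filter fun x => t - η < sp k ξ x ∧ sp k ξ x < t + N * η).card : ℝ) := by
    rw [card_filter]
    push_cast
    apply sum_le_sum
    intro x _
    split_ifs with h
    · exact_mod_cast tz_le _ _
    · apply le_of_eq
      by_cases h3 : t - η < sp k ξ x
      · have h4 : t + N * η ≤ sp k ξ x := by
          by_contra h5
          push Not at h5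
          exact h ⟨h3, h5⟩
        rw [tz_zero_right]
        rw [le_div_iff₀ hη]; linarith
      · push Not at h3
        rw [tz_zero_left]
        rw [div_le_iff₀ hη]; linarith
  set A : Set (Fin s → ℝ) := {u | ∑ i, u i ^ k < t + (N - 1) * η} with hA
  set B : Set (Fin s → ℝ) := {u | ∑ i, u i ^ k < t} with hB
  have hAm : MeasurableSet A := measurableSet_lt (by fun_prop) measurable_const
  have hBm : MeasurableSet B := measurableSet_lt (by fun_prop) measurable_const
  have hBA : B ⊆ A := fun u hu => lt_of_lt_of_le hu hb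
  have hi : Integrable (fun u : Fin s → ℝ => tz N (((∑ i, u i ^ k) - t) / η)) (bm J s) := by
    refine Integrable.of_bound (C := 1) ?_ (Filter.Eventually.of_forall fun u => ?_)
    · exact ((tz_cont N).comp (by fun_prop)).aestronglyMeasurable
    · rw [Real.norm_of_nonneg (tz_nonneg _ _)]
      exact tz_le _ _
  have h3 : (bm J s).real (A \ B) ≤ ∫ u, tz N (((∑ i, u i ^ k) - t) / η) ∂(bm J s) := by
    rw [← integral_indicator_one (hAm.diff hBm)]
    apply integral_mono ((integrable_const (1 : ℝ)).indicator (hAm.diff hBm)) hi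
    intro u
    by_cases hu : u ∈ A \ B
    · rw [Set.indicator_of_mem hu]
      have h4 : ∑ i, u i ^ k < t + (N - 1) * η := hu.1
      have h5 : t ≤ ∑ i, u i ^ k := not_lt.1 hu.2
      simp only
      rw [tz_one]
      · apply div_nonneg _ hη.le
        linarith
      · rw [div_le_iff₀ hη]
        linarith
    · rw [Set.indicator_of_notMem hu]
      exact tz_nonneg _ _
  have h4 : (bm J s).real (A \ B) = Vs k s * ((t + (N - 1) * η) ^ ((s : ℝ) / k) - t ^ ((s : ℝ) / k)) := by
    rw [measureReal_sdiff hBA hBm, GF_eq hk (by linarith) hX, GF_eq hk ht (hb.trans hX)]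
    ring
  have h5 := abs_le.1 h1
  rw [← h4]
  linarith [h5.1]

open Classical in
theorem count_upper {k J s : ℕ} (hk : 1 ≤ k) {η t : ℝ} (hη : 0 < η) (ht : 0 < t - η) {N : ℕ}
    (hX : t + N * η ≤ ((3 : ℝ) ^ J) ^ k) (ξ : Fin s → ℝ) :
    (((box J s).filter fun x => t ≤ sp k ξ x ∧ sp k ξ x ≤ t + (N - 1) * η).card : ℝ) ≤
    Vs k s * ((t + N * η) ^ ((s : ℝ) / k) - (t - η) ^ ((s : ℝ) / k)) + N * Err k J s η ξ := by
  have hN0 : (0 : ℝ) ≤ N := Nat.cast_nonneg _
  have hb : t - η ≤ t + N * η := by nlinarith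
  have h1 := windows k J s hη t N ξ
  have h2 : (((box J s).filter fun x => t ≤ sp k ξ x ∧ sp k ξ x ≤ t + (N - 1) * η).card : ℝ) ≤
      ∑ x ∈ box J s, tz N ((sp k ξ x - t) / η) := by
    rw [card_filter]
    push_cast
    apply sum_le_sum
    intro x _
    split_ifs with h
    · rw [tz_one]
      · apply div_nonneg _ hη.le
        linarith [h.1]
      · rw [div_le_iff₀ hη]
        linarith [h.2]
    · exact_mod_cast tz_nonneg _ _
  set A : Set (Fin s → ℝ) := {u | ∑ i, u i ^ k < t + N * η} with hA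
  set B : Set (Fin s → ℝ) := {u | ∑ i, u i ^ k < t - η} with hB
  have hAm : MeasurableSet A := measurableSet_lt (by fun_prop) measurable_const
  have hBm : MeasurableSet B := measurableSet_lt (by fun_prop) measurable_const
  have hBA : B ⊆ A := fun u hu => lt_of_lt_of_le hu hb
  have hi : Integrable (fun u : Fin s → ℝ => tz N (((∑ i, u i ^ k) - t) / η)) (bm J s) := by
    refine Integrable.of_bound (C := 1) ?_ (Filter.Eventually.of_forall fun u => ?_)
    · exact ((tz_cont N).comp (by fun_prop)).aestronglyMeasurable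
    · rw [Real.norm_of_nonneg (tz_nonneg _ _)]
      exact tz_le _ _
  have h3 : ∫ u, tz N (((∑ i, u i ^ k) - t) / η) ∂(bm J s) ≤ (bm J s).real (A \ B) := by
    rw [← integral_indicator_one (hAm.diff hBm)]
    apply integral_mono hi ((integrable_const (1 : ℝ)).indicator (hAm.diff hBm))
    intro u
    by_cases hu : u ∈ A \ B
    · rw [Set.indicator_of_mem hu]
      exact tz_le _ _
    · rw [Set.indicator_of_notMem hu]
      apply le_of_eq
      by_cases h3 : u ∈ A
      · have h6 : u ∈ B := by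
          by_contra h7
          exact hu ⟨h3, h7⟩
        have h7 : ∑ i, u i ^ k < t - η := h6
        exact tz_zero_left (by rw [div_le_iff₀ hη]; linarith)
      · have h7 : t + N * η ≤ ∑ i, u i ^ k := not_lt.1 h3
        exact tz_zero_right (by rw [le_div_iff₀ hη]; linarith)
  have h4 : (bm J s).real (A \ B) = Vs k s * ((t + N * η) ^ ((s : ℝ) / k) - (t - η) ^ ((s : ℝ) / k)) := by
    rw [measureReal_sdiff hBA hBm, GF_eq hk (by linarith) hX, GF_eq hk ht (hb.trans hX)]
    ring
  have h5 := abs_le.1 h1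
  rw [← h4]
  linarith [h5.2]

end Pool.Agent.K7.H74.WS
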