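import Mathlib
import Pool.Agent.K7.H74.WS.Cnt

set_option autoImplicit false

/-! Waring's problem with shifts: the error for almost all shifts. -/

namespace Pool.Agent.K7.H74.WS
open Finset MeasureTheory Complex Filter

/-- the constant -/
noncomputable def CE (m r : ℕ) : ℝ := (r + 1) * 2 ^ r * (3 + 2 * 4 ^ (m + 2) * Real.pi)

lemma CE_pos (m r : ℕ) : 0 < CE m r := by unfold CE; have := Real.pi_pos; positivity

/-- the exponent -/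
noncomputable def dlt (m r : ℕ) (θ : ℝ) : ℝ := min (1 / 4) (((r : ℝ) + 1) / 2 - ((m : ℝ) + 2) - θ)

theorem Err_ratio {m r : ℕ} (hr : 2 * (m + 2) ≤ r) (θ : ℝ) (J : ℕ) :
    ∫ ξ, Err (m + 2) J (r + 1) (((3 : ℝ) ^ J) ^ (-θ)) ξ ∂(cube (r + 1)) ≤
      CE m r * LJ m J ^ (r + 1) * ((3 : ℝ) ^ J) ^ (-dlt m r θ) * (((3 : ℝ) ^ J) ^ (-θ) * ((3 : ℝ) ^ J) ^ ((r : ℝ) + 1 - (m + 2))) := by
  set X : ℝ := (3 : ℝ) ^ J with hX
  have hX1 : 1 ≤ X := one_le_pow₀ (by norm_num)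
  have hX0 : 0 < X := by linarith
  set q : ℝ := X ^ (1 / 4 : ℝ) with hq
  have hq1 : 1 ≤ q := Real.one_le_rpow hX1 (by norm_num)
  have hqn : ∀ n : ℕ, q ^ n = X ^ ((n : ℝ) / 4) := by
    intro n
    rw [hq, ← Real.rpow_natCast, ← Real.rpow_mul hX0.le]
    congr 1
    ring
  have hJ : X = q ^ 4 := by
    rw [hqn]; norm_num
  have hη : 0 < X ^ (-θ) := Real.rpow_pos_of_pos hX0 _
  have h1 := Err_mean hr hq1 hJ hη
  have hL := LJ_ge m J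
  have hpi := Real.pi_pos
  set L := LJ m J with hLd
  have hL1 : 1 ≤ L ^ (r + 1) := one_le_pow₀ (by linarith)
  set δ := dlt m r θ with hδ
  have hδ1 : δ ≤ 1 / 4 := min_le_left _ _
  have hδ2 : δ ≤ ((r : ℝ) + 1) / 2 - ((m : ℝ) + 2) - θ := min_le_right _ _
  have hr' : 2 * ((m : ℝ) + 2) ≤ r := by exact_mod_cast hr
  set T : ℝ := X ^ (-δ) * (X ^ (-θ) * X ^ ((r : ℝ) + 1 - (m + 2))) with hT
  have hT0 : 0 < T := by positivity
  have hTe : T = X ^ (-δ - θ + ((r : ℝ) + 1 - (m + 2))) := by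
    rw [hT, ← Real.rpow_add hX0, ← Real.rpow_add hX0]
    congr 1
    ring
  have hmono : ∀ {a : ℝ}, a ≤ -δ - θ + ((r : ℝ) + 1 - (m + 2)) → X ^ a ≤ T := by
    intro a ha
    rw [hTe]
    exact Real.rpow_le_rpow_of_exponent_le hX1 ha
  have t1 : (L * q ^ 3) ^ (r + 1) * (2 * (X ^ (-θ) / q ^ (2 * (m + 2)))) ≤ 2 * L ^ (r + 1) * T := by
    have e1 : (L * q ^ 3) ^ (r + 1) * (2 * (X ^ (-θ) / q ^ (2 * (m + 2)))) =
        2 * L ^ (r + 1) * (q ^ (3 * (r + 1)) * (X ^ (-θ) / q ^ (2 * (m + 2)))) := by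
      rw [mul_pow, ← pow_mul]; ring
    rw [e1]
    apply mul_le_mul_of_nonneg_left _ (by positivity)
    rw [hqn, hqn, ← Real.rpow_sub hX0, ← Real.rpow_add hX0]
    apply hmono
    push_cast
    linarith
  have t2 : (L * q ^ 2) ^ (r + 1) ≤ L ^ (r + 1) * T := by
    rw [mul_pow, ← pow_mul]
    apply mul_le_mul_of_nonneg_left _ (by positivity)
    rw [hqn]
    apply hmono
    push_cast
    linarith
  have t3 : (L * q ^ 3) * (2 * 4 ^ (m + 2) * X ^ r) * (X ^ (-θ) / X ^ (m + 2) * Real.pi) ≤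
      2 * 4 ^ (m + 2) * Real.pi * L ^ (r + 1) * T := by
    have e1 : (L * q ^ 3) * (2 * 4 ^ (m + 2) * X ^ r) * (X ^ (-θ) / X ^ (m + 2) * Real.pi) =
      2 * 4 ^ (m + 2) * Real.pi * L * (q ^ 3 * X ^ r * (X ^ (-θ) / X ^ (m + 2))) := by ring
    rw [e1]
    have e2 : q ^ 3 * X ^ r * (X ^ (-θ) / X ^ (m + 2)) ≤ T := by
      rw [hqn, ← Real.rpow_natCast X r, ← Real.rpow_natCast X (m + 2), ← Real.rpow_sub hX0, ← Real.rpow_add hX0, ← Real.rpow_add hX0]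
      apply hmono
      push_cast
      linarith
    have e3 : L ≤ L ^ (r + 1) := by
      calc L = L ^ 1 := (pow_one L).symm
        _ ≤ L ^ (r + 1) := pow_le_pow_right₀ (by linarith) (by omega)
    calc 2 * 4 ^ (m + 2) * Real.pi * L * (q ^ 3 * X ^ r * (X ^ (-θ) / X ^ (m + 2))) ≤
        2 * 4 ^ (m + 2) * Real.pi * L ^ (r + 1) * T := by gcongr
      _ = _ := rfl
  refine h1.trans ?_
  calc (r + 1) * 2 ^ r * ((L * q ^ 3) ^ (r + 1) * (2 * (X ^ (-θ) / q ^ (2 * (m + 2))))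
      + (L * q ^ 2) ^ (r + 1)
      + (L * q ^ 3) * (2 * 4 ^ (m + 2) * X ^ r) * (X ^ (-θ) / X ^ (m + 2) * Real.pi)) ≤
      (r + 1) * 2 ^ r * (2 * L ^ (r + 1) * T + L ^ (r + 1) * T + 2 * 4 ^ (m + 2) * Real.pi * L ^ (r + 1) * T) := by
        apply mul_le_mul_of_nonneg_left _ (by positivity)
        linarith
    _ = CE m r * L ^ (r + 1) * T := by unfold CE; ring
    _ = _ := by rw [hT]; ring

lemma LJ_le (m J : ℕ) : LJ m J ≤ (2 * CK m + 6) * (J + 1) ^ 2 := by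
  unfold LJ
  have hC := CK_pos m
  have hJ : (0 : ℝ) ≤ J := Nat.cast_nonneg _
  have h1 : (1 : ℝ) ≤ (J + 1) ^ 2 := one_le_pow₀ (by linarith)
  have h2 : (J : ℝ) * ((CK m + 2) * (2 * J + 2)) ≤ (2 * CK m + 4) * (J + 1) ^ 2 := by
    have : (2 * CK m + 4) * ((J : ℝ) + 1) ^ 2 - J * ((CK m + 2) * (2 * J + 2)) = (2 * CK m + 4) * (J + 1) := by ring
    have : 0 ≤ (2 * CK m + 4) * ((J : ℝ) + 1) := by positivity
    linarith
  nlinarith

lemma summ {m r : ℕ} {θ : ℝ} (hd : 0 < dlt m r θ) :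
    Summable fun J : ℕ => ((J : ℝ) + 1) * (CE m r * LJ m J ^ (r + 1) * ((3 : ℝ) ^ J) ^ (-dlt m r θ)) := by
  set ρ : ℝ := (3 : ℝ) ^ (-dlt m r θ) with hρ
  have hρ0 : 0 < ρ := Real.rpow_pos_of_pos (by norm_num) _
  have hρ1 : ρ < 1 := Real.rpow_lt_one_of_one_lt_of_neg (by norm_num) (by linarith)
  have hC := CK_pos m
  have hCE := CE_pos m r
  have h1 : Summable fun J : ℕ => (J : ℝ) ^ (2 * (r + 1) + 1) * ρ ^ J :=
    summable_pow_mul_geometric_of_norm_lt_one _ (by rwa [Real.norm_of_nonneg hρ0.le])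
  have h2 : Summable fun J : ℕ => ((J + 1 : ℕ) : ℝ) ^ (2 * (r + 1) + 1) * ρ ^ (J + 1) := (summable_nat_add_iff 1).2 h1
  have h3 := h2.mul_left (CE m r * (2 * CK m + 6) ^ (r + 1) * ρ⁻¹)
  refine Summable.of_nonneg_of_le (fun J => ?_) (fun J => ?_) h3
  · have := LJ_pos m J
    positivity
  · have e1 : ((3 : ℝ) ^ J) ^ (-dlt m r θ) = ρ ^ J := by
      rw [hρ, ← Real.rpow_natCast, ← Real.rpow_mul (by norm_num), ← Real.rpow_natCast, ← Real.rpow_mul (by norm_num)]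
      congr 1
      ring
    rw [e1]
    have e2 : LJ m J ^ (r + 1) ≤ ((2 * CK m + 6) * ((J : ℝ) + 1) ^ 2) ^ (r + 1) :=
      pow_le_pow_left₀ (LJ_pos m J).le (LJ_le m J) _
    calc ((J : ℝ) + 1) * (CE m r * LJ m J ^ (r + 1) * ρ ^ J) ≤
        ((J : ℝ) + 1) * (CE m r * ((2 * CK m + 6) * ((J : ℝ) + 1) ^ 2) ^ (r + 1) * ρ ^ J) := by gcongr
      _ = CE m r * (2 * CK m + 6) ^ (r + 1) * ρ⁻¹ * (((J + 1 : ℕ) : ℝ) ^ (2 * (r + 1) + 1) * ρ ^ (J + 1)) := by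
          push_cast
          rw [mul_pow, ← pow_mul, pow_succ ρ J, pow_succ ((J : ℝ) + 1) (2 * (r + 1))]
          field_simp

theorem ae_err {m r : ℕ} (hr : 2 * (m + 2) ≤ r) {θ : ℝ} (hd : 0 < dlt m r θ) :
    ∀ᵐ ξ ∂(cube (r + 1)), ∀ᶠ J : ℕ in atTop, Err (m + 2) J (r + 1) (((3 : ℝ) ^ J) ^ (-θ)) ξ <
      (((3 : ℝ) ^ J) ^ (-θ) * ((3 : ℝ) ^ J) ^ ((r : ℝ) + 1 - (m + 2))) / ((J : ℝ) + 1) := by
  set N : ℕ → ℝ := fun J => ((3 : ℝ) ^ J) ^ (-θ) * ((3 : ℝ) ^ J) ^ ((r : ℝ) + 1 - (m + 2)) with hN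
  have hN0 : ∀ J, 0 < N J := fun J => by positivity
  set B : ℕ → Set (Fin (r + 1) → ℝ) := fun J => {ξ | N J / ((J : ℝ) + 1) ≤ Err (m + 2) J (r + 1) (((3 : ℝ) ^ J) ^ (-θ)) ξ} with hB
  have h1 : ∀ J, cube (r + 1) (B J) ≤ ENNReal.ofReal (((J : ℝ) + 1) * (CE m r * LJ m J ^ (r + 1) * ((3 : ℝ) ^ J) ^ (-dlt m r θ))) := by
    intro J
    have hJ : (0 : ℝ) < (J : ℝ) + 1 := by positivity
    have h2 := mul_meas_ge_le_integral_of_nonneg (μ := cube (r + 1))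
      (Eventually.of_forall fun ξ => Err_nonneg (m + 2) J (r + 1) (((3 : ℝ) ^ J) ^ (-θ)) ξ)
      (Err_meas (m + 2) J (r + 1) (((3 : ℝ) ^ J) ^ (-θ))) (N J / ((J : ℝ) + 1))
    have h3 := h2.trans (Err_ratio hr θ J)
    have h4 : (cube (r + 1)).real (B J) ≤ ((J : ℝ) + 1) * (CE m r * LJ m J ^ (r + 1) * ((3 : ℝ) ^ J) ^ (-dlt m r θ)) := by
      have h5 : N J / ((J : ℝ) + 1) * (cube (r + 1)).real (B J) ≤
        CE m r * LJ m J ^ (r + 1) * ((3 : ℝ) ^ J) ^ (-dlt m r θ) * N J := h3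
      rw [div_mul_eq_mul_div, div_le_iff₀ hJ] at h5
      have h6 : N J * (cube (r + 1)).real (B J) ≤ N J * (((J : ℝ) + 1) * (CE m r * LJ m J ^ (r + 1) * ((3 : ℝ) ^ J) ^ (-dlt m r θ))) := by
        calc N J * (cube (r + 1)).real (B J) ≤ CE m r * LJ m J ^ (r + 1) * ((3 : ℝ) ^ J) ^ (-dlt m r θ) * N J * ((J : ℝ) + 1) := h5
          _ = _ := by ring
      exact le_of_mul_le_mul_left h6 (hN0 J)
    rw [← ENNReal.ofReal_toReal (measure_ne_top (cube (r + 1)) (B J))]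
    exact ENNReal.ofReal_le_ofReal h4
  have h2 : (∑' J, cube (r + 1) (B J)) ≠ ⊤ := by
    refine ne_top_of_le_ne_top (summ hd).tsum_ofReal_ne_top (ENNReal.tsum_le_tsum h1)
  filter_upwards [ae_eventually_notMem h2] with ξ hξ
  filter_upwards [hξ] with J hJ
  exact not_le.1 hJ

end Pool.Agent.K7.H74.WS
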