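import Mathlib
import Pool.Agent.K7.H74.WS.Cnt

set_option autoImplicit false

/-! Waring's problem with shifts: the volume. -/

namespace Pool.Agent.K7.H74.WS
open Finset MeasureTheory
open scoped ENNReal

lemma abs_pre {S : Set ℝ} (hS : MeasurableSet S) :
    volume ((fun x : ℝ => |x|) ⁻¹' S) = 2 * volume (S ∩ Set.Ioi 0) := by
  have hT : MeasurableSet (S ∩ Set.Ioi 0) := hS.inter measurableSet_Ioi
  have hneg : MeasurableSet (Neg.neg ⁻¹' (S ∩ Set.Ioi (0 : ℝ))) := measurable_neg hT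
  have h1 : ((fun x : ℝ => |x|) ⁻¹' S) =ᵐ[volume] ((S ∩ Set.Ioi 0) ∪ (Neg.neg ⁻¹' (S ∩ Set.Ioi (0 : ℝ))) : Set ℝ) := by
    have h2 : ∀ᵐ x : ℝ, x ≠ 0 := by
      have := (measure_singleton (0 : ℝ) : volume {(0 : ℝ)} = 0)
      exact compl_mem_ae_iff.2 this
    filter_upwards [h2] with x hx
    apply propext
    change |x| ∈ S ↔ (x ∈ S ∧ 0 < x) ∨ (-x ∈ S ∧ 0 < -x)
    rcases lt_or_gt_of_ne hx with h | h
    · rw [abs_of_neg h]
      constructor
      · intro h3; exact Or.inr ⟨h3, by linarith⟩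
      · rintro (h3 | h3)
        · linarith [h3.2]
        · exact h3.1
    · rw [abs_of_pos h]
      constructor
      · intro h3; exact Or.inl ⟨h3, h⟩
      · rintro (h3 | h3)
        · exact h3.1
        · linarith [h3.2]
  rw [measure_congr h1, measure_union _ hneg, Measure.measure_preimage_neg, two_mul]
  rw [Set.disjoint_left]
  rintro x ⟨_, h2⟩ ⟨_, h3⟩
  simp only [Set.mem_Ioi] at h2 h3
  linarith

/-- twice Lebesgue measure on the positive reals -/
noncomputable def hl : Measure ℝ := (volume.restrict (Set.Ioi (0 : ℝ))) + (volume.restrict (Set.Ioi (0 : ℝ)))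

instance hlS : SigmaFinite hl := by unfold hl; infer_instance

lemma hl_apply {S : Set ℝ} (hS : MeasurableSet S) : hl S = 2 * volume (S ∩ Set.Ioi 0) := by
  unfold hl
  rw [Measure.add_apply, Measure.restrict_apply hS, two_mul]

lemma abs_map (s : ℕ) : Measure.map (fun (x : Fin s → ℝ) i => |x i|) volume =
    (2 : ℝ≥0∞) ^ s • (volume.restrict (Set.univ.pi fun _ : Fin s => Set.Ioi (0 : ℝ))) := by
  have hmeas : Measurable (fun (x : Fin s → ℝ) i => |x i|) := by fun_prop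
  have h1 : Measure.pi (fun _ : Fin s => hl) =
      Measure.map (fun (x : Fin s → ℝ) i => |x i|) volume := by
    apply Measure.pi_eq
    intro S hS
    rw [Measure.map_apply hmeas (MeasurableSet.univ_pi hS)]
    have h2 : (fun (x : Fin s → ℝ) i => |x i|) ⁻¹' (Set.univ.pi S) = Set.univ.pi fun i => (fun x : ℝ => |x|) ⁻¹' (S i) := by
      ext x; simp [Set.mem_pi]
    rw [h2, volume_pi_pi]
    apply prod_congr rfl
    intro i _
    rw [abs_pre (hS i), hl_apply (hS i)]
  have h2 : Measure.pi (fun _ : Fin s => hl) =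
      (2 : ℝ≥0∞) ^ s • (volume.restrict (Set.univ.pi fun _ : Fin s => Set.Ioi (0 : ℝ))) := by
    apply Measure.pi_eq
    intro S hS
    rw [Measure.smul_apply, Measure.restrict_apply (MeasurableSet.univ_pi hS), ← Set.pi_inter_distrib, volume_pi_pi, smul_eq_mul]
    have h3 : (2 : ℝ≥0∞) ^ s = ∏ _i : Fin s, 2 := by rw [prod_const, card_univ, Fintype.card_fin]
    rw [h3, ← prod_mul_distrib]
    apply prod_congr rfl
    intro i _
    rw [hl_apply (hS i)]
  rw [← h1, h2]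

theorem Vs_eq {k : ℕ} (hk : 1 ≤ k) (s : ℕ) :
    Vs k s = Real.Gamma (1 / (k : ℝ) + 1) ^ s / Real.Gamma ((s : ℝ) / k + 1) := by
  have hk1 : (1 : ℝ) ≤ k := by exact_mod_cast hk
  have h1 := volume_sum_rpow_lt_one (Fin s) hk1
  rw [Fintype.card_fin] at h1
  have hmeas : Measurable (fun (x : Fin s → ℝ) i => |x i|) := by fun_prop
  have hm : MeasurableSet {u : Fin s → ℝ | ∑ i, u i ^ k < 1} :=
    measurableSet_lt (by fun_prop) measurable_const
  have h2 : {x : Fin s → ℝ | ∑ i, |x i| ^ (k : ℝ) < 1} = (fun (x : Fin s → ℝ) i => |x i|) ⁻¹' {u : Fin s → ℝ | ∑ i, u i ^ k < 1} := by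
    ext x
    simp only [Real.rpow_natCast, Set.mem_ofPred_eq, Set.mem_preimage]
  rw [h2, ← Measure.map_apply hmeas hm, abs_map, Measure.smul_apply, Measure.restrict_apply hm, smul_eq_mul] at h1
  have h3 : {u : Fin s → ℝ | ∑ i, u i ^ k < 1} ∩ (Set.univ.pi fun _ : Fin s => Set.Ioi (0 : ℝ)) = A1 k s := by
    ext u
    simp only [A1, Set.mem_inter_iff, Set.mem_ofPred_eq, Set.mem_pi, Set.mem_univ, true_implies, Set.mem_Ioi]
    tauto
  rw [h3] at h1
  have hG1 : 0 < Real.Gamma (1 / (k : ℝ) + 1) := Real.Gamma_pos_of_pos (by positivity)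
  have hG2 : 0 < Real.Gamma ((s : ℝ) / k + 1) := Real.Gamma_pos_of_pos (by positivity)
  have h4 := congrArg ENNReal.toReal h1
  rw [ENNReal.toReal_mul, ENNReal.toReal_ofReal (by positivity), ENNReal.toReal_pow] at h4
  have h5 : (2 : ℝ) ^ s * Vs k s = (2 * Real.Gamma (1 / (k : ℝ) + 1)) ^ s / Real.Gamma ((s : ℝ) / k + 1) := by
    rw [← h4, Vs]
    norm_num
  rw [mul_pow, mul_div_assoc] at h5
  exact mul_left_cancel₀ (by positivity) h5

lemma Vs_pos {k : ℕ} (hk : 1 ≤ k) (s : ℕ) : 0 < Vs k s := by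
  have hk1 : (1 : ℝ) ≤ k := by exact_mod_cast hk
  rw [Vs_eq hk]
  have hG1 : 0 < Real.Gamma (1 / (k : ℝ) + 1) := Real.Gamma_pos_of_pos (by positivity)
  have hG2 : 0 < Real.Gamma ((s : ℝ) / k + 1) := Real.Gamma_pos_of_pos (by positivity)
  positivity

/-- the constant of the asymptotic formula -/
lemma Vs_const {k s : ℕ} (hk : 1 ≤ k) (hs : 1 ≤ s) :
    Vs k s * ((s : ℝ) / k) = Real.Gamma (1 + 1 / (k : ℝ)) ^ s / Real.Gamma ((s : ℝ) / k) := by
  have hk1 : (1 : ℝ) ≤ k := by exact_mod_cast hk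
  have hs1 : (1 : ℝ) ≤ s := by exact_mod_cast hs
  have hne : ((s : ℝ) / k) ≠ 0 := by positivity
  rw [Vs_eq hk, Real.Gamma_add_one hne, add_comm (1 / (k : ℝ)) 1]
  have hG2 : 0 < Real.Gamma ((s : ℝ) / k) := Real.Gamma_pos_of_pos (by positivity)
  field_simp

end Pool.Agent.K7.H74.WS
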