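import Mathlib
import Pool.Agent.K7.H74.WS.Bc
import Pool.Agent.K7.H74.WS.Vol

set_option autoImplicit false

/-! Waring's problem with shifts, exceptional sets: mean squares. -/

namespace Pool.Agent.K7.H74.WS
open Finset MeasureTheory Complex

lemma varsq {f : ℝ → ℂ} (hf : Continuous f) {z : ℂ} (hz : ∫ ξ in (0 : ℝ)..1, f ξ = z) :
    ∫ ξ in (0 : ℝ)..1, ‖f ξ - z‖ ^ 2 = (∫ ξ in (0 : ℝ)..1, ‖f ξ‖ ^ 2) - ‖z‖ ^ 2 := by
  have e1 : ∀ ξ : ℝ, ‖f ξ - z‖ ^ 2 = ‖f ξ‖ ^ 2 - 2 * (f ξ * (starRingEnd ℂ) z).re + ‖z‖ ^ 2 := by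
    intro ξ
    rw [← Complex.normSq_eq_norm_sq, ← Complex.normSq_eq_norm_sq, ← Complex.normSq_eq_norm_sq, Complex.normSq_sub]
    ring
  simp_rw [e1]
  have i1 : IntervalIntegrable (fun ξ => ‖f ξ‖ ^ 2) volume 0 1 := (by fun_prop : Continuous fun ξ => ‖f ξ‖ ^ 2).intervalIntegrable _ _
  have i2 : IntervalIntegrable (fun ξ => 2 * (f ξ * (starRingEnd ℂ) z).re) volume 0 1 := by
    apply Continuous.intervalIntegrable
    exact continuous_const.mul (Complex.continuous_re.comp (hf.mul continuous_const))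
  rw [intervalIntegral.integral_add (i1.sub i2) (by simp), intervalIntegral.integral_sub i1 i2]
  have e2 : ∫ ξ in (0 : ℝ)..1, 2 * (f ξ * (starRingEnd ℂ) z).re = 2 * ‖z‖ ^ 2 := by
    rw [intervalIntegral.integral_const_mul]
    congr 1
    have i3 : IntervalIntegrable (fun ξ => f ξ * (starRingEnd ℂ) z) volume 0 1 :=
      (hf.mul continuous_const).intervalIntegrable _ _
    have := Complex.reCLM.intervalIntegral_comp_comm i3
    simp only [Complex.reCLM_apply] at this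
    rw [this, intervalIntegral.integral_mul_const, hz, Complex.mul_conj, Complex.ofReal_re, Complex.normSq_eq_norm_sq]
  rw [e2]
  simp
  ring

lemma csq {g : ℝ → ℝ} (hg : Continuous g) : (∫ ξ in (0 : ℝ)..1, g ξ) ^ 2 ≤ ∫ ξ in (0 : ℝ)..1, g ξ ^ 2 := by
  set c := ∫ ξ in (0 : ℝ)..1, g ξ with hc
  have h2 : 0 ≤ ∫ ξ in (0 : ℝ)..1, (g ξ - c) ^ 2 :=
    intervalIntegral.integral_nonneg zero_le_one fun ξ _ => sq_nonneg _
  have h3 : ∫ ξ in (0 : ℝ)..1, (g ξ - c) ^ 2 = (∫ ξ in (0 : ℝ)..1, g ξ ^ 2) - c ^ 2 := by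
    have e1 : ∀ ξ : ℝ, (g ξ - c) ^ 2 = g ξ ^ 2 - (2 * c) * g ξ + c ^ 2 := fun ξ => by ring
    simp_rw [e1]
    have i1 : IntervalIntegrable (fun ξ => g ξ ^ 2) volume 0 1 :=
      (by fun_prop : Continuous fun ξ => g ξ ^ 2).intervalIntegrable _ _
    have i2 : IntervalIntegrable (fun ξ => (2 * c) * g ξ) volume 0 1 :=
      (by fun_prop : Continuous fun ξ => (2 * c) * g ξ).intervalIntegrable _ _
    rw [intervalIntegral.integral_add (i1.sub i2) (by simp), intervalIntegral.integral_sub i1 i2,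
      intervalIntegral.integral_const_mul, ← hc]
    simp
    ring
  linarith

/-- the mean square deviation for one block -/
noncomputable def DS (k P : ℕ) (α : ℝ) : ℝ := ∫ ξ in (0 : ℝ)..1, ‖S k P α ξ - M k P α‖ ^ 2

lemma DS_nonneg (k P : ℕ) (α : ℝ) : 0 ≤ DS k P α :=
  intervalIntegral.integral_nonneg zero_le_one fun _ _ => sq_nonneg _

lemma DB_DS (k P : ℕ) (α : ℝ) : DB k P α ^ 2 ≤ DS k P α :=
  csq ((S_cont2 _ _ α).sub continuous_const).norm

lemma DS_triv {m P : ℕ} (hP : 1 ≤ P) (α : ℝ) : DS (m + 2) P α ≤ (CK m * (|α| * (P : ℝ) ^ (m + 2))) ^ 2 := by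
  have h : DS (m + 2) P α ≤ ∫ ξ in (0 : ℝ)..1, (CK m * (|α| * (P : ℝ) ^ (m + 2))) ^ 2 := by
    unfold DS
    apply intervalIntegral.integral_mono_on zero_le_one
    · exact (((S_cont2 _ _ α).sub continuous_const).norm.pow 2).intervalIntegrable _ _
    · exact intervalIntegrable_const
    · intro ξ hξ
      exact pow_le_pow_left₀ (norm_nonneg _) (dev hP α hξ.1 hξ.2) 2
  simpa using h

lemma DS_sq {m P : ℕ} (hP : 1 ≤ P) {α : ℝ} (hα : α ≠ 0) :
    DS (m + 2) P α ≤ 2 * P + (1 + Real.log (2 * P)) / (|α| * (P : ℝ) ^ m) := by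
  unfold DS
  rw [varsq (S_cont2 _ _ α) (int_S _ _ α)]
  have h1 := second (m := m) hP hα
  have h2 := sq_nonneg ‖M (m + 2) P α‖
  linarith

/-- one block, all frequencies -/
lemma DB_all8 {m P : ℕ} (hP : 1 ≤ P) {α p L : ℝ} (hα : α ≠ 0) (hp : 1 ≤ p) (hPp : (P : ℝ) ≤ p ^ 12)
    (hL : 1 + Real.log (2 * P) ≤ L) (hL1 : 1 ≤ L) : DB (m + 2) P α ≤ (CK m + 2) * L * p ^ 8 := by
  have hP0 : (0 : ℝ) < P := by exact_mod_cast hP
  have hC := CK_pos m
  have hα0 : 0 < |α| := abs_pos.2 hα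
  have hp8 : 0 < p ^ 8 := by positivity
  rcases le_or_gt (|α| * (P : ℝ) ^ (m + 2)) (p ^ 8) with h | h
  · calc DB (m + 2) P α ≤ CK m * (|α| * (P : ℝ) ^ (m + 2)) := DB_triv hP α
      _ ≤ CK m * p ^ 8 := mul_le_mul_of_nonneg_left h hC.le
      _ ≤ (CK m + 2) * L * p ^ 8 := by
          apply mul_le_mul_of_nonneg_right _ hp8.le
          nlinarith
  · have h1 := (DB_DS (m + 2) P α).trans (DS_sq (m := m) hP hα)
    have h2 : (1 + Real.log (2 * P)) / (|α| * (P : ℝ) ^ m) ≤ L * p ^ 16 := by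
      rw [div_le_iff₀ (by positivity)]
      refine hL.trans ?_
      have h3 : p ^ 8 ≤ |α| * (P : ℝ) ^ m * p ^ 24 := by
        calc p ^ 8 ≤ |α| * (P : ℝ) ^ (m + 2) := h.le
          _ = |α| * (P : ℝ) ^ m * (P : ℝ) ^ 2 := by ring
          _ ≤ |α| * (P : ℝ) ^ m * (p ^ 12) ^ 2 := by gcongr
          _ = _ := by ring
      have h4 : 1 ≤ |α| * (P : ℝ) ^ m * p ^ 16 := by
        have : |α| * (P : ℝ) ^ m * p ^ 24 = |α| * (P : ℝ) ^ m * p ^ 16 * p ^ 8 := by ring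
        rw [this] at h3
        by_contra h5
        push Not at h5
        nlinarith
      calc L = L * 1 := (mul_one _).symm
        _ ≤ L * (|α| * (P : ℝ) ^ m * p ^ 16) := mul_le_mul_of_nonneg_left h4 (by linarith)
        _ = _ := by ring
    have h3 : (DB (m + 2) P α) ^ 2 ≤ (2 * L * p ^ 8) ^ 2 := by
      have e1 : p ^ 12 ≤ p ^ 16 := pow_le_pow_right₀ hp (by norm_num)
      have e4 : p ^ 16 ≤ L ^ 2 * p ^ 16 := le_mul_of_one_le_left (by positivity) (one_le_pow₀ hL1)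
      have e5 : L * p ^ 16 ≤ L ^ 2 * p ^ 16 := by
        apply mul_le_mul_of_nonneg_right _ (by positivity)
        nlinarith
      calc (DB (m + 2) P α) ^ 2 ≤ 2 * P + (1 + Real.log (2 * P)) / (|α| * (P : ℝ) ^ m) := h1
        _ ≤ 2 * p ^ 12 + L * p ^ 16 := by linarith
        _ ≤ 4 * (L ^ 2 * p ^ 16) := by nlinarith [(by positivity : 0 ≤ L ^ 2 * p ^ 16)]
        _ = _ := by ring
    have h4 := (le_abs_self _).trans (abs_le_of_sq_le_sq h3 (by positivity))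
    calc DB (m + 2) P α ≤ 2 * L * p ^ 8 := h4
      _ ≤ (CK m + 2) * L * p ^ 8 := by
          apply mul_le_mul_of_nonneg_right _ hp8.le
          apply mul_le_mul_of_nonneg_right _ (by linarith)
          linarith

/-- one block, large frequencies, mean square -/
lemma DS_large {m P : ℕ} (hP : 1 ≤ P) {α p L : ℝ} (hα : α ≠ 0) (hp : 1 ≤ p) (hPp : (P : ℝ) ≤ p ^ 12)
    (hL : 1 + Real.log (2 * P) ≤ L) (hL1 : 1 ≤ L) (hαp : 1 ≤ |α| * p ^ (9 * m + 12)) :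
    DS (m + 2) P α ≤ ((CK m + 2) * L * p ^ 6) ^ 2 := by
  have hP0 : (0 : ℝ) < P := by exact_mod_cast hP
  have hC := CK_pos m
  have hα0 : 0 < |α| := abs_pos.2 hα
  have hp0 : 0 < p := by linarith
  have hp6 : 0 < p ^ 6 := by positivity
  rcases le_or_gt (|α| * (P : ℝ) ^ (m + 2)) (p ^ 6) with h | h
  · refine (DS_triv hP α).trans (pow_le_pow_left₀ (by positivity) ?_ 2)
    calc CK m * (|α| * (P : ℝ) ^ (m + 2)) ≤ CK m * p ^ 6 := mul_le_mul_of_nonneg_left h hC.le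
      _ ≤ (CK m + 2) * L * p ^ 6 := by
          apply mul_le_mul_of_nonneg_right _ hp6.le
          nlinarith
  · have h1 := DS_sq (m := m) hP hα
    have h4 : 1 ≤ |α| * (P : ℝ) ^ m * p ^ 12 := by
      rcases le_or_gt (P : ℝ) (p ^ 9) with h5 | h5
      · have h3 : p ^ 6 ≤ |α| * (P : ℝ) ^ m * p ^ 18 := by
          calc p ^ 6 ≤ |α| * (P : ℝ) ^ (m + 2) := h.le
            _ = |α| * (P : ℝ) ^ m * (P : ℝ) ^ 2 := by ring
            _ ≤ |α| * (P : ℝ) ^ m * (p ^ 9) ^ 2 := by gcongr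
            _ = _ := by ring
        have : |α| * (P : ℝ) ^ m * p ^ 18 = |α| * (P : ℝ) ^ m * p ^ 12 * p ^ 6 := by ring
        rw [this] at h3
        by_contra h6
        push Not at h6
        nlinarith
      · calc (1 : ℝ) ≤ |α| * p ^ (9 * m + 12) := hαp
          _ = |α| * (p ^ 9) ^ m * p ^ 12 := by rw [← pow_mul, mul_assoc, ← pow_add]
          _ ≤ _ := by gcongr
    have h2 : (1 + Real.log (2 * P)) / (|α| * (P : ℝ) ^ m) ≤ L * p ^ 12 := by
      rw [div_le_iff₀ (by positivity)]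
      refine hL.trans ?_
      calc L = L * 1 := (mul_one _).symm
        _ ≤ L * (|α| * (P : ℝ) ^ m * p ^ 12) := mul_le_mul_of_nonneg_left h4 (by linarith)
        _ = _ := by ring
    have e4 : p ^ 12 ≤ L ^ 2 * p ^ 12 := le_mul_of_one_le_left (by positivity) (one_le_pow₀ hL1)
    have e5 : L * p ^ 12 ≤ L ^ 2 * p ^ 12 := by
      apply mul_le_mul_of_nonneg_right _ (by positivity)
      nlinarith
    calc DS (m + 2) P α ≤ 2 * P + (1 + Real.log (2 * P)) / (|α| * (P : ℝ) ^ m) := h1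
      _ ≤ 2 * p ^ 12 + L * p ^ 12 := by linarith
      _ ≤ 4 * (L ^ 2 * p ^ 12) := by nlinarith [(by positivity : 0 ≤ L ^ 2 * p ^ 12)]
      _ = (2 * L * p ^ 6) ^ 2 := by ring
      _ ≤ ((CK m + 2) * L * p ^ 6) ^ 2 := by
          apply pow_le_pow_left₀ (by positivity)
          apply mul_le_mul_of_nonneg_right _ hp6.le
          apply mul_le_mul_of_nonneg_right _ (by linarith)
          linarith

lemma DB_large6 {m P : ℕ} (hP : 1 ≤ P) {α p L : ℝ} (hα : α ≠ 0) (hp : 1 ≤ p) (hPp : (P : ℝ) ≤ p ^ 12)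
    (hL : 1 + Real.log (2 * P) ≤ L) (hL1 : 1 ≤ L) (hαp : 1 ≤ |α| * p ^ (9 * m + 12)) :
    DB (m + 2) P α ≤ (CK m + 2) * L * p ^ 6 := by
  have hC := CK_pos m
  exact (le_abs_self _).trans (abs_le_of_sq_le_sq ((DB_DS _ _ _).trans (DS_large hP hα hp hPp hL hL1 hαp)) (by positivity))

lemma DF_all8 {m J : ℕ} (α : ℝ) {p : ℝ} (hp : 1 ≤ p) (hJ : (3 : ℝ) ^ J = p ^ 12) :
    DF (m + 2) J α ≤ LJ m J * p ^ 8 := by
  have hC := CK_pos m
  rcases eq_or_ne α 0 with h | hα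
  · rw [h]
    refine (DF_zero m J).trans ?_
    have h1 := LJ_ge m J
    have h2 := one_le_pow₀ hp (n := 8)
    nlinarith
  refine (DF_le_sum _ _ _).trans ?_
  have h1 : ∑ i ∈ range J, DB (m + 2) (3 ^ i) α ≤ ∑ _i ∈ range J, (CK m + 2) * (2 * J + 2) * p ^ 8 := by
    apply sum_le_sum
    intro i hi
    rw [mem_range] at hi
    refine DB_all8 (Nat.one_le_pow _ _ (by norm_num)) hα hp ?_ (log_block hi) (by have : (0 : ℝ) ≤ J := Nat.cast_nonneg _; linarith)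
    rw [← hJ]
    push_cast
    exact pow_le_pow_right₀ (by norm_num) hi.le
  rw [sum_const, card_range, nsmul_eq_mul] at h1
  have h2 : (2 : ℝ) ≤ 2 * p ^ 8 := by nlinarith [one_le_pow₀ hp (n := 8)]
  unfold LJ
  have e : (2 + (J : ℝ) * ((CK m + 2) * (2 * J + 2))) * p ^ 8 = 2 * p ^ 8 + J * ((CK m + 2) * (2 * J + 2) * p ^ 8) := by ring
  rw [e]
  linarith

lemma DF_large6 {m J : ℕ} {α p : ℝ} (hα : α ≠ 0) (hp : 1 ≤ p) (hJ : (3 : ℝ) ^ J = p ^ 12)
    (hαp : 1 ≤ |α| * p ^ (9 * m + 12)) : DF (m + 2) J α ≤ LJ m J * p ^ 6 := by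
  have hC := CK_pos m
  refine (DF_le_sum _ _ _).trans ?_
  have h1 : ∑ i ∈ range J, DB (m + 2) (3 ^ i) α ≤ ∑ _i ∈ range J, (CK m + 2) * (2 * J + 2) * p ^ 6 := by
    apply sum_le_sum
    intro i hi
    rw [mem_range] at hi
    refine DB_large6 (Nat.one_le_pow _ _ (by norm_num)) hα hp ?_ (log_block hi) (by have : (0 : ℝ) ≤ J := Nat.cast_nonneg _; linarith) hαp
    rw [← hJ]
    push_cast
    exact pow_le_pow_right₀ (by norm_num) hi.le
  rw [sum_const, card_range, nsmul_eq_mul] at h1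
  have h2 : (2 : ℝ) ≤ 2 * p ^ 6 := by nlinarith [one_le_pow₀ hp (n := 6)]
  unfold LJ
  have e : (2 + (J : ℝ) * ((CK m + 2) * (2 * J + 2))) * p ^ 6 = 2 * p ^ 6 + J * ((CK m + 2) * (2 * J + 2) * p ^ 6) := by ring
  rw [e]
  linarith

/-! ### the mean square of the full sum -/

/-- the mean square deviation -/
noncomputable def FS (k J : ℕ) (α : ℝ) : ℝ := ∫ ξ in (0 : ℝ)..1, ‖SF k J α ξ - MF k J α‖ ^ 2

lemma FS_pt (k J : ℕ) (α ξ : ℝ) : ‖SF k J α ξ - MF k J α‖ ≤ 2 + ∑ i ∈ range J, ‖S k (3 ^ i) α ξ - M k (3 ^ i) α‖ := by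
  induction J with
  | zero =>
    rw [range_zero, sum_empty, add_zero]
    have h1 := SF_le k 0 α ξ
    have h2 := MF_le' k 0 α
    rw [pow_zero] at h1 h2
    have := norm_sub_le (SF k 0 α ξ) (MF k 0 α)
    linarith
  | succ J ih =>
    rw [sum_range_succ, SF_succ, MF_succ]
    have : SF k J α ξ + S k (3 ^ J) α ξ - (MF k J α + M k (3 ^ J) α) =
      (SF k J α ξ - MF k J α) + (S k (3 ^ J) α ξ - M k (3 ^ J) α) := by ring
    rw [this]
    have h1 := norm_add_le (SF k J α ξ - MF k J α) (S k (3 ^ J) α ξ - M k (3 ^ J) α)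
    linarith

lemma sq_sum_two (J : ℕ) (a : ℕ → ℝ) : (2 + ∑ i ∈ range J, a i) ^ 2 ≤ (J + 1) * (4 + ∑ i ∈ range J, a i ^ 2) := by
  have h1 := sq_sum_le_card_mul_sum_sq (s := range (J + 1)) (f := fun i : ℕ => if i = 0 then (2 : ℝ) else a (i - 1))
  rw [sum_range_succ', sum_range_succ', card_range] at h1
  simp only [Nat.add_eq_zero_iff, one_ne_zero, and_false, if_false, Nat.add_sub_cancel, if_true] at h1
  push_cast at h1
  calc (2 + ∑ i ∈ range J, a i) ^ 2 = (∑ k ∈ range J, a k + 2) ^ 2 := by ring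
    _ ≤ _ := h1
    _ = _ := by ring

lemma FS_le_sum (k J : ℕ) (α : ℝ) : FS k J α ≤ (J + 1) * (4 + ∑ i ∈ range J, DS k (3 ^ i) α) := by
  have hc : ∀ i, Continuous fun ξ : ℝ => ‖S k (3 ^ i) α ξ - M k (3 ^ i) α‖ ^ 2 := fun i =>
    ((S_cont2 k _ α).sub continuous_const).norm.pow 2
  have h1 : FS k J α ≤ ∫ ξ in (0 : ℝ)..1, ((J : ℝ) + 1) * (4 + ∑ i ∈ range J, ‖S k (3 ^ i) α ξ - M k (3 ^ i) α‖ ^ 2) := by
    unfold FS
    apply intervalIntegral.integral_mono_on zero_le_one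
    · exact (((SF_cont2 k J α).sub continuous_const).norm.pow 2).intervalIntegrable _ _
    · exact (continuous_const.mul (continuous_const.add (continuous_finsetSum _ fun i _ => hc i))).intervalIntegrable _ _
    · intro ξ _
      exact (pow_le_pow_left₀ (norm_nonneg _) (FS_pt k J α ξ) 2).trans (sq_sum_two J _)
  refine h1.trans (le_of_eq ?_)
  rw [intervalIntegral.integral_const_mul, intervalIntegral.integral_add (by simp)
    ((continuous_finsetSum _ fun i _ => hc i).intervalIntegrable _ _),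
    intervalIntegral.integral_finsetSum fun i _ => (hc i).intervalIntegrable _ _]
  simp [DS]

/-- the logarithmic factor -/
noncomputable def LK (m J : ℕ) : ℝ := 2 + (J + 1) * ((CK m + 2) * (2 * J + 2))

lemma LK_ge (m J : ℕ) : 2 ≤ LK m J := by
  unfold LK
  have := CK_pos m
  have : 0 ≤ ((J : ℝ) + 1) * ((CK m + 2) * (2 * J + 2)) := by positivity
  linarith

lemma FS_large {m J : ℕ} {α p : ℝ} (hα : α ≠ 0) (hp : 1 ≤ p) (hJ : (3 : ℝ) ^ J = p ^ 12)
    (hαp : 1 ≤ |α| * p ^ (9 * m + 12)) : FS (m + 2) J α ≤ (LK m J * p ^ 6) ^ 2 := by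
  have hC := CK_pos m
  have hJ0 : (0 : ℝ) ≤ J := Nat.cast_nonneg _
  refine (FS_le_sum _ _ _).trans ?_
  set c : ℝ := (CK m + 2) * (2 * J + 2) with hc
  have hc4 : 4 ≤ c := by rw [hc]; nlinarith
  have h1 : ∑ i ∈ range J, DS (m + 2) (3 ^ i) α ≤ ∑ _i ∈ range J, (c * p ^ 6) ^ 2 := by
    apply sum_le_sum
    intro i hi
    rw [mem_range] at hi
    refine DS_large (Nat.one_le_pow _ _ (by norm_num)) hα hp ?_ (log_block hi) (by linarith) hαp
    rw [← hJ]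
    push_cast
    exact pow_le_pow_right₀ (by norm_num) hi.le
  rw [sum_const, card_range, nsmul_eq_mul] at h1
  have h2 : (1 : ℝ) ≤ p ^ 12 := one_le_pow₀ hp
  calc ((J : ℝ) + 1) * (4 + ∑ i ∈ range J, DS (m + 2) (3 ^ i) α) ≤ (J + 1) * (4 * p ^ 12 + J * (c * p ^ 6) ^ 2) := by
        apply mul_le_mul_of_nonneg_left _ (by linarith)
        linarith
    _ = ((J + 1) * (4 + J * c ^ 2)) * p ^ 12 := by ring
    _ ≤ (2 + (J + 1) * c) ^ 2 * p ^ 12 := by
        apply mul_le_mul_of_nonneg_right _ (by positivity)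
        nlinarith [sq_nonneg c, mul_nonneg hJ0 (sq_nonneg c)]
    _ = (LK m J * p ^ 6) ^ 2 := by unfold LK; rw [← hc]; ring

/-- the second moment of the full sum -/
noncomputable def SS (k J : ℕ) (α : ℝ) : ℝ := ∫ ξ in (0 : ℝ)..1, ‖SF k J α ξ‖ ^ 2

lemma SS_nonneg (k J : ℕ) (α : ℝ) : 0 ≤ SS k J α :=
  intervalIntegral.integral_nonneg zero_le_one fun _ _ => sq_nonneg _

lemma MF_small {m J : ℕ} {α p : ℝ} (hα : α ≠ 0) (hp : 1 ≤ p) (hJ : (3 : ℝ) ^ J = p ^ 12)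
    (hαp : 1 ≤ |α| * p ^ (6 * (m + 2))) : ‖MF (m + 2) J α‖ ≤ 2 * p ^ 6 := by
  have hα0 : 0 < |α| := abs_pos.2 hα
  have hp0 : 0 < p := by linarith
  have hab : ‖MF (m + 2) J α‖ = ‖MF (m + 2) J |α|‖ := by
    rcases abs_choice α with h | h
    · rw [h]
    · rw [h, MF_neg]
  set u : ℝ := |α| ^ (-(1 / ((m + 2 : ℕ) : ℝ))) with hu
  have hu0 : 0 < u := Real.rpow_pos_of_pos hα0 _
  have hu1 : |α| * u ^ (m + 2) = 1 := by
    rw [hu, ← Real.rpow_natCast, ← Real.rpow_mul hα0.le]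
    have : -(1 / ((m + 2 : ℕ) : ℝ)) * ((m + 2 : ℕ) : ℝ) = -1 := by
      have : ((m + 2 : ℕ) : ℝ) ≠ 0 := by positivity
      field_simp
    rw [this, Real.rpow_neg_one, mul_inv_cancel₀ hα0.ne']
  have hup : u ≤ p ^ 6 := by
    by_contra h1
    push Not at h1
    have h2 : (p ^ 6) ^ (m + 2) < u ^ (m + 2) := pow_lt_pow_left₀ h1 (by positivity) (by omega)
    rw [← pow_mul] at h2
    have h3 : |α| * p ^ (6 * (m + 2)) < |α| * u ^ (m + 2) := mul_lt_mul_of_pos_left h2 hα0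
    linarith
  have huX : u ≤ (3 : ℝ) ^ J := by
    rw [hJ]
    exact hup.trans (pow_le_pow_right₀ hp (by norm_num))
  rw [hab]
  exact (MF_pos hα0 hu0 hu1 huX).trans (by linarith)

lemma SS_large {m J : ℕ} {α p : ℝ} (hα : α ≠ 0) (hp : 1 ≤ p) (hJ : (3 : ℝ) ^ J = p ^ 12)
    (hαp : 1 ≤ |α| * p ^ (6 * (m + 2))) : SS (m + 2) J α ≤ (2 * LK m J * p ^ 6) ^ 2 := by
  have hα0 : 0 < |α| := abs_pos.2 hα
  have hp0 : 0 < p := by linarith
  have hL := LK_ge m J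
  have h1 : 1 ≤ |α| * p ^ (9 * m + 12) :=
    hαp.trans (mul_le_mul_of_nonneg_left (pow_le_pow_right₀ hp (by omega)) hα0.le)
  have h2 := FS_large hα hp hJ h1
  have h3 := MF_small hα hp hJ hαp
  have h4 : SS (m + 2) J α = FS (m + 2) J α + ‖MF (m + 2) J α‖ ^ 2 := by
    unfold SS FS
    rw [varsq (SF_cont2 _ _ α) (int_SF _ _ α)]
    ring
  have h5 : ‖MF (m + 2) J α‖ ^ 2 ≤ (2 * p ^ 6) ^ 2 := pow_le_pow_left₀ (norm_nonneg _) h3 2
  have h6 : 0 ≤ p ^ 12 := by positivity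
  rw [h4]
  calc FS (m + 2) J α + ‖MF (m + 2) J α‖ ^ 2 ≤ (LK m J * p ^ 6) ^ 2 + (2 * p ^ 6) ^ 2 := add_le_add h2 h5
    _ = (LK m J ^ 2 + 4) * p ^ 12 := by ring
    _ ≤ (4 * LK m J ^ 2) * p ^ 12 := by
        apply mul_le_mul_of_nonneg_right _ h6
        nlinarith
    _ = _ := by ring

end Pool.Agent.K7.H74.WS
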