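import Mathlib
import Pool.Agent.K7.H74.WS.SlA

set_option autoImplicit false

/-! Waring's problem with shifts, exceptional sets: expected values. -/

namespace Pool.Agent.K7.H74.WS
open Finset MeasureTheory Complex

/-- the decay of the main term, first power -/
lemma MF_pow1 {m J n : ℕ} (hn : m + 2 ≤ n) (α : ℝ) :
    ‖MF (m + 2) J α‖ ^ n ≤ 2 * 2 ^ (m + 2) * ((3 : ℝ) ^ J) ^ n * (1 + |α| * ((3 : ℝ) ^ J) ^ (m + 2))⁻¹ := by
  set X : ℝ := (3 : ℝ) ^ J with hX
  have hX1 : 1 ≤ X := one_le_pow₀ (by norm_num)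
  have hX0 : 0 < X := by linarith
  have h0 : ‖MF (m + 2) J α‖ ^ n ≤ X ^ n := pow_le_pow_left₀ (norm_nonneg _) (MF_le' _ _ _) _
  set b := |α| * X ^ (m + 2) with hb
  have hb0 : 0 ≤ b := by positivity
  have hpos : 0 < 1 + b := by positivity
  rw [← div_eq_mul_inv, le_div_iff₀ hpos]
  rcases le_or_gt b 1 with h | h
  · have h1 : 1 + b ≤ 2 := by linarith
    have h2 : (1 : ℝ) ≤ 2 ^ (m + 2) := one_le_pow₀ (by norm_num)
    calc ‖MF (m + 2) J α‖ ^ n * (1 + b) ≤ X ^ n * 2 := mul_le_mul h0 h1 (by positivity) (by positivity)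
      _ ≤ 2 * 2 ^ (m + 2) * X ^ n := by nlinarith [(by positivity : 0 ≤ X ^ n)]
  · have hα : α ≠ 0 := by
      rintro rfl
      rw [hb, abs_zero, zero_mul] at h
      linarith
    have hα0 : 0 < |α| := abs_pos.2 hα
    have hab : ‖MF (m + 2) J α‖ = ‖MF (m + 2) J |α|‖ := by
      rcases abs_choice α with h | h
      · rw [h]
      · rw [h, MF_neg]
    set u : ℝ := |α| ^ (-(1 / ((m + 2 : ℕ) : ℝ))) with hu
    have hu0 : 0 < u := Real.rpow_pos_of_pos hα0 _
    have hu1 : |α| * u ^ (m + 2) = 1 := by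
      rw [hu, ← Real.rpow_natCast, ← Real.rpow_mul hα0.le]
      have : -(1 / ((m + 2 : ℕ) : ℝ)) * ((m + 2 : ℕ) : ℝ) = -1 := by
        have : ((m + 2 : ℕ) : ℝ) ≠ 0 := by positivity
        field_simp
      rw [this, Real.rpow_neg_one, mul_inv_cancel₀ hα0.ne']
    have huX : u ≤ X := by
      by_contra h1
      push Not at h1
      have h2 : X ^ (m + 2) ≤ u ^ (m + 2) := pow_le_pow_left₀ hX0.le h1.le _
      have h3 : b ≤ |α| * u ^ (m + 2) := mul_le_mul_of_nonneg_left h2 hα0.le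
      linarith
    have hM := MF_pos (J := J) hα0 hu0 hu1 huX
    rw [← hab] at hM
    obtain ⟨l, rfl⟩ := Nat.exists_eq_add_of_le hn
    have hMX : ‖MF (m + 2) J α‖ ≤ X := MF_le' _ _ _
    have h1 : ‖MF (m + 2) J α‖ ^ (m + 2 + l) ≤ (2 * u) ^ (m + 2) * X ^ l := by
      rw [pow_add]
      exact mul_le_mul (pow_le_pow_left₀ (norm_nonneg _) hM _) (pow_le_pow_left₀ (norm_nonneg _) hMX _)
        (by positivity) (by positivity)
    have h2 : (2 * u) ^ (m + 2) * b = 2 ^ (m + 2) * X ^ (m + 2) := by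
      have e1 : (2 * u) ^ (m + 2) * b = 2 ^ (m + 2) * (|α| * u ^ (m + 2)) * X ^ (m + 2) := by
        rw [hb, mul_pow]; ring
      rw [e1, hu1, mul_one]
    have h3 : 1 + b ≤ 2 * b := by linarith
    calc ‖MF (m + 2) J α‖ ^ (m + 2 + l) * (1 + b) ≤ ((2 * u) ^ (m + 2) * X ^ l) * (2 * b) :=
          mul_le_mul h1 h3 (by positivity) (by positivity)
      _ = 2 * ((2 * u) ^ (m + 2) * b) * X ^ l := by ring
      _ = 2 * (2 ^ (m + 2) * X ^ (m + 2)) * X ^ l := by rw [h2]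
      _ = 2 * 2 ^ (m + 2) * X ^ (m + 2 + l) := by rw [pow_add]; ring

lemma log_int {c d : ℝ} (hc : 0 < c) (hd : 0 ≤ d) :
    ∫ β in Set.Icc (-d) d, (1 + |β| / c)⁻¹ = 2 * c * Real.log (1 + d / c) := by
  rw [integral_Icc_eq_integral_Ioc, ← intervalIntegral.integral_of_le (by linarith)]
  have hcont : Continuous fun β : ℝ => (1 + |β| / c)⁻¹ := by
    apply Continuous.inv₀ (by fun_prop)
    intro β
    have : 0 ≤ |β| / c := by positivity
    linarith
  rw [← intervalIntegral.integral_add_adjacent_intervals (b := 0) (hcont.intervalIntegrable _ _) (hcont.intervalIntegrable _ _)]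
  have h1 : ∫ β in (0 : ℝ)..d, (1 + |β| / c)⁻¹ = c * Real.log (1 + d / c) := by
    have h2 : ∫ β in (0 : ℝ)..d, (1 + |β| / c)⁻¹ = ∫ β in (0 : ℝ)..d, (1 + β / c)⁻¹ := by
      apply intervalIntegral.integral_congr
      intro β hβ
      rw [Set.uIcc_of_le hd] at hβ
      simp only
      rw [abs_of_nonneg hβ.1]
    rw [h2, intervalIntegral.integral_eq_sub_of_hasDerivAt (f := fun β => c * Real.log (1 + β / c))]
    · simp
    · intro β hβ
      rw [Set.uIcc_of_le hd] at hβ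
      have h3 : (1 + β / c) ≠ 0 := by
        have : 0 ≤ β / c := div_nonneg hβ.1 hc.le
        linarith
      have h4 : HasDerivAt (fun β : ℝ => 1 + β / c) (1 / c) β := ((hasDerivAt_id β).div_const c).const_add 1
      have h5 := (h4.log h3).const_mul c
      have h6 : c * (1 / c / (1 + β / c)) = (1 + β / c)⁻¹ := by
        rw [div_div, ← mul_div_assoc, mul_one, div_mul_cancel_left₀ hc.ne']
      rw [h6] at h5
      exact h5
    · apply ContinuousOn.intervalIntegrable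
      intro β hβ
      rw [Set.uIcc_of_le hd] at hβ
      have h3 : (1 + β / c) ≠ 0 := by
        have : 0 ≤ β / c := div_nonneg hβ.1 hc.le
        linarith
      exact ((continuousAt_const.add (continuousAt_id.div_const c)).inv₀ h3).continuousWithinAt
  have h3 : ∫ β in (-d)..(0 : ℝ), (1 + |β| / c)⁻¹ = ∫ β in (0 : ℝ)..d, (1 + |β| / c)⁻¹ := by
    have h4 := intervalIntegral.integral_comp_neg (a := (0 : ℝ)) (b := d) (fun β : ℝ => (1 + |β| / c)⁻¹)
    rw [neg_zero] at h4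
    rw [← h4]
    simp only [abs_neg]
  rw [h3, h1]
  ring

/-- the small frequencies -/
noncomputable def ia (d β : ℝ) : ℝ := (Set.Icc (-d) d).indicator (fun _ => (1 : ℝ)) β

lemma ia_nonneg (d β : ℝ) : 0 ≤ ia d β := Set.indicator_nonneg (fun _ _ => zero_le_one) _
lemma ia_le (d β : ℝ) : ia d β ≤ 1 := Set.indicator_le_self' (fun _ _ => zero_le_one) _
lemma ia_meas (d : ℝ) : Measurable (ia d) := measurable_const.indicator measurableSet_Icc
lemma ia_one {d β : ℝ} (h : |β| ≤ d) : ia d β = 1 := by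
  have h2 : β ∈ Set.Icc (-d) d := ⟨(abs_le.1 h).1, (abs_le.1 h).2⟩
  unfold ia
  rw [Set.indicator_of_mem h2]
lemma ia_zero {d β : ℝ} (h : d < |β|) : ia d β = 0 := by
  have h2 : β ∉ Set.Icc (-d) d := by
    intro h1
    have := abs_le.2 ⟨h1.1, h1.2⟩
    linarith
  unfold ia
  rw [Set.indicator_of_notMem h2]
lemma ia_int (d : ℝ) : Integrable (ia d) := by
  unfold ia
  rw [integrable_indicator_iff measurableSet_Icc]
  exact integrableOn_const (by rw [Real.volume_Icc]; exact ENNReal.ofReal_ne_top)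
lemma ia_integral {d : ℝ} (hd : 0 ≤ d) : ∫ β, ia d β = 2 * d := by
  unfold ia
  rw [integral_indicator measurableSet_Icc, setIntegral_const, smul_eq_mul, mul_one, measureReal_def, Real.volume_Icc,
    ENNReal.toReal_ofReal (by linarith)]
  ring

lemma ia_log {c d : ℝ} (hc : 0 < c) : Integrable fun β : ℝ => ia d β * (1 + |β| / c)⁻¹ := by
  refine (ia_int d).mono' ?_ (Filter.Eventually.of_forall fun β => ?_)
  · have hcont : Continuous fun β : ℝ => (1 + |β| / c)⁻¹ := by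
      apply Continuous.inv₀ (by fun_prop)
      intro β
      have : 0 ≤ |β| / c := by positivity
      linarith
    exact ((ia_meas d).mul hcont.measurable).aestronglyMeasurable
  · have h1 : 0 ≤ |β| / c := by positivity
    have h2 : (1 + |β| / c)⁻¹ ≤ 1 := inv_le_one_of_one_le₀ (by linarith)
    have h3 : 0 ≤ (1 + |β| / c)⁻¹ := inv_nonneg.2 (by linarith)
    rw [Real.norm_of_nonneg (mul_nonneg (ia_nonneg _ _) h3)]
    exact mul_le_of_le_one_right (ia_nonneg _ _) h2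

lemma ia_log_integral {c d : ℝ} (hc : 0 < c) (hd : 0 ≤ d) :
    ∫ β : ℝ, ia d β * (1 + |β| / c)⁻¹ = 2 * c * Real.log (1 + d / c) := by
  rw [← log_int hc hd, ← integral_indicator measurableSet_Icc]
  refine integral_congr_ae (Filter.Eventually.of_forall fun β => ?_)
  simp only [ia]
  by_cases h : β ∈ Set.Icc (-d) d
  · rw [Set.indicator_of_mem h, Set.indicator_of_mem h, one_mul]
  · rw [Set.indicator_of_notMem h, Set.indicator_of_notMem h, zero_mul]

/-- the error from small frequencies -/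
noncomputable def E1 (k J s : ℕ) (η d : ℝ) (ξ : Fin s → ℝ) : ℝ := ∫ β : ℝ, ia d β * (W β * dl k J s (β / η) ξ)

/-- the mean square error from large frequencies -/
noncomputable def E2 (k J s : ℕ) (η d : ℝ) (ξ : Fin s → ℝ) : ℝ := ∫ β : ℝ, (1 - ia d β) * (W β * dl k J s (β / η) ξ ^ 2)

lemma E1_nonneg (k J s : ℕ) (η d : ℝ) (ξ : Fin s → ℝ) : 0 ≤ E1 k J s η d ξ :=
  integral_nonneg fun _ => mul_nonneg (ia_nonneg _ _) (mul_nonneg (W_nonneg _) (dl_nonneg _ _ _ _ _))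

lemma E2_nonneg (k J s : ℕ) (η d : ℝ) (ξ : Fin s → ℝ) : 0 ≤ E2 k J s η d ξ :=
  integral_nonneg fun β => mul_nonneg (by have := ia_le d β; linarith) (mul_nonneg (W_nonneg _) (sq_nonneg _))

lemma E1_int2 (k J s : ℕ) (η d : ℝ) :
    Integrable (fun q : (Fin s → ℝ) × ℝ => ia d q.2 * (W q.2 * dl k J s (q.2 / η) q.1)) ((cube s).prod volume) := by
  have h1 := Wdl_int2 k J s η
  refine h1.mono (((ia_meas d).comp measurable_snd).aestronglyMeasurable.mul h1.aestronglyMeasurable)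
    (Filter.Eventually.of_forall fun q => ?_)
  rw [norm_mul, Real.norm_of_nonneg (ia_nonneg _ _)]
  exact mul_le_of_le_one_left (norm_nonneg _) (ia_le _ _)

lemma E2_int2 (k J s : ℕ) (η d : ℝ) :
    Integrable (fun q : (Fin s → ℝ) × ℝ => (1 - ia d q.2) * (W q.2 * dl k J s (q.2 / η) q.1 ^ 2)) ((cube s).prod volume) := by
  have h1 : Integrable (fun q : (Fin s → ℝ) × ℝ => ((2 * ((3 : ℝ) ^ J) ^ s) ^ 2) * W q.2) ((cube s).prod volume) :=
    (integrable_const ((2 * ((3 : ℝ) ^ J) ^ s) ^ 2)).mul_prod W_int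
  refine h1.mono' (f := fun q : (Fin s → ℝ) × ℝ => (1 - ia d q.2) * (W q.2 * dl k J s (q.2 / η) q.1 ^ 2)) ?_ ?_
  · have hW : Continuous fun q : (Fin s → ℝ) × ℝ => W q.2 := W_cont.comp continuous_snd
    have h4 : Continuous fun q : (Fin s → ℝ) × ℝ => dl k J s (q.2 / η) q.1 :=
      dl_cont k J s (continuous_snd.div_const η) continuous_fst
    exact ((measurable_const.sub ((ia_meas d).comp measurable_snd)).mul (hW.mul (h4.pow 2)).measurable).aestronglyMeasurable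
  · refine Filter.Eventually.of_forall fun q => ?_
    have h2 := ia_le d q.2
    have h3 := ia_nonneg d q.2
    have h4 : 0 ≤ W q.2 * dl k J s (q.2 / η) q.1 ^ 2 := mul_nonneg (W_nonneg _) (sq_nonneg _)
    rw [Real.norm_of_nonneg (mul_nonneg (by linarith) h4)]
    calc (1 - ia d q.2) * (W q.2 * dl k J s (q.2 / η) q.1 ^ 2) ≤ 1 * (W q.2 * dl k J s (q.2 / η) q.1 ^ 2) :=
          mul_le_mul_of_nonneg_right (by linarith) h4
      _ = dl k J s (q.2 / η) q.1 ^ 2 * W q.2 := by ring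
      _ ≤ (2 * ((3 : ℝ) ^ J) ^ s) ^ 2 * W q.2 := by
          apply mul_le_mul_of_nonneg_right _ (W_nonneg _)
          exact pow_le_pow_left₀ (dl_nonneg _ _ _ _ _) (dl_le _ _ _ _ _) 2

lemma E1_meas (k J s : ℕ) (η d : ℝ) : Integrable (E1 k J s η d) (cube s) := (E1_int2 k J s η d).integral_prod_left
lemma E2_meas (k J s : ℕ) (η d : ℝ) : Integrable (E2 k J s η d) (cube s) := (E2_int2 k J s η d).integral_prod_left

/-! ### the mean square of the product -/

lemma cont_int {s : ℕ} {E : Type} [NormedAddCommGroup E] {f : (Fin s → ℝ) → E} (hf : Continuous f) {B : ℝ}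
    (hB : ∀ x, ‖f x‖ ≤ B) : Integrable f (cube s) :=
  Integrable.of_bound hf.aestronglyMeasurable B (Filter.Eventually.of_forall hB)

lemma SF_cont3 (k J s : ℕ) (α : ℝ) (i : Fin s) : Continuous fun ξ : Fin s → ℝ => SF k J α (ξ i) :=
  (SF_cont2 k J α).comp (continuous_apply i)

lemma prod_mean (k J s : ℕ) (α : ℝ) : ∫ ξ, ∏ i, SF k J α (ξ i) ∂(cube s) = MF k J α ^ s := by
  unfold cube
  have h1 := integral_fintype_prod_eq_prod (𝕜 := ℂ) (fun (_ : Fin s) (x : ℝ) => SF k J α x)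
    (μ := fun _ => volume.restrict (Set.Ioc (0 : ℝ) 1))
  refine h1.trans ?_
  rw [prod_const, card_univ, Fintype.card_fin, int_unit, int_SF]

lemma prod_sq_mean (k J s : ℕ) (α : ℝ) : ∫ ξ, ‖∏ i, SF k J α (ξ i)‖ ^ 2 ∂(cube s) = SS k J α ^ s := by
  have h0 : ∀ ξ : Fin s → ℝ, ‖∏ i, SF k J α (ξ i)‖ ^ 2 = ∏ i, ‖SF k J α (ξ i)‖ ^ 2 := fun ξ => by
    rw [norm_prod, prod_pow]
  simp_rw [h0]
  unfold cube
  have h1 := integral_fintype_prod_eq_prod (𝕜 := ℝ) (fun (_ : Fin s) (x : ℝ) => ‖SF k J α x‖ ^ 2)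
    (μ := fun _ => volume.restrict (Set.Ioc (0 : ℝ) 1))
  refine h1.trans ?_
  rw [prod_const, card_univ, Fintype.card_fin, int_unit]
  rfl

lemma dl_sq_mean (k J s : ℕ) (α : ℝ) : ∫ ξ, dl k J s α ξ ^ 2 ∂(cube s) ≤ SS k J α ^ s := by
  set Y : (Fin s → ℝ) → ℂ := fun ξ => ∏ i, SF k J α (ξ i) with hY
  set c : ℂ := MF k J α ^ s with hc
  have hYc : Continuous Y := continuous_finsetProd _ fun i _ => SF_cont3 k J s α i
  have hYb : ∀ ξ, ‖Y ξ‖ ≤ ((3 : ℝ) ^ J) ^ s := by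
    intro ξ
    rw [hY]
    simp only
    rw [norm_prod]
    have h1 : ∏ i : Fin s, ‖SF k J α (ξ i)‖ ≤ ∏ _i : Fin s, (3 : ℝ) ^ J :=
      prod_le_prod (fun i _ => norm_nonneg _) fun i _ => SF_le _ _ _ _
    rwa [prod_const, card_univ, Fintype.card_fin] at h1
  have e1 : ∀ ξ, dl k J s α ξ ^ 2 = ‖Y ξ‖ ^ 2 - 2 * (Y ξ * (starRingEnd ℂ) c).re + ‖c‖ ^ 2 := by
    intro ξ
    unfold dl
    rw [← Complex.normSq_eq_norm_sq, ← Complex.normSq_eq_norm_sq, ← Complex.normSq_eq_norm_sq, Complex.normSq_sub]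
    ring
  have i1 : Integrable (fun ξ => ‖Y ξ‖ ^ 2) (cube s) := cont_int (B := (((3 : ℝ) ^ J) ^ s) ^ 2) (hYc.norm.pow 2) fun ξ => by
    rw [norm_pow, norm_norm]
    exact pow_le_pow_left₀ (norm_nonneg _) (hYb ξ) 2
  have i3 : Integrable (fun ξ => Y ξ * (starRingEnd ℂ) c) (cube s) :=
    cont_int (B := ((3 : ℝ) ^ J) ^ s * ‖(starRingEnd ℂ) c‖) (hYc.mul continuous_const) fun ξ => by
      rw [norm_mul]
      exact mul_le_mul_of_nonneg_right (hYb ξ) (norm_nonneg _)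
  have i2 : Integrable (fun ξ => 2 * (Y ξ * (starRingEnd ℂ) c).re) (cube s) := i3.re.const_mul 2
  simp_rw [e1]
  have e4 : ∫ ξ, (‖Y ξ‖ ^ 2 - 2 * (Y ξ * (starRingEnd ℂ) c).re + ‖c‖ ^ 2) ∂(cube s) =
      (∫ ξ, ‖Y ξ‖ ^ 2 ∂(cube s)) - (∫ ξ, 2 * (Y ξ * (starRingEnd ℂ) c).re ∂(cube s)) + ‖c‖ ^ 2 := by
    have h1 : ∫ ξ, (‖Y ξ‖ ^ 2 - 2 * (Y ξ * (starRingEnd ℂ) c).re + ‖c‖ ^ 2) ∂(cube s) =
      (∫ ξ, (‖Y ξ‖ ^ 2 - 2 * (Y ξ * (starRingEnd ℂ) c).re) ∂(cube s)) + ∫ _ξ, ‖c‖ ^ 2 ∂(cube s) :=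
      integral_add (i1.sub i2) (integrable_const _)
    rw [h1, integral_sub i1 i2]
    simp
  rw [e4]
  have e2 : ∫ ξ, 2 * (Y ξ * (starRingEnd ℂ) c).re ∂(cube s) = 2 * ‖c‖ ^ 2 := by
    rw [integral_const_mul]
    congr 1
    have h1 := integral_re i3
    simp only [RCLike.re_to_complex] at h1
    have h2 : ∫ ξ, Y ξ ∂(cube s) = c := prod_mean k J s α
    rw [h1, integral_mul_const, h2, Complex.mul_conj, Complex.ofReal_re, Complex.normSq_eq_norm_sq]
  rw [e2, prod_sq_mean]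
  have := sq_nonneg ‖c‖
  linarith

theorem E2_mean {m J s : ℕ} {p : ℝ} (hp : 1 ≤ p) (hJ : (3 : ℝ) ^ J = p ^ 12) {η : ℝ} (hη : 0 < η) :
    ∫ ξ, E2 (m + 2) J s η (η / p ^ (6 * (m + 2))) ξ ∂(cube s) ≤ ((2 * LK m J * p ^ 6) ^ 2) ^ s := by
  set d := η / p ^ (6 * (m + 2)) with hd
  have hp0 : 0 < p := by linarith
  have hL := LK_ge m J
  have h1 : ∫ ξ, E2 (m + 2) J s η d ξ ∂(cube s) =
      ∫ β, (1 - ia d β) * (W β * ∫ ξ, dl (m + 2) J s (β / η) ξ ^ 2 ∂(cube s)) := by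
    unfold E2
    rw [integral_integral_swap (f := fun (ξ : Fin s → ℝ) (β : ℝ) => (1 - ia d β) * (W β * dl (m + 2) J s (β / η) ξ ^ 2))
      (E2_int2 (m + 2) J s η d)]
    simp_rw [integral_const_mul]
  rw [h1]
  have h2 : ∀ β : ℝ, (1 - ia d β) * (W β * ∫ ξ, dl (m + 2) J s (β / η) ξ ^ 2 ∂(cube s)) ≤ ((2 * LK m J * p ^ 6) ^ 2) ^ s * W β := by
    intro β
    have h3 : 0 ≤ ∫ ξ, dl (m + 2) J s (β / η) ξ ^ 2 ∂(cube s) := integral_nonneg fun _ => sq_nonneg _
    rcases le_or_gt |β| d with h | h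
    · rw [ia_one h, sub_self, zero_mul]
      exact mul_nonneg (by positivity) (W_nonneg _)
    · rw [ia_zero h, sub_zero, one_mul, mul_comm]
      apply mul_le_mul_of_nonneg_right _ (W_nonneg _)
      refine (dl_sq_mean _ _ _ _).trans (pow_le_pow_left₀ (SS_nonneg _ _ _) ?_ _)
      have hd0 : 0 < d := by positivity
      have hβ : β ≠ 0 := by
        rintro rfl
        rw [abs_zero] at h
        linarith
      apply SS_large (div_ne_zero hβ hη.ne') hp hJ
      rw [abs_div, abs_of_pos hη, div_mul_eq_mul_div, le_div_iff₀ hη]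
      rw [hd, div_lt_iff₀ (by positivity)] at h
      linarith
  refine (integral_mono_of_nonneg (Filter.Eventually.of_forall fun β => ?_) (W_int.const_mul _)
    (Filter.Eventually.of_forall h2)).trans (le_of_eq ?_)
  · exact mul_nonneg (by have := ia_le d β; linarith) (mul_nonneg (W_nonneg _) (integral_nonneg fun _ => sq_nonneg _))
  · rw [integral_const_mul, W_one, mul_one]

end Pool.Agent.K7.H74.WS
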