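import Mathlib
import Pool.Agent.K7.H74.WS.SlB

set_option autoImplicit false

/-! Waring's problem with shifts, exceptional sets: the errors for almost all shifts. -/

namespace Pool.Agent.K7.H74.WS
open Finset MeasureTheory Complex

/-- the expected error at one small frequency -/
lemma dl_mean1 {m J r : ℕ} (hr : m + 2 ≤ r) {p : ℝ} (hp : 1 ≤ p) (hJ : (3 : ℝ) ^ J = p ^ 12) {η : ℝ} (hη : 0 < η) (β : ℝ) :
    ia (η / p ^ (6 * (m + 2))) β * (W β * ∫ ξ, dl (m + 2) J (r + 1) (β / η) ξ ∂(cube (r + 1))) ≤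
      (r + 1) * 2 ^ r * ((LJ m J * p ^ 8) ^ (r + 1) * ia (η / p ^ (9 * m + 12)) β
      + (LJ m J * p ^ 6) ^ (r + 1) * ia (η / p ^ (6 * (m + 2))) β
      + (LJ m J * p ^ 8) * (2 * 2 ^ (m + 2) * ((3 : ℝ) ^ J) ^ r) *
        (ia (η / p ^ (6 * (m + 2))) β * (1 + |β| / (η / ((3 : ℝ) ^ J) ^ (m + 2)))⁻¹)) := by
  set α := β / η with hα
  set D := DF (m + 2) J α with hD
  set N := ‖MF (m + 2) J α‖ with hN
  set d := η / p ^ (6 * (m + 2)) with hd
  have hD0 : 0 ≤ D := DF_nonneg _ _ _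
  have hN0 : 0 ≤ N := norm_nonneg _
  have hp0 : 0 < p := by linarith
  have hL := LJ_ge m J
  have hW0 := W_nonneg β
  have hW1 := W_le β
  have hi0 := ia_nonneg d β
  have h1 : ∫ ξ, dl (m + 2) J (r + 1) α ξ ∂(cube (r + 1)) ≤ (r + 1) * 2 ^ r * (D ^ (r + 1) + D * N ^ r) := by
    have h2 := prod_dev (r + 1) (SF_cont2 (m + 2) J α) (SF_le (m + 2) J α) (MF (m + 2) J α)
    refine h2.trans ((pow_diff hD0 hN0 r).trans ?_)
    have h3 : (D + N) ^ r ≤ 2 ^ r * (D ^ r + N ^ r) := by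
      refine (add_pow_le hD0 hN0 r).trans ?_
      apply mul_le_mul_of_nonneg_right _ (by positivity)
      exact pow_le_pow_right₀ (by norm_num) (Nat.sub_le _ _)
    calc ((r : ℝ) + 1) * (D * (D + N) ^ r) ≤ (r + 1) * (D * (2 ^ r * (D ^ r + N ^ r))) := by gcongr
      _ = _ := by ring
  have h4 : ia d β * D ^ (r + 1) ≤ (LJ m J * p ^ 8) ^ (r + 1) * ia (η / p ^ (9 * m + 12)) β +
      (LJ m J * p ^ 6) ^ (r + 1) * ia d β := by
    rcases le_or_gt |β| (η / p ^ (9 * m + 12)) with hβ | hβ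
    · rw [ia_one hβ, mul_one]
      have h5 : D ^ (r + 1) ≤ (LJ m J * p ^ 8) ^ (r + 1) := pow_le_pow_left₀ hD0 (DF_all8 α hp hJ) _
      have h6 : ia d β * D ^ (r + 1) ≤ 1 * D ^ (r + 1) := mul_le_mul_of_nonneg_right (ia_le _ _) (by positivity)
      have h7 : 0 ≤ (LJ m J * p ^ 6) ^ (r + 1) * ia d β := by positivity
      linarith
    · rw [ia_zero hβ, mul_zero, zero_add, mul_comm]
      apply mul_le_mul_of_nonneg_right _ hi0
      apply pow_le_pow_left₀ hD0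
      have h7 : β ≠ 0 := by
        intro h8
        rw [h8, abs_zero] at hβ
        have : 0 < η / p ^ (9 * m + 12) := by positivity
        linarith
      apply DF_large6 _ hp hJ
      · rw [hα, abs_div, abs_of_pos hη]
        rw [div_lt_iff₀ (by positivity)] at hβ
        rw [div_mul_eq_mul_div, le_div_iff₀ hη]
        linarith
      · rw [hα]
        exact div_ne_zero h7 hη.ne'
  have h5 : ia d β * (D * N ^ r) ≤ (LJ m J * p ^ 8) * (2 * 2 ^ (m + 2) * ((3 : ℝ) ^ J) ^ r) *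
      (ia d β * (1 + |β| / (η / ((3 : ℝ) ^ J) ^ (m + 2)))⁻¹) := by
    have h6 := MF_pow1 (J := J) hr α
    have h7 : |α| * ((3 : ℝ) ^ J) ^ (m + 2) = |β| / (η / ((3 : ℝ) ^ J) ^ (m + 2)) := by
      rw [hα, abs_div, abs_of_pos hη]
      field_simp
    rw [h7] at h6
    have h8 := DF_all8 (m := m) α hp hJ
    have h9 : D * N ^ r ≤ (LJ m J * p ^ 8) * (2 * 2 ^ (m + 2) * ((3 : ℝ) ^ J) ^ r * (1 + |β| / (η / ((3 : ℝ) ^ J) ^ (m + 2)))⁻¹) :=
      mul_le_mul h8 h6 (by positivity) (by positivity)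
    calc ia d β * (D * N ^ r) ≤ ia d β * ((LJ m J * p ^ 8) * (2 * 2 ^ (m + 2) * ((3 : ℝ) ^ J) ^ r * (1 + |β| / (η / ((3 : ℝ) ^ J) ^ (m + 2)))⁻¹)) :=
          mul_le_mul_of_nonneg_left h9 hi0
      _ = _ := by ring
  have h6 : W β * ∫ ξ, dl (m + 2) J (r + 1) α ξ ∂(cube (r + 1)) ≤ 1 * ((r + 1) * 2 ^ r * (D ^ (r + 1) + D * N ^ r)) :=
    mul_le_mul hW1 h1 (integral_nonneg fun _ => dl_nonneg _ _ _ _ _) zero_le_one
  calc ia d β * (W β * ∫ ξ, dl (m + 2) J (r + 1) α ξ ∂(cube (r + 1))) ≤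
      ia d β * (1 * ((r + 1) * 2 ^ r * (D ^ (r + 1) + D * N ^ r))) := mul_le_mul_of_nonneg_left h6 hi0
    _ = (r + 1) * 2 ^ r * (ia d β * D ^ (r + 1) + ia d β * (D * N ^ r)) := by ring
    _ ≤ _ := by
        apply mul_le_mul_of_nonneg_left _ (by positivity)
        linarith

theorem E1_mean {m J r : ℕ} (hr : m + 2 ≤ r) {p : ℝ} (hp : 1 ≤ p) (hJ : (3 : ℝ) ^ J = p ^ 12) {η : ℝ} (hη : 0 < η) :
    ∫ ξ, E1 (m + 2) J (r + 1) η (η / p ^ (6 * (m + 2))) ξ ∂(cube (r + 1)) ≤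
      (r + 1) * 2 ^ r * ((LJ m J * p ^ 8) ^ (r + 1) * (2 * (η / p ^ (9 * m + 12)))
      + (LJ m J * p ^ 6) ^ (r + 1) * (2 * (η / p ^ (6 * (m + 2))))
      + (LJ m J * p ^ 8) * (2 * 2 ^ (m + 2) * ((3 : ℝ) ^ J) ^ r) *
        (2 * (η / ((3 : ℝ) ^ J) ^ (m + 2)) * (((m : ℝ) + 2) * (J + 1)))) := by
  have hp0 : 0 < p := by linarith
  have hL := LJ_ge m J
  set d := η / p ^ (6 * (m + 2)) with hd
  have hd0 : 0 < d := by positivity
  set c := η / ((3 : ℝ) ^ J) ^ (m + 2) with hc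
  have hc0 : 0 < c := by positivity
  have h1 : ∫ ξ, E1 (m + 2) J (r + 1) η d ξ ∂(cube (r + 1)) =
      ∫ β, ia d β * (W β * ∫ ξ, dl (m + 2) J (r + 1) (β / η) ξ ∂(cube (r + 1))) := by
    unfold E1
    rw [integral_integral_swap (f := fun (ξ : Fin (r + 1) → ℝ) (β : ℝ) => ia d β * (W β * dl (m + 2) J (r + 1) (β / η) ξ))
      (E1_int2 (m + 2) J (r + 1) η d)]
    simp_rw [integral_const_mul]
  rw [h1]
  have hi1 := ia_int (η / p ^ (9 * m + 12))
  have hi2 := ia_int d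
  have hi3 := ia_log (d := d) hc0
  have hint : Integrable (fun β : ℝ => ((r : ℝ) + 1) * 2 ^ r * ((LJ m J * p ^ 8) ^ (r + 1) * ia (η / p ^ (9 * m + 12)) β
      + (LJ m J * p ^ 6) ^ (r + 1) * ia d β
      + (LJ m J * p ^ 8) * (2 * 2 ^ (m + 2) * ((3 : ℝ) ^ J) ^ r) * (ia d β * (1 + |β| / c)⁻¹))) :=
    (((hi1.const_mul _).add (hi2.const_mul _)).add (hi3.const_mul _)).const_mul _
  refine (integral_mono_of_nonneg (Filter.Eventually.of_forall fun β => ?_) hint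
    (Filter.Eventually.of_forall fun β => dl_mean1 hr hp hJ hη β)).trans ?_
  · exact mul_nonneg (ia_nonneg _ _) (mul_nonneg (W_nonneg _) (integral_nonneg fun _ => dl_nonneg _ _ _ _ _))
  · rw [integral_const_mul]
    have e0 : ∫ β : ℝ, ((LJ m J * p ^ 8) ^ (r + 1) * ia (η / p ^ (9 * m + 12)) β
        + (LJ m J * p ^ 6) ^ (r + 1) * ia d β
        + (LJ m J * p ^ 8) * (2 * 2 ^ (m + 2) * ((3 : ℝ) ^ J) ^ r) * (ia d β * (1 + |β| / c)⁻¹)) =
        (∫ β : ℝ, ((LJ m J * p ^ 8) ^ (r + 1) * ia (η / p ^ (9 * m + 12)) β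
        + (LJ m J * p ^ 6) ^ (r + 1) * ia d β)) +
        ∫ β : ℝ, (LJ m J * p ^ 8) * (2 * 2 ^ (m + 2) * ((3 : ℝ) ^ J) ^ r) * (ia d β * (1 + |β| / c)⁻¹) :=
      integral_add ((hi1.const_mul _).add (hi2.const_mul _)) (hi3.const_mul _)
    rw [e0, integral_add (hi1.const_mul _) (hi2.const_mul _), integral_const_mul, integral_const_mul, integral_const_mul,
      ia_integral (by positivity), ia_integral hd0.le, ia_log_integral hc0 hd0.le]
    -- the logarithm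
    have h2 : Real.log (1 + d / c) ≤ ((m : ℝ) + 2) * (J + 1) := by
      have h3 : d / c = p ^ (6 * (m + 2)) := by
        rw [hd, hc, hJ, ← pow_mul]
        have : p ^ (12 * (m + 2)) = p ^ (6 * (m + 2)) * p ^ (6 * (m + 2)) := by rw [← pow_add]; congr 1; ring
        rw [this]
        field_simp
      have h4 : (1 : ℝ) ≤ p ^ (6 * (m + 2)) := one_le_pow₀ hp
      have h5 : 12 * Real.log p = J * Real.log 3 := by
        have := congrArg Real.log hJ
        rw [Real.log_pow, Real.log_pow] at this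
        push_cast at this
        linarith
      have h6 : Real.log 3 ≤ 2 := by
        have := Real.log_le_sub_one_of_pos (by norm_num : (0 : ℝ) < 3)
        linarith
      have h7 : Real.log 2 ≤ 1 := by have := Real.log_two_lt_d9; linarith
      have hJ0 : (0 : ℝ) ≤ J := Nat.cast_nonneg _
      have hm0 : (0 : ℝ) ≤ m := Nat.cast_nonneg _
      have h8 : Real.log p ≤ J / 6 := by nlinarith
      rw [h3]
      calc Real.log (1 + p ^ (6 * (m + 2))) ≤ Real.log (2 * p ^ (6 * (m + 2))) := Real.log_le_log (by positivity) (by linarith)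
        _ = Real.log 2 + (6 * (m + 2)) * Real.log p := by
            rw [Real.log_mul (by norm_num) (by positivity), Real.log_pow]
            push_cast; ring
        _ ≤ 1 + (6 * (m + 2)) * (J / 6) := by
            have : (6 * ((m : ℝ) + 2)) * Real.log p ≤ (6 * (m + 2)) * (J / 6) := mul_le_mul_of_nonneg_left h8 (by positivity)
            linarith
        _ ≤ _ := by nlinarith
    apply mul_le_mul_of_nonneg_left _ (by positivity)
    apply add_le_add (le_refl _)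
    apply mul_le_mul_of_nonneg_left _ (by positivity)
    exact mul_le_mul_of_nonneg_left h2 (by positivity)

/-- the constant -/
noncomputable def CF (m r : ℕ) : ℝ := (r + 1) * 2 ^ r * (4 + 4 * 2 ^ (m + 2) * (m + 2))

lemma CF_pos (m r : ℕ) : 0 < CF m r := by unfold CF; positivity

/-- the twelfth root -/
noncomputable def pp (J : ℕ) : ℝ := ((3 : ℝ) ^ J) ^ (1 / 12 : ℝ)

lemma pp_one (J : ℕ) : 1 ≤ pp J := Real.one_le_rpow (one_le_pow₀ (by norm_num)) (by norm_num)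

lemma pp_pow (J n : ℕ) : pp J ^ n = ((3 : ℝ) ^ J) ^ ((n : ℝ) / 12) := by
  unfold pp
  rw [← Real.rpow_natCast, ← Real.rpow_mul (by positivity)]
  congr 1
  ring

lemma pp_12 (J : ℕ) : (3 : ℝ) ^ J = pp J ^ 12 := by rw [pp_pow]; norm_num

/-- the limit of the small frequencies -/
noncomputable def dd (m J : ℕ) (η : ℝ) : ℝ := η / pp J ^ (6 * (m + 2))

theorem E1_ratio {m r : ℕ} (hm : 1 ≤ m) (hr : m + 2 ≤ r) (J : ℕ) {η : ℝ} (hη : 0 < η) :
    ∫ ξ, E1 (m + 2) J (r + 1) η (dd m J η) ξ ∂(cube (r + 1)) ≤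
      CF m r * (LJ m J ^ (r + 1) * ((J : ℝ) + 1)) * ((3 : ℝ) ^ J) ^ (-(1 / 12) : ℝ) * (η * ((3 : ℝ) ^ J) ^ ((r : ℝ) + 1 - (m + 2))) := by
  have h1 := E1_mean hr (pp_one J) (pp_12 J) hη
  set X : ℝ := (3 : ℝ) ^ J with hX
  have hX1 : 1 ≤ X := one_le_pow₀ (by norm_num)
  have hX0 : 0 < X := by linarith
  have hL := LJ_ge m J
  set L := LJ m J with hLd
  have hL1 : 1 ≤ L ^ (r + 1) := one_le_pow₀ (by linarith)
  have hm' : (1 : ℝ) ≤ m := by exact_mod_cast hm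
  have hr' : (m : ℝ) + 2 ≤ r := by exact_mod_cast hr
  have hJ0 : (0 : ℝ) ≤ J := Nat.cast_nonneg _
  set T : ℝ := X ^ (-(1 / 12) : ℝ) * (η * X ^ ((r : ℝ) + 1 - (m + 2))) with hT
  have hT0 : 0 < T := by positivity
  have hTe : T = η * X ^ (-(1 / 12) + ((r : ℝ) + 1 - (m + 2))) := by
    rw [hT, Real.rpow_add hX0]
    ring
  have hmono : ∀ {a : ℝ}, a ≤ -(1 / 12) + ((r : ℝ) + 1 - (m + 2)) → η * X ^ a ≤ T := by
    intro a ha
    rw [hTe]
    exact mul_le_mul_of_nonneg_left (Real.rpow_le_rpow_of_exponent_le hX1 ha) hη.le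
  have hp0 : 0 < pp J := lt_of_lt_of_le one_pos (pp_one J)
  have hS : L ^ (r + 1) ≤ L ^ (r + 1) * ((J : ℝ) + 1) := le_mul_of_one_le_right (by positivity) (by linarith)
  have t1 : (L * pp J ^ 8) ^ (r + 1) * (2 * (η / pp J ^ (9 * m + 12))) ≤ 2 * (L ^ (r + 1) * ((J : ℝ) + 1)) * T := by
    have e1 : (L * pp J ^ 8) ^ (r + 1) * (2 * (η / pp J ^ (9 * m + 12))) =
        2 * L ^ (r + 1) * (η * (pp J ^ (8 * (r + 1)) / pp J ^ (9 * m + 12))) := by
      rw [mul_pow, ← pow_mul]; ring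
    rw [e1]
    have e2 : η * (pp J ^ (8 * (r + 1)) / pp J ^ (9 * m + 12)) ≤ T := by
      rw [pp_pow, pp_pow, ← Real.rpow_sub hX0]
      apply hmono
      push_cast
      linarith
    exact mul_le_mul (by linarith) e2 (by positivity) (by positivity)
  have t2 : (L * pp J ^ 6) ^ (r + 1) * (2 * (η / pp J ^ (6 * (m + 2)))) ≤ 2 * (L ^ (r + 1) * ((J : ℝ) + 1)) * T := by
    have e1 : (L * pp J ^ 6) ^ (r + 1) * (2 * (η / pp J ^ (6 * (m + 2)))) =
        2 * L ^ (r + 1) * (η * (pp J ^ (6 * (r + 1)) / pp J ^ (6 * (m + 2)))) := by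
      rw [mul_pow, ← pow_mul]; ring
    rw [e1]
    have e2 : η * (pp J ^ (6 * (r + 1)) / pp J ^ (6 * (m + 2))) ≤ T := by
      rw [pp_pow, pp_pow, ← Real.rpow_sub hX0]
      apply hmono
      push_cast
      linarith
    exact mul_le_mul (by linarith) e2 (by positivity) (by positivity)
  have t3 : (L * pp J ^ 8) * (2 * 2 ^ (m + 2) * X ^ r) * (2 * (η / X ^ (m + 2)) * (((m : ℝ) + 2) * (J + 1))) ≤
      4 * 2 ^ (m + 2) * (m + 2) * (L ^ (r + 1) * ((J : ℝ) + 1)) * T := by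
    have e1 : (L * pp J ^ 8) * (2 * 2 ^ (m + 2) * X ^ r) * (2 * (η / X ^ (m + 2)) * (((m : ℝ) + 2) * (J + 1))) =
      4 * 2 ^ (m + 2) * (m + 2) * (L * ((J : ℝ) + 1)) * (η * (pp J ^ 8 * X ^ r / X ^ (m + 2))) := by ring
    rw [e1]
    have e2 : η * (pp J ^ 8 * X ^ r / X ^ (m + 2)) ≤ T := by
      rw [pp_pow, ← Real.rpow_natCast X r, ← Real.rpow_natCast X (m + 2), ← Real.rpow_add hX0, ← Real.rpow_sub hX0]
      apply hmono
      push_cast
      linarith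
    have e3 : L ≤ L ^ (r + 1) := by
      calc L = L ^ 1 := (pow_one L).symm
        _ ≤ L ^ (r + 1) := pow_le_pow_right₀ (by linarith) (by omega)
    have e4 : 4 * 2 ^ (m + 2) * ((m : ℝ) + 2) * (L * ((J : ℝ) + 1)) ≤ 4 * 2 ^ (m + 2) * (m + 2) * (L ^ (r + 1) * ((J : ℝ) + 1)) := by gcongr
    exact mul_le_mul e4 e2 (by positivity) (by positivity)
  refine h1.trans ?_
  calc (r + 1) * 2 ^ r * ((L * pp J ^ 8) ^ (r + 1) * (2 * (η / pp J ^ (9 * m + 12)))
      + (L * pp J ^ 6) ^ (r + 1) * (2 * (η / pp J ^ (6 * (m + 2))))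
      + (L * pp J ^ 8) * (2 * 2 ^ (m + 2) * X ^ r) * (2 * (η / X ^ (m + 2)) * (((m : ℝ) + 2) * (J + 1)))) ≤
      (r + 1) * 2 ^ r * (2 * (L ^ (r + 1) * ((J : ℝ) + 1)) * T + 2 * (L ^ (r + 1) * ((J : ℝ) + 1)) * T
        + 4 * 2 ^ (m + 2) * (m + 2) * (L ^ (r + 1) * ((J : ℝ) + 1)) * T) := by
        apply mul_le_mul_of_nonneg_left _ (by positivity)
        linarith
    _ = CF m r * (L ^ (r + 1) * ((J : ℝ) + 1)) * T := by unfold CF; ring
    _ = _ := by rw [hT]; ring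

end Pool.Agent.K7.H74.WS
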