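import Mathlib
import Pool.Agent.K7.H74.WS.SlC

set_option autoImplicit false

/-! Waring's problem with shifts, exceptional sets: duality. -/

namespace Pool.Agent.K7.H74.WS
open Finset MeasureTheory Complex

/-- the kernel of the large frequencies -/
noncomputable def gk (k J : ℕ) {s : ℕ} (η d : ℝ) (ξ : Fin s → ℝ) (β : ℝ) : ℂ :=
  ((1 - ia d β : ℝ) : ℂ) * ((W β : ℂ) * ((∏ i, SF k J (β / η) (ξ i)) - MF k J (β / η) ^ s))

/-- the contribution of the large frequencies -/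
noncomputable def D2 (k J : ℕ) {s : ℕ} (η d : ℝ) (ξ : Fin s → ℝ) (t : ℝ) : ℂ := ∫ β : ℝ, gk k J η d ξ β * e (-(β / η * t))

lemma pd_cont (k J : ℕ) {s : ℕ} (η : ℝ) (ξ : Fin s → ℝ) :
    Continuous fun β : ℝ => (∏ i, SF k J (β / η) (ξ i)) - MF k J (β / η) ^ s :=
  (continuous_finsetProd _ fun i _ => (SF_cont k J).comp ((continuous_id.div_const η).prodMk continuous_const)).sub
    (((MF_cont k J).comp (continuous_id.div_const η)).pow s)

lemma gk_meas (k J : ℕ) {s : ℕ} (η d : ℝ) (ξ : Fin s → ℝ) : Measurable (gk k J η d ξ) := by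
  unfold gk
  have h1 : Measurable fun β : ℝ => ((1 - ia d β : ℝ) : ℂ) := measurable_ofReal.comp (measurable_const.sub (ia_meas d))
  have h2 : Continuous fun β : ℝ => (W β : ℂ) * ((∏ i, SF k J (β / η) (ξ i)) - MF k J (β / η) ^ s) :=
    (continuous_ofReal.comp W_cont).mul (pd_cont k J η ξ)
  exact h1.mul h2.measurable

lemma gk_norm (k J : ℕ) {s : ℕ} (η d : ℝ) (ξ : Fin s → ℝ) (β : ℝ) :
    ‖gk k J η d ξ β‖ = (1 - ia d β) * (W β * dl k J s (β / η) ξ) := by
  unfold gk dl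
  rw [norm_mul, norm_mul, Complex.norm_of_nonneg (by have := ia_le d β; linarith), Complex.norm_of_nonneg (W_nonneg _)]

lemma gk_int (k J : ℕ) {s : ℕ} (η d : ℝ) (ξ : Fin s → ℝ) : Integrable (gk k J η d ξ) := by
  refine (W_int.const_mul (2 * ((3 : ℝ) ^ J) ^ s)).mono' (gk_meas _ _ _ _ _).aestronglyMeasurable
    (Filter.Eventually.of_forall fun β => ?_)
  rw [gk_norm]
  have h1 := ia_le d β
  have h2 := ia_nonneg d β
  have h3 : 0 ≤ W β * dl k J s (β / η) ξ := mul_nonneg (W_nonneg _) (dl_nonneg _ _ _ _ _)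
  calc (1 - ia d β) * (W β * dl k J s (β / η) ξ) ≤ 1 * (W β * dl k J s (β / η) ξ) := mul_le_mul_of_nonneg_right (by linarith) h3
    _ = dl k J s (β / η) ξ * W β := by ring
    _ ≤ _ := mul_le_mul_of_nonneg_right (dl_le _ _ _ _ _) (W_nonneg _)

lemma e_shift_cont (c : ℝ) : Continuous fun β : ℝ => e (β * c) := e_cont.comp (by fun_prop)

lemma mul_e_int {g : ℝ → ℂ} (hg : Integrable g) (η t : ℝ) : Integrable fun β : ℝ => g β * e (-(β / η * t)) := by
  have h2 : Continuous fun β : ℝ => e (-(β / η * t)) := e_cont.comp (by fun_prop)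
  refine hg.mono (hg.aestronglyMeasurable.mul h2.aestronglyMeasurable) (Filter.Eventually.of_forall fun β => ?_)
  rw [norm_mul, norm_e, mul_one]

/-- the unimodular factors -/
noncomputable def um (z : ℂ) : ℂ := (starRingEnd ℂ) z / (‖z‖ : ℂ)

lemma um_mul (z : ℂ) : um z * z = (‖z‖ : ℂ) := by
  unfold um
  rcases eq_or_ne z 0 with h | h
  · simp [h]
  · have h1 : (‖z‖ : ℂ) ≠ 0 := by exact_mod_cast norm_ne_zero_iff.2 h
    rw [div_mul_eq_mul_div, div_eq_iff h1, mul_comm, Complex.mul_conj, Complex.normSq_eq_norm_sq]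
    push_cast
    ring

lemma um_norm (z : ℂ) : ‖um z‖ ≤ 1 := by
  unfold um
  rw [norm_div, Complex.norm_conj, Complex.norm_of_nonneg (norm_nonneg _)]
  exact div_self_le_one _

/-- the trigonometric polynomial -/
noncomputable def tp (Z : Finset ℕ) (u : ℕ → ℂ) (η c : ℝ) (β : ℝ) : ℂ := ∑ n ∈ Z, u n * e (-(β / η * ((n : ℝ) + c)))

lemma tp_cont (Z : Finset ℕ) (u : ℕ → ℂ) (η c : ℝ) : Continuous (tp Z u η c) := by
  unfold tp
  exact continuous_finsetSum _ fun n _ => continuous_const.mul (e_cont.comp (by fun_prop))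

lemma tp_bound (Z : Finset ℕ) {u : ℕ → ℂ} (hu : ∀ n, ‖u n‖ ≤ 1) (η c β : ℝ) : ‖tp Z u η c β‖ ≤ Z.card := by
  unfold tp
  refine (norm_sum_le _ _).trans ?_
  have h1 : ∑ n ∈ Z, ‖u n * e (-(β / η * ((n : ℝ) + c)))‖ ≤ ∑ _n ∈ Z, (1 : ℝ) := sum_le_sum fun n _ => by
    rw [norm_mul, norm_e, mul_one]
    exact hu n
  rwa [sum_const, nsmul_eq_mul, mul_one] at h1

lemma tp_sq (Z : Finset ℕ) {u : ℕ → ℂ} (hu : ∀ n, ‖u n‖ ≤ 1) {η : ℝ} (hη : 0 < η) (hη1 : η ≤ 1) (c : ℝ) :
    ∫ β : ℝ, W β * ‖tp Z u η c β‖ ^ 2 ≤ Z.card := by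
  have h1 : ((∫ β : ℝ, W β * ‖tp Z u η c β‖ ^ 2 : ℝ) : ℂ) = ∑ n ∈ Z, u n * (starRingEnd ℂ) (u n) := by
    rw [← integral_complex_ofReal]
    have e1 : ∀ β : ℝ, ((W β * ‖tp Z u η c β‖ ^ 2 : ℝ) : ℂ) =
        ∑ n ∈ Z, ∑ n' ∈ Z, (u n * (starRingEnd ℂ) (u n')) * ((W β : ℂ) * e (β * (((n' : ℝ) - n) / η))) := by
      intro β
      have e2 : ((W β * ‖tp Z u η c β‖ ^ 2 : ℝ) : ℂ) = (W β : ℂ) * (tp Z u η c β * (starRingEnd ℂ) (tp Z u η c β)) := by
        rw [Complex.mul_conj, Complex.normSq_eq_norm_sq]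
        push_cast
        ring
      rw [e2]
      unfold tp
      rw [map_sum, sum_mul_sum, mul_sum]
      apply sum_congr rfl
      intro n _
      rw [mul_sum]
      apply sum_congr rfl
      intro n' _
      rw [map_mul, ← e_neg, neg_neg]
      have e3 : e (β * (((n' : ℝ) - n) / η)) = e (-(β / η * ((n : ℝ) + c))) * e (β / η * ((n' : ℝ) + c)) := by
        rw [← e_add]
        congr 1
        ring
      rw [e3]
      ring
    simp_rw [e1]
    rw [integral_finsetSum _ fun n _ => integrable_finsetSum _ fun n' _ => (We_int _).const_mul _]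
    apply sum_congr rfl
    intro n hn
    rw [integral_finsetSum _ fun n' _ => (We_int _).const_mul _]
    have e4 : ∀ n' ∈ Z, ∫ β : ℝ, (u n * (starRingEnd ℂ) (u n')) * ((W β : ℂ) * e (β * (((n' : ℝ) - n) / η))) =
        if n' = n then u n * (starRingEnd ℂ) (u n) else 0 := by
      intro n' _
      rw [integral_const_mul, ← w_eq]
      split_ifs with h
      · rw [h, sub_self, zero_div]
        have : w 0 = 1 := by unfold w; simp
        rw [this]
        simp
      · rw [w_zero]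
        · simp
        · rw [abs_div, abs_of_pos hη, le_div_iff₀ hη, one_mul]
          refine hη1.trans ?_
          have h2 : (1 : ℤ) ≤ |(n' : ℤ) - n| := Int.one_le_abs (by omega)
          exact_mod_cast h2
    rw [sum_congr rfl e4, sum_ite_eq' Z n, if_pos hn]
  have h2 : ∑ n ∈ Z, u n * (starRingEnd ℂ) (u n) = ((∑ n ∈ Z, ‖u n‖ ^ 2 : ℝ) : ℂ) := by
    push_cast
    apply sum_congr rfl
    intro n _
    rw [Complex.mul_conj, Complex.normSq_eq_norm_sq]
    push_cast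
    ring
  rw [h2] at h1
  have h3 : ∫ β : ℝ, W β * ‖tp Z u η c β‖ ^ 2 = ∑ n ∈ Z, ‖u n‖ ^ 2 := by exact_mod_cast h1
  rw [h3]
  have h4 : ∑ n ∈ Z, ‖u n‖ ^ 2 ≤ ∑ _n ∈ Z, (1 : ℝ) := sum_le_sum fun n _ => pow_le_one₀ (norm_nonneg _) (hu n)
  rwa [sum_const, nsmul_eq_mul, mul_one] at h4

lemma E2_int1 (k J s : ℕ) (η d : ℝ) (ξ : Fin s → ℝ) : Integrable fun β : ℝ => (1 - ia d β) * (W β * dl k J s (β / η) ξ ^ 2) := by
  refine (W_int.const_mul ((2 * ((3 : ℝ) ^ J) ^ s) ^ 2)).mono' ?_ (Filter.Eventually.of_forall fun β => ?_)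
  · have h4 : Continuous fun β : ℝ => dl k J s (β / η) ξ := dl_cont k J s (continuous_id.div_const η) continuous_const
    exact ((measurable_const.sub (ia_meas d)).mul (W_cont.mul (h4.pow 2)).measurable).aestronglyMeasurable
  · have h2 := ia_le d β
    have h3 := ia_nonneg d β
    have h4 : 0 ≤ W β * dl k J s (β / η) ξ ^ 2 := mul_nonneg (W_nonneg _) (sq_nonneg _)
    rw [Real.norm_of_nonneg (mul_nonneg (by linarith) h4)]
    calc (1 - ia d β) * (W β * dl k J s (β / η) ξ ^ 2) ≤ 1 * (W β * dl k J s (β / η) ξ ^ 2) :=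
          mul_le_mul_of_nonneg_right (by linarith) h4
      _ = dl k J s (β / η) ξ ^ 2 * W β := by ring
      _ ≤ (2 * ((3 : ℝ) ^ J) ^ s) ^ 2 * W β := by
          apply mul_le_mul_of_nonneg_right _ (W_nonneg _)
          exact pow_le_pow_left₀ (dl_nonneg _ _ _ _ _) (dl_le _ _ _ _ _) 2

/-- duality -/
theorem dual (k J : ℕ) {s : ℕ} {η : ℝ} (hη : 0 < η) (hη1 : η ≤ 1) (d : ℝ) (ξ : Fin s → ℝ) (Z : Finset ℕ) (c : ℝ)
    {l : ℝ} (hl : 0 < l) :
    ∑ n ∈ Z, ‖D2 k J η d ξ ((n : ℝ) + c)‖ ≤ (l * E2 k J s η d ξ + l⁻¹ * Z.card) / 2 := by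
  set u : ℕ → ℂ := fun n => um (D2 k J η d ξ ((n : ℝ) + c)) with hu
  have hu1 : ∀ n, ‖u n‖ ≤ 1 := fun n => um_norm _
  have hg := gk_int k J η d ξ
  have h1 : ((∑ n ∈ Z, ‖D2 k J η d ξ ((n : ℝ) + c)‖ : ℝ) : ℂ) = ∫ β : ℝ, gk k J η d ξ β * tp Z u η c β := by
    have e1 : ∀ β : ℝ, gk k J η d ξ β * tp Z u η c β = ∑ n ∈ Z, u n * (gk k J η d ξ β * e (-(β / η * ((n : ℝ) + c)))) := by
      intro β
      unfold tp
      rw [mul_sum]
      apply sum_congr rfl
      intro n _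
      ring
    simp_rw [e1]
    rw [integral_finsetSum _ fun n _ => (mul_e_int hg η _).const_mul _]
    push_cast
    apply sum_congr rfl
    intro n _
    rw [integral_const_mul, ← um_mul]
    rfl
  have h2 : ∑ n ∈ Z, ‖D2 k J η d ξ ((n : ℝ) + c)‖ = ‖((∑ n ∈ Z, ‖D2 k J η d ξ ((n : ℝ) + c)‖ : ℝ) : ℂ)‖ := by
    rw [Complex.norm_of_nonneg (sum_nonneg fun _ _ => norm_nonneg _)]
  rw [h2, h1]
  refine (norm_integral_le_integral_norm _).trans ?_
  have hW : Integrable fun β : ℝ => W β * ‖tp Z u η c β‖ ^ 2 := by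
    refine (W_int.const_mul ((Z.card : ℝ) ^ 2)).mono' (W_cont.mul ((tp_cont Z u η c).norm.pow 2)).aestronglyMeasurable
      (Filter.Eventually.of_forall fun β => ?_)
    rw [Real.norm_of_nonneg (mul_nonneg (W_nonneg _) (sq_nonneg _)), mul_comm]
    exact mul_le_mul_of_nonneg_right (pow_le_pow_left₀ (norm_nonneg _) (tp_bound Z hu1 η c β) 2) (W_nonneg _)
  have hE := E2_int1 k J s η d ξ
  have h3 : ∫ β : ℝ, ‖gk k J η d ξ β * tp Z u η c β‖ ≤
      ∫ β : ℝ, (l / 2 * ((1 - ia d β) * (W β * dl k J s (β / η) ξ ^ 2)) + l⁻¹ / 2 * (W β * ‖tp Z u η c β‖ ^ 2)) := by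
    apply integral_mono_of_nonneg (Filter.Eventually.of_forall fun β => norm_nonneg _)
      ((hE.const_mul _).add (hW.const_mul _))
    refine Filter.Eventually.of_forall fun β => ?_
    simp only
    rw [norm_mul, gk_norm]
    set a := dl k J s (β / η) ξ
    set b := ‖tp Z u η c β‖
    have hi1 := ia_le d β
    have hi0 := ia_nonneg d β
    have hW0 := W_nonneg β
    have h4 : a * b ≤ l / 2 * a ^ 2 + l⁻¹ / 2 * b ^ 2 := by
      have h5 : 0 ≤ (l * a - b) ^ 2 := sq_nonneg _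
      have h6 : l * (a * b) ≤ l * (l / 2 * a ^ 2 + l⁻¹ / 2 * b ^ 2) := by
        have : l * (l / 2 * a ^ 2 + l⁻¹ / 2 * b ^ 2) = l ^ 2 / 2 * a ^ 2 + b ^ 2 / 2 := by
          field_simp
        rw [this]
        nlinarith
      exact le_of_mul_le_mul_left h6 hl
    have h7 : 0 ≤ (1 - ia d β) * W β := mul_nonneg (by linarith) hW0
    have h8 := mul_le_mul_of_nonneg_left h4 h7
    have h9 : (1 - ia d β) * W β * (l⁻¹ / 2 * b ^ 2) ≤ 1 * W β * (l⁻¹ / 2 * b ^ 2) := by
      apply mul_le_mul_of_nonneg_right _ (by positivity)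
      exact mul_le_mul_of_nonneg_right (by linarith) hW0
    calc (1 - ia d β) * (W β * a) * b = (1 - ia d β) * W β * (a * b) := by ring
      _ ≤ (1 - ia d β) * W β * (l / 2 * a ^ 2 + l⁻¹ / 2 * b ^ 2) := h8
      _ = l / 2 * ((1 - ia d β) * (W β * a ^ 2)) + (1 - ia d β) * W β * (l⁻¹ / 2 * b ^ 2) := by ring
      _ ≤ l / 2 * ((1 - ia d β) * (W β * a ^ 2)) + 1 * W β * (l⁻¹ / 2 * b ^ 2) := by linarith
      _ = l / 2 * ((1 - ia d β) * (W β * a ^ 2)) + l⁻¹ / 2 * (W β * b ^ 2) := by ring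
  refine h3.trans ?_
  rw [integral_add (hE.const_mul _) (hW.const_mul _), integral_const_mul, integral_const_mul]
  have h4 := tp_sq Z hu1 hη hη1 c
  have h5 : l⁻¹ / 2 * ∫ β : ℝ, W β * ‖tp Z u η c β‖ ^ 2 ≤ l⁻¹ / 2 * Z.card := mul_le_mul_of_nonneg_left h4 (by positivity)
  have h6 : ∫ β : ℝ, (1 - ia d β) * (W β * dl k J s (β / η) ξ ^ 2) = E2 k J s η d ξ := rfl
  rw [h6]
  calc l / 2 * E2 k J s η d ξ + l⁻¹ / 2 * ∫ β : ℝ, W β * ‖tp Z u η c β‖ ^ 2 ≤ l / 2 * E2 k J s η d ξ + l⁻¹ / 2 * Z.card := by linarith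
    _ = _ := by ring

/-! ### the splitting -/

theorem RF_VF2 (k J s : ℕ) (η t d : ℝ) (ξ : Fin s → ℝ) :
    |RF k J s η t ξ - VF k J s η t| ≤ E1 k J s η d ξ + ‖D2 k J η d ξ t‖ := by
  have hbase : Integrable fun β : ℝ => (W β : ℂ) * (((∏ i, SF k J (β / η) (ξ i)) - MF k J (β / η) ^ s) * e (-(β / η * t))) := by
    refine (W_int.const_mul (2 * ((3 : ℝ) ^ J) ^ s)).mono' ?_ (Filter.Eventually.of_forall fun β => ?_)
    · have h1 : Continuous fun β : ℝ => (W β : ℂ) := continuous_ofReal.comp W_cont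
      have h2 : Continuous fun β : ℝ => e (-(β / η * t)) := e_cont.comp (by fun_prop)
      exact (h1.mul ((pd_cont k J η ξ).mul h2)).aestronglyMeasurable
    · rw [norm_mul, norm_mul, norm_e, mul_one, Complex.norm_of_nonneg (W_nonneg _), mul_comm]
      exact mul_le_mul_of_nonneg_right (dl_le k J s (β / η) ξ) (W_nonneg _)
  have h1 : ((RF k J s η t ξ - VF k J s η t : ℝ) : ℂ) =
      ∫ β : ℝ, (W β : ℂ) * (((∏ i, SF k J (β / η) (ξ i)) - MF k J (β / η) ^ s) * e (-(β / η * t))) := by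
    push_cast
    rw [RF_eq, VF_eq]
    rw [← integral_sub]
    · refine integral_congr_ae (Filter.Eventually.of_forall fun β => ?_)
      simp only
      ring
    · refine (W_int.const_mul (((3 : ℝ) ^ J) ^ s)).mono' ?_ (Filter.Eventually.of_forall fun β => ?_)
      · have h1 : Continuous fun β : ℝ => (W β : ℂ) := continuous_ofReal.comp W_cont
        have h2 : Continuous fun β : ℝ => e (-(β / η * t)) := e_cont.comp (by fun_prop)
        have h3 : Continuous fun β : ℝ => ∏ i, SF k J (β / η) (ξ i) := continuous_finsetProd _ fun i _ =>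
          (SF_cont k J).comp ((continuous_id.div_const η).prodMk continuous_const)
        exact (h1.mul (h3.mul h2)).aestronglyMeasurable
      · rw [norm_mul, norm_mul, norm_e, mul_one, Complex.norm_of_nonneg (W_nonneg _), mul_comm]
        apply mul_le_mul_of_nonneg_right _ (W_nonneg _)
        rw [norm_prod]
        have h1 : ∏ i : Fin s, ‖SF k J (β / η) (ξ i)‖ ≤ ∏ _i : Fin s, (3 : ℝ) ^ J :=
          prod_le_prod (fun i _ => norm_nonneg _) fun i _ => SF_le _ _ _ _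
        rwa [prod_const, card_univ, Fintype.card_fin] at h1
    · refine (W_int.const_mul (((3 : ℝ) ^ J) ^ s)).mono' ?_ (Filter.Eventually.of_forall fun β => ?_)
      · have h1 : Continuous fun β : ℝ => (W β : ℂ) := continuous_ofReal.comp W_cont
        have h2 : Continuous fun β : ℝ => e (-(β / η * t)) := e_cont.comp (by fun_prop)
        have h3 : Continuous fun β : ℝ => MF k J (β / η) ^ s := ((MF_cont k J).comp (continuous_id.div_const η)).pow s
        exact (h1.mul (h3.mul h2)).aestronglyMeasurable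
      · rw [norm_mul, norm_mul, norm_e, mul_one, Complex.norm_of_nonneg (W_nonneg _), mul_comm]
        apply mul_le_mul_of_nonneg_right _ (W_nonneg _)
        rw [norm_pow]
        exact pow_le_pow_left₀ (norm_nonneg _) (MF_le' _ _ _) _
  -- the two parts
  set g : ℝ → ℂ := fun β => (W β : ℂ) * (((∏ i, SF k J (β / η) (ξ i)) - MF k J (β / η) ^ s) * e (-(β / η * t))) with hg
  have hi1 : Integrable fun β : ℝ => ((ia d β : ℝ) : ℂ) * g β := by
    refine hbase.mono ((measurable_ofReal.comp (ia_meas d)).aestronglyMeasurable.mul hbase.aestronglyMeasurable)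
      (Filter.Eventually.of_forall fun β => ?_)
    rw [norm_mul, Complex.norm_of_nonneg (ia_nonneg _ _)]
    exact mul_le_of_le_one_left (norm_nonneg _) (ia_le _ _)
  have hi2 : Integrable fun β : ℝ => gk k J η d ξ β * e (-(β / η * t)) := mul_e_int (gk_int k J η d ξ) η t
  have h2 : ∫ β : ℝ, g β = (∫ β : ℝ, ((ia d β : ℝ) : ℂ) * g β) + D2 k J η d ξ t := by
    unfold D2
    rw [← integral_add hi1 hi2]
    refine integral_congr_ae (Filter.Eventually.of_forall fun β => ?_)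
    simp only [hg, gk]
    push_cast
    ring
  have h3 : |RF k J s η t ξ - VF k J s η t| = ‖((RF k J s η t ξ - VF k J s η t : ℝ) : ℂ)‖ := by
    rw [Complex.norm_real, Real.norm_eq_abs]
  rw [h3, h1, h2]
  refine (norm_add_le _ _).trans (add_le_add ?_ (le_refl _))
  refine (norm_integral_le_integral_norm _).trans (le_of_eq ?_)
  unfold E1 dl
  refine integral_congr_ae (Filter.Eventually.of_forall fun β => ?_)
  simp only [hg]
  rw [norm_mul, norm_mul, norm_mul, norm_e, mul_one, Complex.norm_of_nonneg (W_nonneg _), Complex.norm_of_nonneg (ia_nonneg _ _)]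

theorem windows2 (k J s : ℕ) {η : ℝ} (hη : 0 < η) (t d : ℝ) (N : ℕ) (ξ : Fin s → ℝ) :
    |∑ x ∈ box J s, tz N ((sp k ξ x - t) / η) - ∫ u, tz N (((∑ i, u i ^ k) - t) / η) ∂(bm J s)| ≤
      N * E1 k J s η d ξ + ∑ i ∈ range N, ‖D2 k J η d ξ (t + i * η)‖ := by
  have h1 : ∑ x ∈ box J s, tz N ((sp k ξ x - t) / η) = ∑ i ∈ range N, RF k J s η (t + i * η) ξ := by
    unfold RF
    rw [sum_comm]
    exact sum_congr rfl fun x _ => (tz_window N hη _ _).symm
  have h2 : ∫ u, tz N (((∑ i, u i ^ k) - t) / η) ∂(bm J s) = ∑ i ∈ range N, VF k J s η (t + i * η) := by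
    unfold VF
    rw [← integral_finsetSum]
    · refine integral_congr_ae (Filter.Eventually.of_forall fun u => ?_)
      exact (tz_window N hη _ _).symm
    · intro i _
      refine Integrable.of_bound (C := 1) ?_ (Filter.Eventually.of_forall fun u => ?_)
      · exact (w_cont.comp (by fun_prop)).aestronglyMeasurable
      · rw [Real.norm_of_nonneg (w_nonneg _)]
        exact w_le _
  rw [h1, h2, ← sum_sub_distrib]
  refine (abs_sum_le_sum_abs _ _).trans ?_
  refine (sum_le_sum (s := range N) fun (i : ℕ) _ => RF_VF2 k J s η (t + (i : ℝ) * η) d ξ).trans (le_of_eq ?_)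
  rw [sum_add_distrib, sum_const, card_range, nsmul_eq_mul]

end Pool.Agent.K7.H74.WS
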