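import Mathlib
import Pool.Agent.K7.H74.WS.SlD
import Pool.Agent.K7.H74.WS.Fin

set_option autoImplicit false

/-! Waring's problem with shifts, exceptional sets: one natural number. -/

namespace Pool.Agent.K7.H74.WS
open Finset MeasureTheory Filter

open Classical in
theorem count_lower2 {k J s : ℕ} (hk : 1 ≤ k) {η t : ℝ} (hη : 0 < η) (ht : 0 < t) {N : ℕ} (hN : 1 ≤ N)
    (hX : t + (N - 1) * η ≤ ((3 : ℝ) ^ J) ^ k) (ξ : Fin s → ℝ) {E : ℝ}
    (h1 : |∑ x ∈ box J s, tz N ((sp k ξ x - t) / η) - ∫ u, tz N (((∑ i, u i ^ k) - t) / η) ∂(bm J s)| ≤ E) :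
    Vs k s * ((t + (N - 1) * η) ^ ((s : ℝ) / k) - t ^ ((s : ℝ) / k)) - E ≤
      (((box J s).filter fun x => t - η < sp k ξ x ∧ sp k ξ x < t + N * η).card : ℝ) := by
  have hN1 : (1 : ℝ) ≤ N := by exact_mod_cast hN
  have hb : t ≤ t + (N - 1) * η := by nlinarith
  have h2 : ∑ x ∈ box J s, tz N ((sp k ξ x - t) / η) ≤
      (((box J s).filter fun x => t - η < sp k ξ x ∧ sp k ξ x < t + N * η).card : ℝ) := by
    rw [card_filter]
    push_cast
    apply sum_le_sum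
    intro x _
    split_ifs with h
    · exact_mod_cast tz_le _ _
    · apply le_of_eq
      by_cases h3 : t - η < sp k ξ x
      · have h4 : t + N * η ≤ sp k ξ x := by
          by_contra h5
          push Not at h5
          exact h ⟨h3, h5⟩
        rw [tz_zero_right]
        rw [le_div_iff₀ hη]; linarith
      · push Not at h3
        rw [tz_zero_left]
        rw [div_le_iff₀ hη]; linarith
  set A : Set (Fin s → ℝ) := {u | ∑ i, u i ^ k < t + (N - 1) * η} with hA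
  set B : Set (Fin s → ℝ) := {u | ∑ i, u i ^ k < t} with hB
  have hAm : MeasurableSet A := measurableSet_lt (by fun_prop) measurable_const
  have hBm : MeasurableSet B := measurableSet_lt (by fun_prop) measurable_const
  have hBA : B ⊆ A := fun u hu => lt_of_lt_of_le hu hb
  have hi : Integrable (fun u : Fin s → ℝ => tz N (((∑ i, u i ^ k) - t) / η)) (bm J s) := by
    refine Integrable.of_bound (C := 1) ?_ (Filter.Eventually.of_forall fun u => ?_)
    · exact ((tz_cont N).comp (by fun_prop)).aestronglyMeasurable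
    · rw [Real.norm_of_nonneg (tz_nonneg _ _)]
      exact tz_le _ _
  have h3 : (bm J s).real (A \ B) ≤ ∫ u, tz N (((∑ i, u i ^ k) - t) / η) ∂(bm J s) := by
    rw [← integral_indicator_one (hAm.diff hBm)]
    apply integral_mono ((integrable_const (1 : ℝ)).indicator (hAm.diff hBm)) hi
    intro u
    by_cases hu : u ∈ A \ B
    · rw [Set.indicator_of_mem hu]
      have h4 : ∑ i, u i ^ k < t + (N - 1) * η := hu.1
      have h5 : t ≤ ∑ i, u i ^ k := not_lt.1 hu.2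
      simp only
      rw [tz_one]
      · apply div_nonneg _ hη.le
        linarith
      · rw [div_le_iff₀ hη]
        linarith
    · rw [Set.indicator_of_notMem hu]
      exact tz_nonneg _ _
  have h4 : (bm J s).real (A \ B) = Vs k s * ((t + (N - 1) * η) ^ ((s : ℝ) / k) - t ^ ((s : ℝ) / k)) := by
    rw [measureReal_sdiff hBA hBm, GF_eq hk (by linarith) hX, GF_eq hk ht (hb.trans hX)]
    ring
  have h5 := abs_le.1 h1
  rw [← h4]
  linarith [h5.1]

open Classical in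
theorem count_upper2 {k J s : ℕ} (hk : 1 ≤ k) {η t : ℝ} (hη : 0 < η) (ht : 0 < t - η) {N : ℕ}
    (hX : t + N * η ≤ ((3 : ℝ) ^ J) ^ k) (ξ : Fin s → ℝ) {E : ℝ}
    (h1 : |∑ x ∈ box J s, tz N ((sp k ξ x - t) / η) - ∫ u, tz N (((∑ i, u i ^ k) - t) / η) ∂(bm J s)| ≤ E) :
    (((box J s).filter fun x => t ≤ sp k ξ x ∧ sp k ξ x ≤ t + (N - 1) * η).card : ℝ) ≤
    Vs k s * ((t + N * η) ^ ((s : ℝ) / k) - (t - η) ^ ((s : ℝ) / k)) + E := by
  have hN0 : (0 : ℝ) ≤ N := Nat.cast_nonneg _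
  have hb : t - η ≤ t + N * η := by nlinarith
  have h2 : (((box J s).filter fun x => t ≤ sp k ξ x ∧ sp k ξ x ≤ t + (N - 1) * η).card : ℝ) ≤
      ∑ x ∈ box J s, tz N ((sp k ξ x - t) / η) := by
    rw [card_filter]
    push_cast
    apply sum_le_sum
    intro x _
    split_ifs with h
    · rw [tz_one]
      · apply div_nonneg _ hη.le
        linarith [h.1]
      · rw [div_le_iff₀ hη]
        linarith [h.2]
    · exact_mod_cast tz_nonneg _ _
  set A : Set (Fin s → ℝ) := {u | ∑ i, u i ^ k < t + N * η} with hA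
  set B : Set (Fin s → ℝ) := {u | ∑ i, u i ^ k < t - η} with hB
  have hAm : MeasurableSet A := measurableSet_lt (by fun_prop) measurable_const
  have hBm : MeasurableSet B := measurableSet_lt (by fun_prop) measurable_const
  have hBA : B ⊆ A := fun u hu => lt_of_lt_of_le hu hb
  have hi : Integrable (fun u : Fin s → ℝ => tz N (((∑ i, u i ^ k) - t) / η)) (bm J s) := by
    refine Integrable.of_bound (C := 1) ?_ (Filter.Eventually.of_forall fun u => ?_)
    · exact ((tz_cont N).comp (by fun_prop)).aestronglyMeasurable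
    · rw [Real.norm_of_nonneg (tz_nonneg _ _)]
      exact tz_le _ _
  have h3 : ∫ u, tz N (((∑ i, u i ^ k) - t) / η) ∂(bm J s) ≤ (bm J s).real (A \ B) := by
    rw [← integral_indicator_one (hAm.diff hBm)]
    apply integral_mono hi ((integrable_const (1 : ℝ)).indicator (hAm.diff hBm))
    intro u
    by_cases hu : u ∈ A \ B
    · rw [Set.indicator_of_mem hu]
      exact tz_le _ _
    · rw [Set.indicator_of_notMem hu]
      apply le_of_eq
      by_cases h3 : u ∈ A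
      · have h6 : u ∈ B := by
          by_contra h7
          exact hu ⟨h3, h7⟩
        have h7 : ∑ i, u i ^ k < t - η := h6
        exact tz_zero_left (by rw [div_le_iff₀ hη]; linarith)
      · have h7 : t + N * η ≤ ∑ i, u i ^ k := not_lt.1 h3
        exact tz_zero_right (by rw [le_div_iff₀ hη]; linarith)
  have h4 : (bm J s).real (A \ B) = Vs k s * ((t + N * η) ^ ((s : ℝ) / k) - (t - η) ^ ((s : ℝ) / k)) := by
    rw [measureReal_sdiff hBA hBm, GF_eq hk (by linarith) hX, GF_eq hk ht (hb.trans hX)]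
    ring
  have h5 := abs_le.1 h1
  rw [← h4]
  linarith [h5.2]

/-- the number of representations of `n` -/
noncomputable def rn (k : ℕ) {s : ℕ} (ξ : Fin s → ℝ) (n : ℕ) : ℕ :=
  Nat.card {x : Fin s → ℕ // ⌊∑ i, ((x i : ℝ) + ξ i) ^ k⌋₊ = n}

lemma sp_nonneg {k s : ℕ} {ξ : Fin s → ℝ} (hξ : ∀ i, 0 ≤ ξ i) (x : Fin s → ℕ) : 0 ≤ sp k ξ x :=
  sum_nonneg fun i _ => pow_nonneg (add_nonneg (Nat.cast_nonneg _) (hξ i)) _

open Classical in
lemma rn_eq {k J s : ℕ} {ξ : Fin s → ℝ} (hξ : ∀ i, 0 ≤ ξ i) {n : ℕ} (h : (n : ℝ) + 1 ≤ ((3 : ℝ) ^ J) ^ k) :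
    rn k ξ n = ((box J s).filter fun x => (n : ℝ) ≤ sp k ξ x ∧ sp k ξ x < n + 1).card := by
  unfold rn
  apply Nat.subtype_card
  intro x
  rw [mem_filter]
  have h0 : ⌊∑ i, ((x i : ℝ) + ξ i) ^ k⌋₊ = n ↔ (n : ℝ) ≤ sp k ξ x ∧ sp k ξ x < n + 1 :=
    Nat.floor_eq_iff (sp_nonneg hξ x)
  rw [h0]
  constructor
  · exact fun h => h.2
  · intro hx
    refine ⟨?_, hx⟩
    unfold box
    rw [Fintype.mem_piFinset]
    intro i
    rw [mem_range]
    by_contra h1
    push Not at h1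
    have h2 : ((3 : ℝ) ^ J) ≤ (x i : ℝ) + ξ i := by
      have h3 : (((3 ^ J : ℕ) : ℝ)) ≤ (x i : ℝ) := by exact_mod_cast h1
      push_cast at h3
      linarith [hξ i]
    have h3 : ((3 : ℝ) ^ J) ^ k ≤ ((x i : ℝ) + ξ i) ^ k := pow_le_pow_left₀ (by positivity) h2 _
    have h4 : ((x i : ℝ) + ξ i) ^ k ≤ sp k ξ x :=
      single_le_sum (f := fun i => ((x i : ℝ) + ξ i) ^ k) (fun j _ => pow_nonneg (add_nonneg (Nat.cast_nonneg _) (hξ j)) _) (mem_univ i)
    linarith [hx.2]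

/-- the number of windows -/
noncomputable def NW (h : ℝ) : ℕ := ⌈1 / h⌉₊ + 1

lemma NW_le {h : ℝ} (hh : 0 < h) : (NW h : ℝ) * h ≤ 1 + 2 * h := by
  unfold NW
  have h1 : (⌈1 / h⌉₊ : ℝ) < 1 / h + 1 := Nat.ceil_lt_add_one (by positivity)
  have h2 := mul_lt_mul_of_pos_right h1 hh
  have h3 : (1 / h + 1) * h = 1 + h := by field_simp
  rw [h3] at h2
  push_cast
  linarith

lemma NW_ge {h : ℝ} (hh : 0 < h) : 1 ≤ ((NW h : ℝ) - 1) * h := by
  unfold NW
  have h1 : 1 / h ≤ (⌈1 / h⌉₊ : ℝ) := Nat.le_ceil _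
  rw [div_le_iff₀ hh] at h1
  push_cast
  linarith

lemma NW_pos (h : ℝ) : 0 < (NW h : ℝ) := by unfold NW; positivity

/-- the error from the large frequencies at `n` -/
noncomputable def fl (k J : ℕ) {s : ℕ} (h d : ℝ) (ξ : Fin s → ℝ) (n : ℕ) : ℝ :=
  ∑ i ∈ range (NW h), ‖D2 k J h d ξ ((n : ℝ) + i * h)‖

/-- the lower bound at one natural number -/
theorem nat_lower {k J s : ℕ} (hk : 1 ≤ k) (hρ : 1 ≤ (s : ℝ) / k) {ξ : Fin s → ℝ} (hξ : ∀ i, 0 ≤ ξ i)
    {h d B : ℝ} (hh : 0 < h) (hh4 : h ≤ 1 / 4) {n : ℕ} (hn : 1 ≤ n)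
    (hX : 2 * (n : ℝ) ≤ ((3 : ℝ) ^ J) ^ k)
    (hE : NW h * E1 k J s h d ξ + fl k J h d ξ n ≤ B) :
    Vs k s * ((s : ℝ) / k) * (1 - 3 * h) * (n : ℝ) ^ ((s : ℝ) / k - 1) - B ≤ rn k ξ n := by
  classical
  have hn1 : (1 : ℝ) ≤ n := by exact_mod_cast hn
  set ρ : ℝ := (s : ℝ) / k with hρd
  have hV := Vs_pos hk s
  -- the number of windows
  set F : ℕ := ⌊1 / h⌋₊ with hF
  have hF1 : (F : ℝ) ≤ 1 / h := Nat.floor_le (by positivity)
  have hF2 : 1 / h < F + 1 := Nat.lt_floor_add_one _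
  have hF3 : 4 ≤ 1 / h := by rw [le_div_iff₀ hh]; linarith
  have hF4 : (3 : ℝ) < F := by linarith
  have hF5 : 3 < F := by exact_mod_cast hF4
  obtain ⟨N, hN⟩ : ∃ N, F = N + 1 := ⟨F - 1, by omega⟩
  have hN1 : 1 ≤ N := by omega
  have hNF : (F : ℝ) = N + 1 := by rw [hN]; push_cast; ring
  have hNW : N + 1 ≤ NW h := by
    rw [← hN]
    unfold NW
    have : (F : ℝ) ≤ (⌈1 / h⌉₊ : ℝ) := hF1.trans (Nat.le_ceil _)
    have : F ≤ ⌈1 / h⌉₊ := by exact_mod_cast this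
    omega
  rw [hNF] at hF1 hF2
  rw [le_div_iff₀ hh] at hF1
  rw [div_lt_iff₀ hh] at hF2
  have hN0 : (1 : ℝ) ≤ N := by exact_mod_cast hN1
  have ht : 0 < (n : ℝ) + h := by linarith
  have h0 := windows2 k J s hh ((n : ℝ) + h) d N ξ
  have hE2 : N * E1 k J s h d ξ + ∑ i ∈ range N, ‖D2 k J h d ξ ((n : ℝ) + h + i * h)‖ ≤ B := by
    refine le_trans ?_ hE
    apply add_le_add
    · apply mul_le_mul_of_nonneg_right _ (E1_nonneg _ _ _ _ _ _)
      have : N ≤ NW h := by omega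
      exact_mod_cast this
    · unfold fl
      have e1 : ∑ i ∈ range N, ‖D2 k J h d ξ ((n : ℝ) + h + i * h)‖ = ∑ i ∈ Ico 1 (N + 1), ‖D2 k J h d ξ ((n : ℝ) + i * h)‖ := by
        rw [sum_Ico_eq_sum_range]
        simp only [Nat.add_sub_cancel]
        apply sum_congr rfl
        intro i _
        congr 2
        push_cast
        ring
      rw [e1]
      apply sum_le_sum_of_subset_of_nonneg
      · intro i hi
        rw [mem_Ico] at hi
        rw [mem_range]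
        omega
      · intro _ _ _
        exact norm_nonneg _
  have h1 := count_lower2 (k := k) (J := J) (s := s) hk hh ht hN1 (by nlinarith) ξ (h0.trans hE2)
  -- the count
  have h2 : (((box J s).filter fun x => (n : ℝ) + h - h < sp k ξ x ∧ sp k ξ x < (n : ℝ) + h + N * h).card : ℝ) ≤ rn k ξ n := by
    rw [rn_eq hξ (by linarith : (n : ℝ) + 1 ≤ ((3 : ℝ) ^ J) ^ k)]
    exact Nat.cast_le.2 (card_le_card (monotone_filter_right _ fun x _ hx => by
      constructor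
      · linarith [hx.1]
      · have := hx.2
        nlinarith))
  -- the main term
  have h3 := bern_lower (a := (n : ℝ) + h) (b := (n : ℝ) + h + (N - 1) * h) ht (by nlinarith) hρ
  have h4 : (n : ℝ) ^ (ρ - 1) ≤ ((n : ℝ) + h) ^ (ρ - 1) := Real.rpow_le_rpow (by linarith) (by linarith) (by linarith)
  have h5 : 1 - 3 * h ≤ (N - 1) * h := by nlinarith
  have h7 : 0 < (n : ℝ) ^ (ρ - 1) := Real.rpow_pos_of_pos (by linarith) _
  have h8 : ρ * (n : ℝ) ^ (ρ - 1) * (1 - 3 * h) ≤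
      ρ * ((n : ℝ) + h) ^ (ρ - 1) * ((n : ℝ) + h + (N - 1) * h - ((n : ℝ) + h)) := by
    have e1 : (n : ℝ) + h + (N - 1) * h - ((n : ℝ) + h) = (N - 1) * h := by ring
    rw [e1]
    apply mul_le_mul _ h5 _ _
    · exact mul_le_mul_of_nonneg_left h4 (by linarith)
    · linarith
    · exact mul_nonneg (by linarith) (Real.rpow_nonneg ht.le _)
  have h9 := mul_le_mul_of_nonneg_left (h8.trans h3) hV.le
  calc Vs k s * ρ * (1 - 3 * h) * (n : ℝ) ^ (ρ - 1) - B = Vs k s * (ρ * (n : ℝ) ^ (ρ - 1) * (1 - 3 * h)) - B := by ring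
    _ ≤ Vs k s * (((n : ℝ) + h + (N - 1) * h) ^ ρ - ((n : ℝ) + h) ^ ρ) - B := by linarith
    _ ≤ _ := h1.trans h2

/-- the upper bound at one natural number -/
theorem nat_upper {k J s : ℕ} (hk : 1 ≤ k) (hρ : 1 ≤ (s : ℝ) / k) {ξ : Fin s → ℝ} (hξ : ∀ i, 0 ≤ ξ i)
    {h d B δ : ℝ} (hh : 0 < h) (hh4 : h ≤ 1 / 4) {n : ℕ} (hδn : 1 ≤ δ * n) (hn : 2 ≤ n)
    (hX : 2 * (n : ℝ) ≤ ((3 : ℝ) ^ J) ^ k)
    (hE : NW h * E1 k J s h d ξ + fl k J h d ξ n ≤ B) :
    (rn k ξ n : ℝ) ≤ Vs k s * ((s : ℝ) / k) * ((1 + 2 * δ) ^ ((s : ℝ) / k - 1) * (1 + 3 * h)) * (n : ℝ) ^ ((s : ℝ) / k - 1) + B := by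
  classical
  have hn1 : (2 : ℝ) ≤ n := by exact_mod_cast hn
  have hδ0 : 0 < δ := by
    by_contra h1
    push Not at h1
    nlinarith
  set ρ : ℝ := (s : ℝ) / k with hρd
  have hV := Vs_pos hk s
  have hN1 := NW_le hh
  have hN2 := NW_ge hh
  have hN0 := NW_pos h
  set N := NW h with hN
  have ht : 0 < (n : ℝ) - h := by linarith
  have h0 := windows2 k J s hh (n : ℝ) d N ξ
  have h1 := count_upper2 (k := k) (J := J) (s := s) hk hh (t := (n : ℝ)) ht (N := N) (by nlinarith) ξ (h0.trans hE)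
  -- the count
  have h2 : (rn k ξ n : ℝ) ≤ (((box J s).filter fun x => (n : ℝ) ≤ sp k ξ x ∧ sp k ξ x ≤ (n : ℝ) + (N - 1) * h).card : ℝ) := by
    rw [rn_eq hξ (by linarith : (n : ℝ) + 1 ≤ ((3 : ℝ) ^ J) ^ k)]
    exact Nat.cast_le.2 (card_le_card (monotone_filter_right _ fun x _ hx => by
      constructor
      · exact hx.1
      · have := hx.2
        linarith))
  -- the main term
  have h3 := bern_upper (a := (n : ℝ) - h) (b := (n : ℝ) + N * h) ht (by nlinarith) hρ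
  have h4 : ((n : ℝ) + N * h) ^ (ρ - 1) ≤ ((n : ℝ) * (1 + 2 * δ)) ^ (ρ - 1) := by
    apply Real.rpow_le_rpow (by nlinarith) _ (by linarith)
    nlinarith
  rw [Real.mul_rpow (by linarith) (by linarith)] at h4
  have h5 : (N + 1) * h ≤ 1 + 3 * h := by linarith
  have h6 : 0 ≤ (1 + 2 * δ) ^ (ρ - 1) := Real.rpow_nonneg (by linarith) _
  have h7 : 0 < (n : ℝ) ^ (ρ - 1) := Real.rpow_pos_of_pos (by linarith) _
  have h8 : ρ * ((n : ℝ) + N * h) ^ (ρ - 1) * ((n : ℝ) + N * h - ((n : ℝ) - h)) ≤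
      ρ * ((n : ℝ) ^ (ρ - 1) * (1 + 2 * δ) ^ (ρ - 1)) * (1 + 3 * h) := by
    have e1 : (n : ℝ) + N * h - ((n : ℝ) - h) = (N + 1) * h := by ring
    rw [e1]
    apply mul_le_mul _ h5 (by positivity) (by positivity)
    exact mul_le_mul_of_nonneg_left h4 (by linarith)
  have h9 := mul_le_mul_of_nonneg_left (h3.trans h8) hV.le
  calc (rn k ξ n : ℝ) ≤ _ := h2
    _ ≤ _ := h1
    _ ≤ Vs k s * (ρ * ((n : ℝ) ^ (ρ - 1) * (1 + 2 * δ) ^ (ρ - 1)) * (1 + 3 * h)) + B := by linarith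
    _ = _ := by ring

/-- few exceptions -/
theorem bad_card {k J s : ℕ} {h d : ℝ} (hh : 0 < h) (hh1 : h ≤ 1) (ξ : Fin s → ℝ) {l : ℝ} (hl : 0 < l) (Z : Finset ℕ)
    (hZ : ∀ n ∈ Z, NW h * l ≤ fl k J h d ξ n) : (Z.card : ℝ) ≤ E2 k J s h d ξ / l ^ 2 := by
  have hN0 := NW_pos h
  have h1 : (Z.card : ℝ) * (NW h * l) ≤ ∑ n ∈ Z, fl k J h d ξ n := by
    have := card_nsmul_le_sum Z (fun n => fl k J h d ξ n) _ hZ
    rwa [nsmul_eq_mul] at this
  have h2 : ∑ n ∈ Z, fl k J h d ξ n ≤ NW h * ((l⁻¹ * E2 k J s h d ξ + l * Z.card) / 2) := by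
    unfold fl
    rw [sum_comm]
    have h3 : ∀ i ∈ range (NW h), ∑ n ∈ Z, ‖D2 k J h d ξ ((n : ℝ) + i * h)‖ ≤ (l⁻¹ * E2 k J s h d ξ + l * Z.card) / 2 := by
      intro i _
      have := dual k J hh hh1 d ξ Z (i * h) (inv_pos.2 hl)
      rwa [inv_inv] at this
    have h4 := sum_le_sum h3
    rwa [sum_const, card_range, nsmul_eq_mul] at h4
  have h3 : (Z.card : ℝ) * l ≤ (l⁻¹ * E2 k J s h d ξ + l * Z.card) / 2 := by
    have h4 : (NW h : ℝ) * ((Z.card : ℝ) * l) ≤ NW h * ((l⁻¹ * E2 k J s h d ξ + l * Z.card) / 2) := by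
      calc (NW h : ℝ) * ((Z.card : ℝ) * l) = (Z.card : ℝ) * (NW h * l) := by ring
        _ ≤ _ := h1.trans h2
    exact le_of_mul_le_mul_left h4 hN0
  rw [le_div_iff₀ (by positivity)]
  have h5 : (Z.card : ℝ) * l ≤ l⁻¹ * E2 k J s h d ξ := by linarith
  calc (Z.card : ℝ) * l ^ 2 = ((Z.card : ℝ) * l) * l := by ring
    _ ≤ (l⁻¹ * E2 k J s h d ξ) * l := mul_le_mul_of_nonneg_right h5 hl.le
    _ = _ := by field_simp

end Pool.Agent.K7.H74.WS
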