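import Mathlib
import Pool.Agent.K7.H74.WS.SlE

set_option autoImplicit false

/-! Waring's problem with shifts, exceptional sets: the number of exceptions. -/

namespace Pool.Agent.K7.H74.WS
open Finset MeasureTheory Filter

/-- Borel-Cantelli -/
theorem bc {s : ℕ} {f : ℕ → (Fin s → ℝ) → ℝ} (hf : ∀ J ξ, 0 ≤ f J ξ) (hi : ∀ J, Integrable (f J) (cube s))
    {a t : ℕ → ℝ} (ha : ∀ J, ∫ ξ, f J ξ ∂(cube s) ≤ a J) (ht : ∀ J, 0 < t J) (hs : Summable fun J => a J / t J) :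
    ∀ᵐ ξ ∂(cube s), ∀ᶠ J : ℕ in atTop, f J ξ < t J := by
  set B : ℕ → Set (Fin s → ℝ) := fun J => {ξ | t J ≤ f J ξ} with hB
  have h1 : ∀ J, cube s (B J) ≤ ENNReal.ofReal (a J / t J) := by
    intro J
    have h2 := mul_meas_ge_le_integral_of_nonneg (μ := cube s) (Eventually.of_forall fun ξ => hf J ξ) (hi J) (t J)
    have h4 : (cube s).real (B J) ≤ a J / t J := by
      rw [le_div_iff₀ (ht J), mul_comm]
      exact h2.trans (ha J)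
    rw [← ENNReal.ofReal_toReal (measure_ne_top (cube s) (B J))]
    exact ENNReal.ofReal_le_ofReal h4
  have h2 : (∑' J, cube s (B J)) ≠ ⊤ := ne_top_of_le_ne_top hs.tsum_ofReal_ne_top (ENNReal.tsum_le_tsum h1)
  filter_upwards [ae_eventually_notMem h2] with ξ hξ
  filter_upwards [hξ] with J hJ
  exact not_le.1 hJ

lemma pow_geo {ρ : ℝ} (hρ0 : 0 < ρ) (hρ1 : ρ < 1) (n : ℕ) : Summable fun J : ℕ => ((J : ℝ) + 1) ^ n * ρ ^ J := by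
  have h1 : Summable fun J : ℕ => (J : ℝ) ^ n * ρ ^ J :=
    summable_pow_mul_geometric_of_norm_lt_one _ (by rwa [Real.norm_of_nonneg hρ0.le])
  have h2 : Summable fun J : ℕ => ((J + 1 : ℕ) : ℝ) ^ n * ρ ^ (J + 1) := (summable_nat_add_iff 1).2 h1
  refine (h2.mul_left ρ⁻¹).congr fun J => ?_
  push_cast
  rw [pow_succ ρ J]
  field_simp

lemma X_pow (J : ℕ) (a : ℝ) : ((3 : ℝ) ^ J) ^ a = ((3 : ℝ) ^ a) ^ J := by
  rw [← Real.rpow_natCast, ← Real.rpow_mul (by norm_num), ← Real.rpow_natCast, ← Real.rpow_mul (by norm_num)]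
  congr 1
  ring

lemma summE1 (m r : ℕ) : Summable fun J : ℕ =>
    ((J : ℝ) + 1) * (CF m r * (LJ m J ^ (r + 1) * ((J : ℝ) + 1)) * ((3 : ℝ) ^ J) ^ (-(1 / 12) : ℝ)) := by
  set ρ : ℝ := (3 : ℝ) ^ (-(1 / 12) : ℝ) with hρ
  have hρ0 : 0 < ρ := Real.rpow_pos_of_pos (by norm_num) _
  have hρ1 : ρ < 1 := Real.rpow_lt_one_of_one_lt_of_neg (by norm_num) (by norm_num)
  have hC := CK_pos m
  have hCF := CF_pos m r
  have h3 := (pow_geo hρ0 hρ1 (2 * (r + 1) + 2)).mul_left (CF m r * (2 * CK m + 6) ^ (r + 1))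
  refine Summable.of_nonneg_of_le (fun J => ?_) (fun J => ?_) h3
  · have := LJ_pos m J
    positivity
  · rw [X_pow]
    have e2 : LJ m J ^ (r + 1) ≤ ((2 * CK m + 6) * ((J : ℝ) + 1) ^ 2) ^ (r + 1) :=
      pow_le_pow_left₀ (LJ_pos m J).le (LJ_le m J) _
    calc ((J : ℝ) + 1) * (CF m r * (LJ m J ^ (r + 1) * ((J : ℝ) + 1)) * ρ ^ J) ≤
        ((J : ℝ) + 1) * (CF m r * (((2 * CK m + 6) * ((J : ℝ) + 1) ^ 2) ^ (r + 1) * ((J : ℝ) + 1)) * ρ ^ J) := by gcongr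
      _ = _ := by
          rw [mul_pow, ← pow_mul, pow_succ ((J : ℝ) + 1) (2 * (r + 1) + 1), pow_succ ((J : ℝ) + 1) (2 * (r + 1))]
          ring

theorem ae_E1 {m r : ℕ} (hm : 1 ≤ m) (hr : m + 2 ≤ r) (θ : ℝ) :
    ∀ᵐ ξ ∂(cube (r + 1)), ∀ᶠ J : ℕ in atTop,
      E1 (m + 2) J (r + 1) (((3 : ℝ) ^ J) ^ (-θ)) (dd m J (((3 : ℝ) ^ J) ^ (-θ))) ξ <
      (((3 : ℝ) ^ J) ^ (-θ) * ((3 : ℝ) ^ J) ^ ((r : ℝ) + 1 - (m + 2))) / ((J : ℝ) + 1) := by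
  have h0 : ∀ J : ℕ, 0 < ((3 : ℝ) ^ J) ^ (-θ) := fun J => Real.rpow_pos_of_pos (by positivity) _
  have h1 : ∀ (J : ℕ) (ξ : Fin (r + 1) → ℝ), 0 ≤ E1 (m + 2) J (r + 1) (((3 : ℝ) ^ J) ^ (-θ)) (dd m J (((3 : ℝ) ^ J) ^ (-θ))) ξ :=
    fun J ξ => E1_nonneg (m + 2) J (r + 1) (((3 : ℝ) ^ J) ^ (-θ)) (dd m J (((3 : ℝ) ^ J) ^ (-θ))) ξ
  have h2 : ∀ J : ℕ, Integrable (E1 (m + 2) J (r + 1) (((3 : ℝ) ^ J) ^ (-θ)) (dd m J (((3 : ℝ) ^ J) ^ (-θ)))) (cube (r + 1)) :=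
    fun J => E1_meas (m + 2) J (r + 1) (((3 : ℝ) ^ J) ^ (-θ)) (dd m J (((3 : ℝ) ^ J) ^ (-θ)))
  have h3 : ∀ J : ℕ, ∫ ξ, E1 (m + 2) J (r + 1) (((3 : ℝ) ^ J) ^ (-θ)) (dd m J (((3 : ℝ) ^ J) ^ (-θ))) ξ ∂(cube (r + 1)) ≤
      CF m r * (LJ m J ^ (r + 1) * ((J : ℝ) + 1)) * ((3 : ℝ) ^ J) ^ (-(1 / 12) : ℝ) *
        (((3 : ℝ) ^ J) ^ (-θ) * ((3 : ℝ) ^ J) ^ ((r : ℝ) + 1 - (m + 2))) := fun J => E1_ratio hm hr J (h0 J)
  have h4 : ∀ J : ℕ, 0 < (((3 : ℝ) ^ J) ^ (-θ) * ((3 : ℝ) ^ J) ^ ((r : ℝ) + 1 - (m + 2))) / ((J : ℝ) + 1) := fun J => by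
    have := h0 J
    positivity
  have h5 : Summable fun J : ℕ => (CF m r * (LJ m J ^ (r + 1) * ((J : ℝ) + 1)) * ((3 : ℝ) ^ J) ^ (-(1 / 12) : ℝ) *
        (((3 : ℝ) ^ J) ^ (-θ) * ((3 : ℝ) ^ J) ^ ((r : ℝ) + 1 - (m + 2)))) /
        ((((3 : ℝ) ^ J) ^ (-θ) * ((3 : ℝ) ^ J) ^ ((r : ℝ) + 1 - (m + 2))) / ((J : ℝ) + 1)) := by
    refine (summE1 m r).congr fun J => ?_
    have h6 : (((3 : ℝ) ^ J) ^ (-θ) * ((3 : ℝ) ^ J) ^ ((r : ℝ) + 1 - (m + 2))) ≠ 0 := by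
      have := h0 J
      positivity
    have h7 : ((J : ℝ) + 1) ≠ 0 := by positivity
    generalize (((3 : ℝ) ^ J) ^ (-θ) * ((3 : ℝ) ^ J) ^ ((r : ℝ) + 1 - (m + 2))) = y at h6 ⊢
    field_simp
  exact bc h1 h2 h3 h4 h5

theorem ae_E2 {m s : ℕ} (θ : ℝ) :
    ∀ᵐ ξ ∂(cube s), ∀ᶠ J : ℕ in atTop,
      E2 (m + 2) J s (((3 : ℝ) ^ J) ^ (-θ)) (dd m J (((3 : ℝ) ^ J) ^ (-θ))) ξ <
      ((J : ℝ) + 1) ^ 2 * ((2 * LK m J) ^ (2 * s) * ((3 : ℝ) ^ J) ^ s) := by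
  have h0 : ∀ J : ℕ, 0 < ((3 : ℝ) ^ J) ^ (-θ) := fun J => Real.rpow_pos_of_pos (by positivity) _
  have hL : ∀ J, 0 < LK m J := fun J => lt_of_lt_of_le (by norm_num) (LK_ge m J)
  have h1 : ∀ (J : ℕ) (ξ : Fin s → ℝ), 0 ≤ E2 (m + 2) J s (((3 : ℝ) ^ J) ^ (-θ)) (dd m J (((3 : ℝ) ^ J) ^ (-θ))) ξ :=
    fun J ξ => E2_nonneg (m + 2) J s (((3 : ℝ) ^ J) ^ (-θ)) (dd m J (((3 : ℝ) ^ J) ^ (-θ))) ξ
  have h2 : ∀ J : ℕ, Integrable (E2 (m + 2) J s (((3 : ℝ) ^ J) ^ (-θ)) (dd m J (((3 : ℝ) ^ J) ^ (-θ)))) (cube s) :=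
    fun J => E2_meas (m + 2) J s (((3 : ℝ) ^ J) ^ (-θ)) (dd m J (((3 : ℝ) ^ J) ^ (-θ)))
  have h3 : ∀ J : ℕ, ∫ ξ, E2 (m + 2) J s (((3 : ℝ) ^ J) ^ (-θ)) (dd m J (((3 : ℝ) ^ J) ^ (-θ))) ξ ∂(cube s) ≤
      (2 * LK m J) ^ (2 * s) * ((3 : ℝ) ^ J) ^ s := fun J => by
    have h4 := E2_mean (m := m) (s := s) (pp_one J) (pp_12 J) (h0 J)
    have h5 : ((2 * LK m J * pp J ^ 6) ^ 2) ^ s = (2 * LK m J) ^ (2 * s) * ((3 : ℝ) ^ J) ^ s := by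
      rw [pp_12 J, ← pow_mul, mul_pow, ← pow_mul, ← pow_mul]
      congr 2
      ring
    rw [← h5]
    exact h4
  have h4 : ∀ J : ℕ, 0 < ((J : ℝ) + 1) ^ 2 * ((2 * LK m J) ^ (2 * s) * ((3 : ℝ) ^ J) ^ s) := fun J => by
    have := hL J
    positivity
  have h5 : Summable fun J : ℕ => ((2 * LK m J) ^ (2 * s) * ((3 : ℝ) ^ J) ^ s) /
      (((J : ℝ) + 1) ^ 2 * ((2 * LK m J) ^ (2 * s) * ((3 : ℝ) ^ J) ^ s)) := by
    have h1 : Summable fun J : ℕ => 1 / ((J + 1 : ℕ) : ℝ) ^ 2 :=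
      (summable_nat_add_iff 1).2 (Real.summable_one_div_nat_pow.2 (by norm_num))
    refine h1.congr fun J => ?_
    have h2 : (2 * LK m J) ^ (2 * s) * ((3 : ℝ) ^ J) ^ s ≠ 0 := by have := hL J; positivity
    have h3 : ((J : ℝ) + 1) ≠ 0 := by positivity
    generalize (2 * LK m J) ^ (2 * s) * ((3 : ℝ) ^ J) ^ s = y at h2 ⊢
    push_cast
    field_simp
  exact bc h1 h2 h3 h4 h5

lemma LK_le (m J : ℕ) : LK m J ≤ (2 * CK m + 6) * (J + 1) ^ 2 := by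
  unfold LK
  have hC := CK_pos m
  have hJ : (0 : ℝ) ≤ J := Nat.cast_nonneg _
  have h1 : (1 : ℝ) ≤ (J + 1) ^ 2 := one_le_pow₀ (by linarith)
  nlinarith

lemma LK_mono (m : ℕ) {J J' : ℕ} (h : J ≤ J') : LK m J ≤ LK m J' := by
  unfold LK
  have hC := CK_pos m
  have : (J : ℝ) ≤ J' := by exact_mod_cast h
  gcongr

/-- polynomials are small -/
lemma poly_small (m s : ℕ) {θ : ℝ} (hθ : 0 < θ) :
    ∃ C : ℝ, 0 < C ∧ ∀ J : ℕ, ((J : ℝ) + 1) ^ 3 * (2 * LK m J) ^ (2 * s) ≤ C * ((3 : ℝ) ^ J) ^ θ := by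
  set ρ : ℝ := (3 : ℝ) ^ (-θ) with hρ
  have hρ0 : 0 < ρ := Real.rpow_pos_of_pos (by norm_num) _
  have hρ1 : ρ < 1 := Real.rpow_lt_one_of_one_lt_of_neg (by norm_num) (by linarith)
  have hC := CK_pos m
  obtain ⟨B, hB⟩ := (pow_geo hρ0 hρ1 (4 * s + 3)).tendsto_atTop_zero.bddAbove_range
  have hB' : ∀ J : ℕ, ((J : ℝ) + 1) ^ (4 * s + 3) * ρ ^ J ≤ B := fun J => hB ⟨J, rfl⟩
  have hB0 : 0 < B := lt_of_lt_of_le (by positivity) (hB' 0)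
  refine ⟨(2 * (2 * CK m + 6)) ^ (2 * s) * B, by positivity, fun J => ?_⟩
  have hL : 0 < LK m J := lt_of_lt_of_le (by norm_num) (LK_ge m J)
  have h1 : ((3 : ℝ) ^ J) ^ θ * ρ ^ J = 1 := by
    rw [X_pow, hρ, ← mul_pow, ← Real.rpow_add (by norm_num), add_neg_cancel, Real.rpow_zero, one_pow]
  have h2 : 0 < ((3 : ℝ) ^ J) ^ θ := by positivity
  calc ((J : ℝ) + 1) ^ 3 * (2 * LK m J) ^ (2 * s) ≤
      ((J : ℝ) + 1) ^ 3 * (2 * ((2 * CK m + 6) * (J + 1) ^ 2)) ^ (2 * s) := by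
        have := LK_le m J
        gcongr
    _ = (2 * (2 * CK m + 6)) ^ (2 * s) * ((J : ℝ) + 1) ^ (4 * s + 3) := by
        rw [← mul_assoc 2 (2 * CK m + 6), mul_pow, ← pow_mul, pow_add]
        have : 2 * (2 * s) = 4 * s := by ring
        rw [this]
        ring
    _ = (2 * (2 * CK m + 6)) ^ (2 * s) * (((J : ℝ) + 1) ^ (4 * s + 3) * ρ ^ J) * ((3 : ℝ) ^ J) ^ θ := by
        have : (2 * (2 * CK m + 6)) ^ (2 * s) * (((J : ℝ) + 1) ^ (4 * s + 3) * ρ ^ J) * ((3 : ℝ) ^ J) ^ θ =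
          (2 * (2 * CK m + 6)) ^ (2 * s) * ((J : ℝ) + 1) ^ (4 * s + 3) * (((3 : ℝ) ^ J) ^ θ * ρ ^ J) := by ring
        rw [this, h1, mul_one]
    _ ≤ (2 * (2 * CK m + 6)) ^ (2 * s) * B * ((3 : ℝ) ^ J) ^ θ := by
        have := hB' J
        gcongr

lemma choose_delta2 (V c ρ : ℝ) {ε : ℝ} (hε : 0 < ε) : ∃ δ : ℝ, 0 < δ ∧ δ ≤ 1 / 4 ∧
    V - ε ≤ V * (1 - 3 * δ) - 4 * δ * c ∧
    V * ((1 + 2 * δ) ^ (ρ - 1) * (1 + 3 * δ)) + 4 * δ * c ≤ V + ε := by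
  have h1 : ContinuousAt (fun δ : ℝ => V * (1 - 3 * δ) - 4 * δ * c) 0 := by fun_prop
  have h2 : ContinuousAt (fun δ : ℝ => V * ((1 + 2 * δ) ^ (ρ - 1) * (1 + 3 * δ)) + 4 * δ * c) 0 := by
    have h2 : ContinuousAt (fun δ : ℝ => (1 + 2 * δ) ^ (ρ - 1)) 0 :=
      ContinuousAt.rpow_const (by fun_prop) (Or.inl (by norm_num))
    exact ((continuousAt_const.mul (h2.mul (by fun_prop))).add (by fun_prop))
  have e1 : V - ε < (fun δ : ℝ => V * (1 - 3 * δ) - 4 * δ * c) 0 := by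
    simp only [sub_zero, mul_zero, mul_one, zero_mul]
    linarith
  have e2 : (fun δ : ℝ => V * ((1 + 2 * δ) ^ (ρ - 1) * (1 + 3 * δ)) + 4 * δ * c) 0 < V + ε := by
    simp only [add_zero, mul_zero, Real.one_rpow, mul_one, zero_mul]
    linarith
  have h3 := (h1.eventually_const_lt e1).and (h2.eventually_lt_const e2)
  obtain ⟨a, ha, hb⟩ := Metric.eventually_nhds_iff.1 h3
  refine ⟨min (a / 2) (1 / 4), lt_min (by linarith) (by norm_num), min_le_right _ _, ?_⟩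
  have h4 : dist (min (a / 2) (1 / 4)) 0 < a := by
    rw [Real.dist_eq, sub_zero, abs_of_pos (lt_min (by linarith) (by norm_num))]
    exact lt_of_le_of_lt (min_le_left _ _) (by linarith)
  exact ⟨(hb h4).1.le, (hb h4).2.le⟩

open Classical in
/-- the number of exceptions, for a good shift and fixed `θ` -/
theorem exc {k s m : ℕ} (hk : 1 ≤ k) (hks : k ≤ s) (hs2 : s ≤ 2 * k) {ξ : Fin s → ℝ} (hξ : ∀ i, 0 ≤ ξ i)
    {θ : ℝ} (hθ : 0 < θ) (d : ℕ → ℝ)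
    (hE1 : ∀ᶠ J : ℕ in atTop, E1 k J s (((3 : ℝ) ^ J) ^ (-θ)) (d J) ξ <
      (((3 : ℝ) ^ J) ^ (-θ) * ((3 : ℝ) ^ J) ^ ((s : ℝ) - k)) / ((J : ℝ) + 1))
    (hE2 : ∀ᶠ J : ℕ in atTop, E2 k J s (((3 : ℝ) ^ J) ^ (-θ)) (d J) ξ <
      ((J : ℝ) + 1) ^ 2 * ((2 * LK m J) ^ (2 * s) * ((3 : ℝ) ^ J) ^ s)) {ε : ℝ} (hε : 0 < ε) :
    ∃ C : ℝ, 0 < C ∧ ∃ n₁ : ℕ, ∀ N : ℕ, 1 ≤ N →
      (((range (N + 1)).filter fun n => n₁ ≤ n ∧ ε * (n : ℝ) ^ ((s : ℝ) / k - 1) <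
        |(rn k ξ n : ℝ) - Vs k s * ((s : ℝ) / k) * (n : ℝ) ^ ((s : ℝ) / k - 1)|).card : ℝ) ≤
      C * (N : ℝ) ^ ((2 * (k : ℝ) - s + 3 * θ) / k) := by
  have hk1 : (1 : ℝ) ≤ k := by exact_mod_cast hk
  have hk0 : (0 : ℝ) < k := by linarith
  have hks' : (k : ℝ) ≤ s := by exact_mod_cast hks
  have hs2' : (s : ℝ) ≤ 2 * k := by exact_mod_cast hs2
  set ρ : ℝ := (s : ℝ) / k with hρd
  have hρ : 1 ≤ ρ := by rw [hρd, le_div_iff₀ hk0]; linarith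
  set c : ℝ := (2 * (3 : ℝ) ^ k) ^ (ρ - 1) with hc
  have hc0 : 0 < c := by positivity
  obtain ⟨δ, hδ0, hδ, hlow, hup⟩ := choose_delta2 (Vs k s * ρ) c ρ hε
  obtain ⟨J₁, hJ₁⟩ := eventually_atTop.1 hE1
  obtain ⟨J₂, hJ₂⟩ := eventually_atTop.1 hE2
  obtain ⟨J₃, hJ₃⟩ := exists_nat_gt (1 / δ)
  have hlim : Tendsto (fun J : ℕ => ((3 : ℝ) ^ J) ^ (-θ)) atTop (nhds 0) := by
    have h1 : Tendsto (fun J : ℕ => ((3 : ℝ) ^ (-θ)) ^ J) atTop (nhds 0) :=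
      tendsto_pow_atTop_nhds_zero_of_lt_one (by positivity) (Real.rpow_lt_one_of_one_lt_of_neg (by norm_num) (by linarith))
    exact h1.congr fun J => (X_pow J _).symm
  obtain ⟨J₄, hJ₄⟩ := eventually_atTop.1 (hlim.eventually_lt_const hδ0)
  obtain ⟨n₂, hn₂⟩ := exists_nat_gt (1 / δ)
  obtain ⟨CG, hCG0, hCG⟩ := poly_small m s hθ
  set Js : ℕ := max (max J₁ J₂) (max J₃ J₄) with hJs
  set b : ℕ := 3 ^ k with hb
  have hb1 : 1 < b := Nat.one_lt_pow (by omega) (by norm_num)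
  set n₁ : ℕ := max (max 2 n₂) (b ^ Js) with hn₁
  set ex : ℝ := (2 * (k : ℝ) - s + 3 * θ) / k with hex
  have hex0 : 0 ≤ ex := div_nonneg (by linarith) hk0.le
  -- the facts about one scale
  have hscale : ∀ J, Js ≤ J → ∀ n : ℕ, n₁ ≤ n → 2 * (n : ℝ) ≤ ((3 : ℝ) ^ J) ^ k → ((3 : ℝ) ^ J) ^ k ≤ 2 * (3 : ℝ) ^ k * n →
      fl k J (((3 : ℝ) ^ J) ^ (-θ)) (d J) ξ n < NW (((3 : ℝ) ^ J) ^ (-θ)) * (δ * (((3 : ℝ) ^ J) ^ (-θ) * ((3 : ℝ) ^ J) ^ ((s : ℝ) - k))) →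
      |(rn k ξ n : ℝ) - Vs k s * ρ * (n : ℝ) ^ (ρ - 1)| ≤ ε * (n : ℝ) ^ (ρ - 1) := by
    intro J hJ n hn hX1 hX2 hfl
    have hJ1 : J₁ ≤ J := (le_max_left _ _).trans ((le_max_left _ _).trans hJ)
    have hJ3 : J₃ ≤ J := (le_max_left _ _).trans ((le_max_right _ _).trans hJ)
    have hJ4 : J₄ ≤ J := (le_max_right _ _).trans ((le_max_right _ _).trans hJ)
    have hn2 : 2 ≤ n := (le_max_left _ _).trans ((le_max_left _ _).trans hn)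
    have hn3 : n₂ ≤ n := (le_max_right _ _).trans ((le_max_left _ _).trans hn)
    have hn2' : (2 : ℝ) ≤ n := by exact_mod_cast hn2
    have hn3' : (n₂ : ℝ) ≤ n := by exact_mod_cast hn3
    set X : ℝ := (3 : ℝ) ^ J with hX
    have hX0 : 0 < X := by positivity
    set h : ℝ := X ^ (-θ) with hh
    have hh0 : 0 < h := Real.rpow_pos_of_pos hX0 _
    have hhδ : h < δ := hJ₄ J hJ4
    have hNW := NW_le hh0
    have hNW0 := NW_pos h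
    have hXs : X ^ ((s : ℝ) - k) ≤ c * (n : ℝ) ^ (ρ - 1) := by
      have h1 : X ^ ((s : ℝ) - k) = (X ^ k) ^ (ρ - 1) := by
        rw [← Real.rpow_natCast X k, ← Real.rpow_mul hX0.le]
        congr 1
        rw [hρd]
        field_simp
      rw [h1, hc, ← Real.mul_rpow (by positivity) (by linarith)]
      exact Real.rpow_le_rpow (by positivity) hX2 (by linarith)
    have hE1J : E1 k J s h (d J) ξ ≤ δ * (h * X ^ ((s : ℝ) - k)) := by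
      refine (hJ₁ J hJ1).le.trans ?_
      have hJp : (0 : ℝ) < (J : ℝ) + 1 := by positivity
      rw [div_le_iff₀ hJp]
      have h1 : 1 ≤ δ * ((J : ℝ) + 1) := by
        rw [div_lt_iff₀ hδ0] at hJ₃
        have h2 : (J₃ : ℝ) ≤ J := by exact_mod_cast hJ3
        nlinarith
      have h3 : 0 ≤ h * X ^ ((s : ℝ) - k) := by positivity
      calc h * X ^ ((s : ℝ) - k) = 1 * (h * X ^ ((s : ℝ) - k)) := (one_mul _).symm
        _ ≤ (δ * ((J : ℝ) + 1)) * (h * X ^ ((s : ℝ) - k)) := mul_le_mul_of_nonneg_right h1 h3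
        _ = _ := by ring
    have hB : NW h * E1 k J s h (d J) ξ + fl k J h (d J) ξ n ≤ 4 * δ * c * (n : ℝ) ^ (ρ - 1) := by
      have h1 : NW h * E1 k J s h (d J) ξ ≤ NW h * (δ * (h * X ^ ((s : ℝ) - k))) := mul_le_mul_of_nonneg_left hE1J hNW0.le
      have h2 : (0 : ℝ) ≤ δ * X ^ ((s : ℝ) - k) := by positivity
      calc NW h * E1 k J s h (d J) ξ + fl k J h (d J) ξ n ≤ NW h * (δ * (h * X ^ ((s : ℝ) - k))) + NW h * (δ * (h * X ^ ((s : ℝ) - k))) :=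
            add_le_add h1 hfl.le
        _ = 2 * (NW h * h) * (δ * X ^ ((s : ℝ) - k)) := by ring
        _ ≤ 2 * 2 * (δ * X ^ ((s : ℝ) - k)) := by
            apply mul_le_mul_of_nonneg_right _ h2
            linarith
        _ = 4 * δ * X ^ ((s : ℝ) - k) := by ring
        _ ≤ 4 * δ * (c * (n : ℝ) ^ (ρ - 1)) := mul_le_mul_of_nonneg_left hXs (by positivity)
        _ = _ := by ring
    have hl := nat_lower hk hρ hξ hh0 (by linarith) (by omega) hX1 hB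
    have hu := nat_upper (δ := δ) hk hρ hξ hh0 (by linarith) (by
      rw [div_lt_iff₀ hδ0] at hn₂
      nlinarith) hn2 hX1 hB
    have hnp : 0 < (n : ℝ) ^ (ρ - 1) := Real.rpow_pos_of_pos (by linarith) _
    have hV : 0 < Vs k s * ρ := mul_pos (Vs_pos hk s) (by linarith)
    have hl1 : (Vs k s * ρ - ε) * (n : ℝ) ^ (ρ - 1) ≤ (Vs k s * ρ * (1 - 3 * δ) - 4 * δ * c) * (n : ℝ) ^ (ρ - 1) :=
      mul_le_mul_of_nonneg_right hlow hnp.le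
    have hl2 : Vs k s * ρ * (1 - 3 * δ) * (n : ℝ) ^ (ρ - 1) ≤ Vs k s * ρ * (1 - 3 * h) * (n : ℝ) ^ (ρ - 1) := by
      apply mul_le_mul_of_nonneg_right _ hnp.le
      apply mul_le_mul_of_nonneg_left _ hV.le
      linarith
    have hu1 : (Vs k s * ρ * ((1 + 2 * δ) ^ (ρ - 1) * (1 + 3 * δ)) + 4 * δ * c) * (n : ℝ) ^ (ρ - 1) ≤ (Vs k s * ρ + ε) * (n : ℝ) ^ (ρ - 1) :=
      mul_le_mul_of_nonneg_right hup hnp.le
    have hu2 : Vs k s * ρ * ((1 + 2 * δ) ^ (ρ - 1) * (1 + 3 * h)) * (n : ℝ) ^ (ρ - 1) ≤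
        Vs k s * ρ * ((1 + 2 * δ) ^ (ρ - 1) * (1 + 3 * δ)) * (n : ℝ) ^ (ρ - 1) := by
      apply mul_le_mul_of_nonneg_right _ hnp.le
      apply mul_le_mul_of_nonneg_left _ hV.le
      apply mul_le_mul_of_nonneg_left _ (Real.rpow_nonneg (by linarith) _)
      linarith
    rw [abs_le]
    constructor
    · linarith
    · linarith
  -- the constant
  refine ⟨δ⁻¹ ^ 2 * CG * (2 * (3 : ℝ) ^ k) ^ ex, by positivity, n₁, fun N hN => ?_⟩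
  have hN1 : (1 : ℝ) ≤ N := by exact_mod_cast hN
  set JN : ℕ := Nat.log b (2 * N) + 1 with hJN
  set lam : ℕ → ℝ := fun J => δ * (((3 : ℝ) ^ J) ^ (-θ) * ((3 : ℝ) ^ J) ^ ((s : ℝ) - k)) with hlam
  have hlam0 : ∀ J, 0 < lam J := fun J => by positivity
  set Z : ℕ → Finset ℕ := fun J => (range (N + 1)).filter fun n =>
    NW (((3 : ℝ) ^ J) ^ (-θ)) * lam J ≤ fl k J (((3 : ℝ) ^ J) ^ (-θ)) (d J) ξ n with hZ
  have hcast : ∀ J : ℕ, ((b ^ J : ℕ) : ℝ) = ((3 : ℝ) ^ J) ^ k := fun J => by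
    rw [hb]; push_cast; rw [← pow_mul, ← pow_mul, mul_comm]
  have hsub : ((range (N + 1)).filter fun n => n₁ ≤ n ∧ ε * (n : ℝ) ^ (ρ - 1) <
        |(rn k ξ n : ℝ) - Vs k s * ρ * (n : ℝ) ^ (ρ - 1)|) ⊆ (Icc Js JN).biUnion Z := by
    intro n hn
    rw [mem_filter, mem_range] at hn
    obtain ⟨hnN, hn1, hbad⟩ := hn
    have hn2 : 2 ≤ n := (le_max_left _ _).trans ((le_max_left _ _).trans hn1)
    have hn4 : b ^ Js ≤ n := (le_max_right _ _).trans hn1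
    set J : ℕ := Nat.log b (2 * n) + 1 with hJ
    have h1 : b ^ (J - 1) ≤ 2 * n := Nat.pow_log_le_self b (by omega)
    have h2 : 2 * n < b ^ J := Nat.lt_pow_succ_log_self hb1 _
    have h3 : Js ≤ J := by
      have : Js ≤ Nat.log b (2 * n) := Nat.le_log_of_pow_le hb1 (by omega)
      omega
    have h4 : J ≤ JN := Nat.add_le_add_right (Nat.log_mono_right (by omega)) 1
    rw [mem_biUnion]
    refine ⟨J, mem_Icc.2 ⟨h3, h4⟩, ?_⟩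
    rw [hZ, mem_filter, mem_range]
    refine ⟨hnN, ?_⟩
    by_contra h5
    push Not at h5
    have h6 : 2 * (n : ℝ) ≤ ((3 : ℝ) ^ J) ^ k := by
      rw [← hcast]
      exact_mod_cast h2.le
    have h7 : ((3 : ℝ) ^ J) ^ k ≤ 2 * (3 : ℝ) ^ k * n := by
      rw [← hcast]
      have h8 : b ^ J ≤ b * (2 * n) := by
        have : b ^ J = b * b ^ (J - 1) := by rw [← pow_succ']; congr 1
        rw [this]
        exact Nat.mul_le_mul_left b h1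
      have h9 : ((b ^ J : ℕ) : ℝ) ≤ ((b * (2 * n) : ℕ) : ℝ) := by exact_mod_cast h8
      refine h9.trans (le_of_eq ?_)
      rw [hb]; push_cast; ring
    exact absurd (hscale J h3 n hn1 h6 h7 h5) (not_le.2 hbad)
  have hZc : ∀ J ∈ Icc Js JN, ((Z J).card : ℝ) ≤ δ⁻¹ ^ 2 * (((JN : ℝ) + 1) ^ 2 * (2 * LK m JN) ^ (2 * s) * ((3 : ℝ) ^ JN) ^ (2 * (k : ℝ) - s + 2 * θ)) := by
    intro J hJ
    rw [mem_Icc] at hJ
    have hJ2 : J₂ ≤ J := (le_max_right _ _).trans ((le_max_left _ _).trans hJ.1)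
    have hJ4 : J₄ ≤ J := (le_max_right _ _).trans ((le_max_right _ _).trans hJ.1)
    set X : ℝ := (3 : ℝ) ^ J with hX
    have hX0 : 0 < X := by positivity
    have hh0 : 0 < X ^ (-θ) := Real.rpow_pos_of_pos hX0 _
    have hhδ : X ^ (-θ) < δ := hJ₄ J hJ4
    have hL0 : 0 < LK m J := lt_of_lt_of_le (by norm_num) (LK_ge m J)
    have h1 := bad_card (k := k) (J := J) (d := d J) hh0 (by linarith) ξ (hlam0 J) (Z J) (fun n hn => by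
      rw [hZ, mem_filter] at hn
      exact hn.2)
    refine h1.trans ?_
    rw [div_le_iff₀ (pow_pos (hlam0 J) 2)]
    refine (hJ₂ J hJ2).le.trans ?_
    have h2 : lam J ^ 2 = δ ^ 2 * X ^ (2 * ((s : ℝ) - k - θ)) := by
      simp only [hlam]
      rw [mul_pow, ← Real.rpow_add hX0, ← Real.rpow_natCast (X ^ _), ← Real.rpow_mul hX0.le]
      congr 2
      push_cast
      ring
    have h3 : X ^ (2 * (k : ℝ) - s + 2 * θ) * X ^ (2 * ((s : ℝ) - k - θ)) = X ^ s := by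
      rw [← Real.rpow_add hX0, ← Real.rpow_natCast X s]
      congr 1
      ring
    have hJJ : (J : ℝ) ≤ JN := by exact_mod_cast hJ.2
    have h4 : X ^ (2 * (k : ℝ) - s + 2 * θ) ≤ ((3 : ℝ) ^ JN) ^ (2 * (k : ℝ) - s + 2 * θ) := by
      apply Real.rpow_le_rpow hX0.le _ (by linarith)
      exact pow_le_pow_right₀ (by norm_num) hJ.2
    have h5 := LK_mono m hJ.2
    have hLN0 : 0 < LK m JN := lt_of_lt_of_le (by norm_num) (LK_ge m JN)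
    calc ((J : ℝ) + 1) ^ 2 * ((2 * LK m J) ^ (2 * s) * X ^ s) =
        δ⁻¹ ^ 2 * (((J : ℝ) + 1) ^ 2 * (2 * LK m J) ^ (2 * s) * X ^ (2 * (k : ℝ) - s + 2 * θ)) * (δ ^ 2 * X ^ (2 * ((s : ℝ) - k - θ))) := by
          have e1 : δ⁻¹ ^ 2 * (((J : ℝ) + 1) ^ 2 * (2 * LK m J) ^ (2 * s) * X ^ (2 * (k : ℝ) - s + 2 * θ)) * (δ ^ 2 * X ^ (2 * ((s : ℝ) - k - θ))) =
            (δ⁻¹ * δ) ^ 2 * (((J : ℝ) + 1) ^ 2 * (2 * LK m J) ^ (2 * s) * (X ^ (2 * (k : ℝ) - s + 2 * θ) * X ^ (2 * ((s : ℝ) - k - θ)))) := by ring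
          rw [e1, h3, inv_mul_cancel₀ hδ0.ne']
          ring
      _ ≤ δ⁻¹ ^ 2 * (((JN : ℝ) + 1) ^ 2 * (2 * LK m JN) ^ (2 * s) * ((3 : ℝ) ^ JN) ^ (2 * (k : ℝ) - s + 2 * θ)) * (δ ^ 2 * X ^ (2 * ((s : ℝ) - k - θ))) := by
          gcongr
      _ = _ := by rw [h2]
  have hXN0 : (0 : ℝ) < (3 : ℝ) ^ JN := by positivity
  have hcard : (((range (N + 1)).filter fun n => n₁ ≤ n ∧ ε * (n : ℝ) ^ (ρ - 1) <
        |(rn k ξ n : ℝ) - Vs k s * ρ * (n : ℝ) ^ (ρ - 1)|).card : ℝ) ≤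
      ((JN : ℝ) + 1) * (δ⁻¹ ^ 2 * (((JN : ℝ) + 1) ^ 2 * (2 * LK m JN) ^ (2 * s) * ((3 : ℝ) ^ JN) ^ (2 * (k : ℝ) - s + 2 * θ))) := by
    have h1 : ((((range (N + 1)).filter fun n => n₁ ≤ n ∧ ε * (n : ℝ) ^ (ρ - 1) <
        |(rn k ξ n : ℝ) - Vs k s * ρ * (n : ℝ) ^ (ρ - 1)|).card : ℕ) : ℝ) ≤ ∑ J ∈ Icc Js JN, ((Z J).card : ℝ) := by
      exact_mod_cast (card_le_card hsub).trans card_biUnion_le
    have hL0 : 0 < LK m JN := lt_of_lt_of_le (by norm_num) (LK_ge m JN)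
    refine h1.trans ((sum_le_sum hZc).trans ?_)
    rw [sum_const, nsmul_eq_mul]
    apply mul_le_mul_of_nonneg_right _ (by positivity)
    rw [Nat.card_Icc]
    have : JN + 1 - Js ≤ JN + 1 := Nat.sub_le _ _
    exact_mod_cast this
  refine hcard.trans ?_
  have h1 := hCG JN
  have h2 : ((3 : ℝ) ^ JN) ^ (2 * (k : ℝ) - s + 3 * θ) ≤ (2 * (3 : ℝ) ^ k) ^ ex * (N : ℝ) ^ ex := by
    have h3 : ((3 : ℝ) ^ JN) ^ (2 * (k : ℝ) - s + 3 * θ) = (((3 : ℝ) ^ JN) ^ k) ^ ex := by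
      rw [← Real.rpow_natCast ((3 : ℝ) ^ JN) k, ← Real.rpow_mul hXN0.le]
      congr 1
      rw [hex]
      field_simp
    rw [h3, ← Real.mul_rpow (by positivity) (by linarith)]
    apply Real.rpow_le_rpow (by positivity) _ hex0
    rw [← hcast]
    have h8 : b ^ JN ≤ b * (2 * N) := by
      have : b ^ JN = b * b ^ (JN - 1) := by rw [← pow_succ']; congr 1
      rw [this]
      exact Nat.mul_le_mul_left b (Nat.pow_log_le_self b (by omega))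
    have h9 : ((b ^ JN : ℕ) : ℝ) ≤ ((b * (2 * N) : ℕ) : ℝ) := by exact_mod_cast h8
    refine h9.trans (le_of_eq ?_)
    rw [hb]; push_cast; ring
  have h4 : ((3 : ℝ) ^ JN) ^ θ * ((3 : ℝ) ^ JN) ^ (2 * (k : ℝ) - s + 2 * θ) = ((3 : ℝ) ^ JN) ^ (2 * (k : ℝ) - s + 3 * θ) := by
    rw [← Real.rpow_add hXN0]
    congr 1
    ring
  have hLN0 : 0 < LK m JN := lt_of_lt_of_le (by norm_num) (LK_ge m JN)
  calc ((JN : ℝ) + 1) * (δ⁻¹ ^ 2 * (((JN : ℝ) + 1) ^ 2 * (2 * LK m JN) ^ (2 * s) * ((3 : ℝ) ^ JN) ^ (2 * (k : ℝ) - s + 2 * θ))) =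
      δ⁻¹ ^ 2 * ((((JN : ℝ) + 1) ^ 3 * (2 * LK m JN) ^ (2 * s)) * ((3 : ℝ) ^ JN) ^ (2 * (k : ℝ) - s + 2 * θ)) := by ring
    _ ≤ δ⁻¹ ^ 2 * ((CG * ((3 : ℝ) ^ JN) ^ θ) * ((3 : ℝ) ^ JN) ^ (2 * (k : ℝ) - s + 2 * θ)) := by gcongr
    _ = δ⁻¹ ^ 2 * CG * ((3 : ℝ) ^ JN) ^ (2 * (k : ℝ) - s + 3 * θ) := by rw [← h4]; ring
    _ ≤ δ⁻¹ ^ 2 * CG * ((2 * (3 : ℝ) ^ k) ^ ex * (N : ℝ) ^ ex) := by gcongr
    _ = _ := by ring

end Pool.Agent.K7.H74.WS
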