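import Mathlib
import Pool.Agent.K7.H74.WS.Fin

set_option autoImplicit false

/-! Waring's problem with shifts: the main theorem. -/

namespace Pool.Agent.K7.H74.WS
open Finset MeasureTheory Filter

/-- the choice of the parameter -/
lemma choose_delta (V c ρ : ℝ) {ε : ℝ} (hε : 0 < ε) : ∃ δ : ℝ, 0 < δ ∧ δ ≤ 1 / 4 ∧
    2 * V - ε ≤ 2 * V * ((1 - δ) ^ (ρ - 1) * (1 - 3 * δ / 2)) - 2 * δ * c ∧
    2 * V * ((1 + 3 * δ) ^ (ρ - 1) * (1 + 2 * δ)) + 4 * δ * c ≤ 2 * V + ε := by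
  have h1 : ContinuousAt (fun δ : ℝ => 2 * V * ((1 - δ) ^ (ρ - 1) * (1 - 3 * δ / 2)) - 2 * δ * c) 0 := by
    have h2 : ContinuousAt (fun δ : ℝ => (1 - δ) ^ (ρ - 1)) 0 :=
      ContinuousAt.rpow_const (by fun_prop) (Or.inl (by norm_num))
    exact ((continuousAt_const.mul (h2.mul (by fun_prop))).sub (by fun_prop))
  have h2 : ContinuousAt (fun δ : ℝ => 2 * V * ((1 + 3 * δ) ^ (ρ - 1) * (1 + 2 * δ)) + 4 * δ * c) 0 := by
    have h2 : ContinuousAt (fun δ : ℝ => (1 + 3 * δ) ^ (ρ - 1)) 0 :=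
      ContinuousAt.rpow_const (by fun_prop) (Or.inl (by norm_num))
    exact ((continuousAt_const.mul (h2.mul (by fun_prop))).add (by fun_prop))
  have e1 : 2 * V - ε < (fun δ : ℝ => 2 * V * ((1 - δ) ^ (ρ - 1) * (1 - 3 * δ / 2)) - 2 * δ * c) 0 := by
    simp only [sub_zero, mul_zero, zero_div, Real.one_rpow, mul_one, zero_mul]
    linarith
  have e2 : (fun δ : ℝ => 2 * V * ((1 + 3 * δ) ^ (ρ - 1) * (1 + 2 * δ)) + 4 * δ * c) 0 < 2 * V + ε := by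
    simp only [add_zero, mul_zero, Real.one_rpow, mul_one, zero_mul]
    linarith
  have h3 := (h1.eventually_const_lt e1).and (h2.eventually_lt_const e2)
  obtain ⟨a, ha, hb⟩ := Metric.eventually_nhds_iff.1 h3
  refine ⟨min (a / 2) (1 / 4), lt_min (by linarith) (by norm_num), min_le_right _ _, ?_⟩
  have h4 : dist (min (a / 2) (1 / 4)) 0 < a := by
    rw [Real.dist_eq, sub_zero, abs_of_pos (lt_min (by linarith) (by norm_num))]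
    exact lt_of_le_of_lt (min_le_left _ _) (by linarith)
  exact ⟨(hb h4).1.le, (hb h4).2.le⟩

/-- the asymptotic formula for a good shift -/
theorem det_final {k s : ℕ} (hk : 1 ≤ k) (hρ : 1 ≤ (s : ℝ) / k) {ξ : Fin s → ℝ} (hξ : ∀ i, 0 ≤ ξ i)
    {κ θ : ℝ} (hκ : 0 ≤ κ) (hθ : k * κ < θ)
    (hE : ∀ᶠ J : ℕ in atTop, Err k J s (((3 : ℝ) ^ J) ^ (-θ)) ξ <
      (((3 : ℝ) ^ J) ^ (-θ) * ((3 : ℝ) ^ J) ^ ((s : ℝ) - k)) / ((J : ℝ) + 1)) {ε : ℝ} (hε : 0 < ε) :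
    ∃ τ₀ : ℝ, ∀ τ η : ℝ, τ₀ ≤ τ → τ ^ (-κ) ≤ η → η ≤ 1 →
      |(cnt k ξ τ η : ℝ) - 2 * (Vs k s * ((s : ℝ) / k)) * (η * τ ^ ((s : ℝ) / k - 1))| ≤ ε * (η * τ ^ ((s : ℝ) / k - 1)) := by
  have hk1 : (1 : ℝ) ≤ k := by exact_mod_cast hk
  have hk0 : (0 : ℝ) < k := by linarith
  have hθ0 : 0 < θ := lt_of_le_of_lt (by positivity) hθ
  set ρ : ℝ := (s : ℝ) / k with hρd
  set c : ℝ := (2 * (3 : ℝ) ^ k) ^ (ρ - 1) with hc
  obtain ⟨δ, hδ0, hδ, hlow, hup⟩ := choose_delta (Vs k s * ρ) c ρ hε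
  obtain ⟨J₀, hJ₀⟩ := eventually_atTop.1 hE
  obtain ⟨J₁, hJ₁⟩ := exists_nat_gt (1 / δ)
  -- the power of `τ`
  have hneg : κ - θ / k < 0 := by
    have : κ < θ / k := by rw [lt_div_iff₀ hk0]; linarith
    linarith
  have hlim : Tendsto (fun τ : ℝ => τ ^ (κ - θ / k)) atTop (nhds 0) := by
    have := tendsto_rpow_neg_atTop (y := -(κ - θ / k)) (by linarith)
    simpa using this
  obtain ⟨τ₁, hτ₁⟩ := eventually_atTop.1 (hlim.eventually_lt_const hδ0)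
  refine ⟨max (max 1 τ₁) (max (1 / δ) (((3 : ℝ) ^ k) ^ (max J₀ J₁))), ?_⟩
  intro τ η hτ hη hη1
  have t1 : 1 ≤ τ := (le_max_left _ _).trans ((le_max_left _ _).trans hτ)
  have t2 : τ₁ ≤ τ := (le_max_right _ _).trans ((le_max_left _ _).trans hτ)
  have t3 : 1 / δ ≤ τ := (le_max_left _ _).trans ((le_max_right _ _).trans hτ)
  have t4 : ((3 : ℝ) ^ k) ^ (max J₀ J₁) ≤ τ := (le_max_right _ _).trans ((le_max_right _ _).trans hτ)
  have hτ0 : 0 < τ := by linarith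
  have h3k : (1 : ℝ) < (3 : ℝ) ^ k := one_lt_pow₀ (by norm_num) (by omega)
  obtain ⟨n, hn1, hn2⟩ := exists_nat_pow_near (by linarith : 1 ≤ 2 * τ) h3k
  set J := n + 1 with hJ
  have hJmax : max J₀ J₁ < J := by
    by_contra h1
    push Not at h1
    have h2 : ((3 : ℝ) ^ k) ^ J ≤ ((3 : ℝ) ^ k) ^ (max J₀ J₁) := pow_le_pow_right₀ h3k.le h1
    linarith
  have hJ0 : J₀ ≤ J := (le_max_left _ _).trans hJmax.le
  have hJ1 : J₁ ≤ J := (le_max_right _ _).trans hJmax.le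
  set X : ℝ := (3 : ℝ) ^ J with hX
  have hX1 : 1 ≤ X := one_le_pow₀ (by norm_num)
  have hX0 : 0 < X := by linarith
  have hXk : X ^ k = ((3 : ℝ) ^ k) ^ J := by rw [hX, ← pow_mul, ← pow_mul, mul_comm]
  have hXτ : 2 * τ ≤ X ^ k := by rw [hXk]; exact hn2.le
  have hXτ2 : X ^ k ≤ 2 * (3 : ℝ) ^ k * τ := by
    rw [hXk, hJ, pow_succ]
    nlinarith
  have hrk : X ^ (k : ℝ) = X ^ k := Real.rpow_natCast _ _
  -- the length of the windows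
  set h : ℝ := X ^ (-θ) with hh
  have hh0 : 0 < h := Real.rpow_pos_of_pos hX0 _
  have hhη : h ≤ δ * η := by
    have h1 : τ ^ (1 / (k : ℝ)) ≤ X := by
      have h2 : τ ≤ X ^ (k : ℝ) := by rw [hrk]; linarith
      calc τ ^ (1 / (k : ℝ)) ≤ (X ^ (k : ℝ)) ^ (1 / (k : ℝ)) := Real.rpow_le_rpow hτ0.le h2 (by positivity)
        _ = X := by rw [← Real.rpow_mul hX0.le, mul_one_div_cancel hk0.ne', Real.rpow_one]
    have h2 : X ^ (-θ) ≤ (τ ^ (1 / (k : ℝ))) ^ (-θ) :=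
      Real.rpow_le_rpow_of_nonpos (Real.rpow_pos_of_pos hτ0 _) h1 (by linarith)
    have h3 : (τ ^ (1 / (k : ℝ))) ^ (-θ) = τ ^ (κ - θ / k) * τ ^ (-κ) := by
      rw [← Real.rpow_mul hτ0.le, ← Real.rpow_add hτ0]
      congr 1
      ring
    calc h ≤ τ ^ (κ - θ / k) * τ ^ (-κ) := h2.trans h3.le
      _ ≤ δ * η := mul_le_mul (hτ₁ τ t2).le hη (Real.rpow_nonneg hτ0.le _) hδ0.le
  have hητ : η ≤ δ * τ := by
    rw [div_le_iff₀ hδ0] at t3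
    linarith
  -- the error
  have hXs : X ^ ((s : ℝ) - k) ≤ c * τ ^ (ρ - 1) := by
    have h1 : X ^ ((s : ℝ) - k) = (X ^ k) ^ (ρ - 1) := by
      rw [← hrk, ← Real.rpow_mul hX0.le]
      congr 1
      rw [hρd]
      field_simp
    rw [h1, hc, ← Real.mul_rpow (by positivity) hτ0.le]
    exact Real.rpow_le_rpow (by positivity) hXτ2 (by linarith)
  have hErr : Err k J s h ξ ≤ δ * (h * (c * τ ^ (ρ - 1))) := by
    refine (hJ₀ J hJ0).le.trans ?_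
    have hJp : (0 : ℝ) < (J : ℝ) + 1 := by positivity
    rw [div_le_iff₀ hJp]
    have h1 : 1 ≤ δ * ((J : ℝ) + 1) := by
      rw [div_lt_iff₀ hδ0] at hJ₁
      have h2 : (J₁ : ℝ) ≤ J := by exact_mod_cast hJ1
      nlinarith
    have h2 : h * X ^ ((s : ℝ) - k) ≤ h * (c * τ ^ (ρ - 1)) := mul_le_mul_of_nonneg_left hXs hh0.le
    have h3 : 0 ≤ h * (c * τ ^ (ρ - 1)) := (mul_nonneg hh0.le (Real.rpow_nonneg hX0.le _)).trans h2
    calc h * X ^ ((s : ℝ) - k) ≤ h * (c * τ ^ (ρ - 1)) := h2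
      _ = 1 * (h * (c * τ ^ (ρ - 1))) := (one_mul _).symm
      _ ≤ (δ * ((J : ℝ) + 1)) * (h * (c * τ ^ (ρ - 1))) := mul_le_mul_of_nonneg_right h1 h3
      _ = _ := by ring
  have hl := det_lower hk hρ hξ hh0 hδ0 hδ hhη hητ hXτ hErr
  have hu := det_upper hk hρ hξ hh0 hδ0 hδ hhη hητ hXτ hErr
  have hη0 : 0 < η := (Real.rpow_pos_of_pos hτ0 _).trans_le hη
  have hpos : 0 ≤ η * τ ^ (ρ - 1) := mul_nonneg hη0.le (Real.rpow_nonneg hτ0.le _)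
  have hl2 := mul_le_mul_of_nonneg_right hlow hpos
  have hu2 := mul_le_mul_of_nonneg_right hup hpos
  rw [abs_le]
  constructor
  · linarith
  · linarith

/-- the asymptotic formula for almost all shifts -/
theorem main {k s : ℕ} (hk : 2 ≤ k) (hs : 2 * k + 1 ≤ s) {κ : ℝ} (hκ : 0 ≤ κ) (hκ1 : κ < (s : ℝ) / (2 * k) - 1) :
    ∀ᵐ ξ ∂(cube s), ∀ ε : ℝ, 0 < ε → ∃ τ₀ : ℝ, ∀ τ η : ℝ, τ₀ ≤ τ → τ ^ (-κ) ≤ η → η ≤ 1 →
      |(cnt k ξ τ η : ℝ) - 2 * (Vs k s * ((s : ℝ) / k)) * (η * τ ^ ((s : ℝ) / k - 1))| ≤ ε * (η * τ ^ ((s : ℝ) / k - 1)) := by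
  obtain ⟨m, rfl⟩ : ∃ m, k = m + 2 := ⟨k - 2, by omega⟩
  obtain ⟨r, rfl⟩ : ∃ r, s = r + 1 := ⟨s - 1, by omega⟩
  have hr : 2 * (m + 2) ≤ r := by omega
  have hr' : 2 * ((m : ℝ) + 2) ≤ r := by exact_mod_cast hr
  have hk0 : (0 : ℝ) < ((m + 2 : ℕ) : ℝ) := by positivity
  have hρ : 1 ≤ (((r + 1 : ℕ) : ℝ)) / ((m + 2 : ℕ) : ℝ) := by
    rw [le_div_iff₀ hk0]
    push_cast
    have : (0 : ℝ) ≤ m := Nat.cast_nonneg _
    linarith
  have hlt : ((m + 2 : ℕ) : ℝ) * κ < ((r : ℝ) + 1) / 2 - ((m : ℝ) + 2) := by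
    have h1 := mul_lt_mul_of_pos_left hκ1 hk0
    have h2 : ((m + 2 : ℕ) : ℝ) * (((r + 1 : ℕ) : ℝ) / (2 * ((m + 2 : ℕ) : ℝ)) - 1) = ((r : ℝ) + 1) / 2 - ((m : ℝ) + 2) := by
      push_cast
      have h3 : (m : ℝ) + 2 ≠ 0 := by positivity
      field_simp
    rw [h2] at h1
    exact h1
  obtain ⟨θ, hθ1, hθ2⟩ := exists_between hlt
  have hd : 0 < dlt m r θ := lt_min (by norm_num) (by linarith)
  have hpos : ∀ᵐ ξ ∂(cube (r + 1)), ∀ i, 0 ≤ ξ i := by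
    unfold cube
    have h1 : ∀ i : Fin (r + 1), ∀ᵐ x : ℝ ∂(volume.restrict (Set.Ioc (0 : ℝ) 1)), 0 ≤ x := fun i => by
      filter_upwards [ae_restrict_mem measurableSet_Ioc] with x hx
      exact hx.1.le
    rw [ae_all_iff]
    intro i
    exact (Measure.quasiMeasurePreserving_eval _ i).ae (h1 i)
  filter_upwards [ae_err hr hd, hpos] with ξ h1 h2
  intro ε hε
  refine det_final (by omega) hρ h2 hκ hθ1 ?_ hε
  push_cast
  exact h1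

end Pool.Agent.K7.H74.WS
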