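import Mathlib
import Pool.Agent.K7.H74.WS.SlF

set_option autoImplicit false

/-! Waring's problem with shifts, exceptional sets: the main theorem. -/

namespace Pool.Agent.K7.H74.WS
open Finset MeasureTheory Filter

open Classical in
theorem main2 {k s : ℕ} (hk : 3 ≤ k) (hs : k + 1 ≤ s) (hs2 : s ≤ 2 * k) :
    ∀ᵐ ξ ∂(cube s), ∀ ε : ℝ, 0 < ε → ∀ δ : ℝ, 0 < δ → ∃ N₀ : ℕ, ∀ N : ℕ, N₀ ≤ N →
      (((range (N + 1)).filter fun n : ℕ => ε * (n : ℝ) ^ ((s : ℝ) / k - 1) <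
        |(rn k ξ n : ℝ) - Vs k s * ((s : ℝ) / k) * (n : ℝ) ^ ((s : ℝ) / k - 1)|).card : ℝ) ≤
      (N : ℝ) ^ (2 - (s : ℝ) / k + δ) := by
  obtain ⟨m, rfl⟩ : ∃ m, k = m + 2 := ⟨k - 2, by omega⟩
  obtain ⟨r, rfl⟩ : ∃ r, s = r + 1 := ⟨s - 1, by omega⟩
  have hm : 1 ≤ m := by omega
  have hr : m + 2 ≤ r := by omega
  have hk0 : (0 : ℝ) < ((m + 2 : ℕ) : ℝ) := by positivity
  have hk3 : (3 : ℝ) ≤ ((m + 2 : ℕ) : ℝ) := by exact_mod_cast hk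
  have hs2' : ((r + 1 : ℕ) : ℝ) ≤ 2 * ((m + 2 : ℕ) : ℝ) := by exact_mod_cast hs2
  have hE1 : ∀ᵐ ξ ∂(cube (r + 1)), ∀ j : ℕ, ∀ᶠ J : ℕ in atTop,
      E1 (m + 2) J (r + 1) (((3 : ℝ) ^ J) ^ (-(1 / ((j : ℝ) + 1)))) (dd m J (((3 : ℝ) ^ J) ^ (-(1 / ((j : ℝ) + 1))))) ξ <
      (((3 : ℝ) ^ J) ^ (-(1 / ((j : ℝ) + 1))) * ((3 : ℝ) ^ J) ^ ((r : ℝ) + 1 - (m + 2))) / ((J : ℝ) + 1) :=
    ae_all_iff.2 fun j => ae_E1 hm hr (1 / ((j : ℝ) + 1))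
  have hE2 : ∀ᵐ ξ ∂(cube (r + 1)), ∀ j : ℕ, ∀ᶠ J : ℕ in atTop,
      E2 (m + 2) J (r + 1) (((3 : ℝ) ^ J) ^ (-(1 / ((j : ℝ) + 1)))) (dd m J (((3 : ℝ) ^ J) ^ (-(1 / ((j : ℝ) + 1))))) ξ <
      ((J : ℝ) + 1) ^ 2 * ((2 * LK m J) ^ (2 * (r + 1)) * ((3 : ℝ) ^ J) ^ (r + 1)) :=
    ae_all_iff.2 fun j => ae_E2 (m := m) (s := r + 1) (1 / ((j : ℝ) + 1))
  have hpos : ∀ᵐ ξ ∂(cube (r + 1)), ∀ i, 0 ≤ ξ i := by
    unfold cube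
    have h1 : ∀ i : Fin (r + 1), ∀ᵐ x : ℝ ∂(volume.restrict (Set.Ioc (0 : ℝ) 1)), 0 ≤ x := fun i => by
      filter_upwards [ae_restrict_mem measurableSet_Ioc] with x hx
      exact hx.1.le
    rw [ae_all_iff]
    intro i
    exact (Measure.quasiMeasurePreserving_eval _ i).ae (h1 i)
  filter_upwards [hE1, hE2, hpos] with ξ h1 h2 h3
  intro ε hε δ hδ
  obtain ⟨j, hj⟩ := exists_nat_one_div_lt hδ
  set θ : ℝ := 1 / ((j : ℝ) + 1) with hθ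
  have hθ0 : 0 < θ := by positivity
  have h1j := h1 j
  have h2j := h2 j
  rw [← hθ] at h1j h2j
  have hcast : ((r : ℝ) + 1 - (m + 2)) = (((r + 1 : ℕ) : ℝ) - ((m + 2 : ℕ) : ℝ)) := by push_cast; ring
  rw [hcast] at h1j
  obtain ⟨C, hC0, n₁, hC⟩ := exc (k := m + 2) (s := r + 1) (m := m) (by omega) (by omega) hs2 h3 hθ0
    (fun J => dd m J (((3 : ℝ) ^ J) ^ (-θ))) h1j h2j hε
  -- the limit
  have hlim : Tendsto (fun N : ℕ => (N : ℝ) ^ (δ - θ)) atTop atTop :=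
    (tendsto_rpow_atTop (by linarith)).comp tendsto_natCast_atTop_atTop
  obtain ⟨N₁, hN₁⟩ := eventually_atTop.1 (hlim.eventually_ge_atTop (n₁ + C))
  refine ⟨max 1 N₁, fun N hN => ?_⟩
  have hN1 : 1 ≤ N := (le_max_left _ _).trans hN
  have hN2 : N₁ ≤ N := (le_max_right _ _).trans hN
  have hN1' : (1 : ℝ) ≤ N := by exact_mod_cast hN1
  set e0 : ℝ := 2 - ((r + 1 : ℕ) : ℝ) / ((m + 2 : ℕ) : ℝ) with he0
  have he0' : 0 ≤ e0 := by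
    rw [he0, sub_nonneg, div_le_iff₀ hk0]
    exact hs2'
  have hex : (2 * ((m + 2 : ℕ) : ℝ) - ((r + 1 : ℕ) : ℝ) + 3 * θ) / ((m + 2 : ℕ) : ℝ) ≤ e0 + θ := by
    rw [div_le_iff₀ hk0, he0]
    have : (2 - ((r + 1 : ℕ) : ℝ) / ((m + 2 : ℕ) : ℝ) + θ) * ((m + 2 : ℕ) : ℝ) =
      2 * ((m + 2 : ℕ) : ℝ) - ((r + 1 : ℕ) : ℝ) + θ * ((m + 2 : ℕ) : ℝ) := by
      field_simp
    rw [this]
    nlinarith
  set P : ℕ → Prop := fun n => ε * (n : ℝ) ^ (((r + 1 : ℕ) : ℝ) / ((m + 2 : ℕ) : ℝ) - 1) <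
        |(rn (m + 2) ξ n : ℝ) - Vs (m + 2) (r + 1) * (((r + 1 : ℕ) : ℝ) / ((m + 2 : ℕ) : ℝ)) * (n : ℝ) ^ (((r + 1 : ℕ) : ℝ) / ((m + 2 : ℕ) : ℝ) - 1)| with hP
  have hcard : (((range (N + 1)).filter P).card : ℝ) ≤ n₁ + (((range (N + 1)).filter fun n => n₁ ≤ n ∧ P n).card : ℝ) := by
    have h4 : (range (N + 1)).filter P ⊆ range n₁ ∪ (range (N + 1)).filter fun n => n₁ ≤ n ∧ P n := by
      intro n hn
      rw [mem_filter] at hn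
      rw [mem_union, mem_range, mem_filter]
      by_cases h5 : n < n₁
      · exact Or.inl h5
      · exact Or.inr ⟨hn.1, not_lt.1 h5, hn.2⟩
    have h5 := (card_le_card h4).trans (card_union_le _ _)
    rw [card_range] at h5
    exact_mod_cast h5
  have h4 := hC N hN1
  have h5 : (N : ℝ) ^ ((2 * ((m + 2 : ℕ) : ℝ) - ((r + 1 : ℕ) : ℝ) + 3 * θ) / ((m + 2 : ℕ) : ℝ)) ≤ (N : ℝ) ^ (e0 + θ) :=
    Real.rpow_le_rpow_of_exponent_le hN1' hex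
  have h6 : (1 : ℝ) ≤ (N : ℝ) ^ (e0 + θ) := Real.one_le_rpow hN1' (by linarith)
  have h7 : (n₁ : ℝ) + C ≤ (N : ℝ) ^ (δ - θ) := hN₁ N hN2
  have h8 : (N : ℝ) ^ (e0 + δ) = (N : ℝ) ^ (δ - θ) * (N : ℝ) ^ (e0 + θ) := by
    rw [← Real.rpow_add (by linarith)]
    congr 1
    ring
  rw [h8]
  calc (((range (N + 1)).filter P).card : ℝ) ≤ n₁ + (((range (N + 1)).filter fun n => n₁ ≤ n ∧ P n).card : ℝ) := hcard
    _ ≤ n₁ * (N : ℝ) ^ (e0 + θ) + C * (N : ℝ) ^ (e0 + θ) := by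
        have h9 : (0 : ℝ) ≤ n₁ := Nat.cast_nonneg _
        have h10 : (n₁ : ℝ) ≤ n₁ * (N : ℝ) ^ (e0 + θ) := le_mul_of_one_le_right h9 h6
        have h11 : C * (N : ℝ) ^ ((2 * ((m + 2 : ℕ) : ℝ) - ((r + 1 : ℕ) : ℝ) + 3 * θ) / ((m + 2 : ℕ) : ℝ)) ≤ C * (N : ℝ) ^ (e0 + θ) :=
          mul_le_mul_of_nonneg_left h5 hC0.le
        linarith
    _ = (n₁ + C) * (N : ℝ) ^ (e0 + θ) := by ring
    _ ≤ _ := mul_le_mul_of_nonneg_right h7 (by linarith)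

end Pool.Agent.K7.H74.WS
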