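import Pool.Agent.K7.H74.WS.Main
import Pool.Agent.K7.H74.WS.SlE

set_option autoImplicit false

open Finset MeasureTheory Filter Topology

namespace Pool.Agent.K7.H74.WS

lemma cnt_fin {k J s : ℕ} {ξ : Fin s → ℝ} (hξ : ∀ i, 0 ≤ ξ i) {τ η : ℝ} (h : τ + η ≤ ((3 : ℝ) ^ J) ^ k) :
    {x : Fin s → ℕ | |(∑ i, ((x i : ℝ) + ξ i) ^ k) - τ| < η}.Finite := by
  apply (box J s).finite_toSet.subset
  intro x hx
  rw [Finset.mem_coe]
  unfold box
  rw [Fintype.mem_piFinset]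
  intro i
  rw [mem_range]
  by_contra h1
  push Not at h1
  have h2 : ((3 : ℝ) ^ J) ≤ (x i : ℝ) + ξ i := by
    have h3 : (((3 ^ J : ℕ) : ℝ)) ≤ (x i : ℝ) := by exact_mod_cast h1
    push_cast at h3
    linarith [hξ i]
  have h3 : ((3 : ℝ) ^ J) ^ k ≤ ((x i : ℝ) + ξ i) ^ k := pow_le_pow_left₀ (by positivity) h2 _
  have h4 : ((x i : ℝ) + ξ i) ^ k ≤ ∑ i, ((x i : ℝ) + ξ i) ^ k :=
    single_le_sum (f := fun i => ((x i : ℝ) + ξ i) ^ k) (fun j _ => pow_nonneg (add_nonneg (Nat.cast_nonneg _) (hξ j)) _) (mem_univ i)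
  have h5 : |(∑ i, ((x i : ℝ) + ξ i) ^ k) - τ| < η := hx
  have h6 := (abs_lt.1 h5).2
  linarith

lemma cnt_finite {k s : ℕ} (hk : 1 ≤ k) {ξ : Fin s → ℝ} (hξ : ∀ i, 0 ≤ ξ i) (τ η : ℝ) :
    {x : Fin s → ℕ | |(∑ i, ((x i : ℝ) + ξ i) ^ k) - τ| < η}.Finite := by
  obtain ⟨J, hJ⟩ := pow_unbounded_of_one_lt (τ + η) (by norm_num : (1:ℝ) < 3)
  apply cnt_fin (J := J) hξ
  have h1 : (1:ℝ) ≤ 3 ^ J := one_le_pow₀ (by norm_num)
  exact hJ.le.trans (le_self_pow₀ h1 (by omega))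

lemma rn_between {k s : ℕ} (hk : 1 ≤ k) {ξ : Fin s → ℝ} (hξ : ∀ i, 0 ≤ ξ i) {n : ℕ} (hn : 1 ≤ n) {e : ℝ} (he : 0 < e) :
    cnt k ξ ((n : ℝ) + 1 / 2) (1 / 2) ≤ rn k ξ n ∧ rn k ξ n ≤ cnt k ξ ((n : ℝ) + 1 / 2) (1 / 2 + e) := by
  have hfin : {x : Fin s → ℕ | |(∑ i, ((x i : ℝ) + ξ i) ^ k) - ((n : ℝ) + 1 / 2)| < 1 / 2 + e}.Finite := cnt_finite hk hξ _ _
  have hsub2 : {x : Fin s → ℕ | ⌊sp k ξ x⌋₊ = n} ⊆
      {x : Fin s → ℕ | |(∑ i, ((x i : ℝ) + ξ i) ^ k) - ((n : ℝ) + 1 / 2)| < 1 / 2 + e} := by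
    intro x hx
    rw [Set.mem_ofPred_eq, Nat.floor_eq_iff' (by omega)] at hx
    rw [Set.mem_ofPred_eq, abs_lt]
    unfold sp at hx
    constructor
    · linarith [hx.1]
    · linarith [hx.2]
  have hsub1 : {x : Fin s → ℕ | |(∑ i, ((x i : ℝ) + ξ i) ^ k) - ((n : ℝ) + 1 / 2)| < 1 / 2} ⊆
      {x : Fin s → ℕ | ⌊sp k ξ x⌋₊ = n} := by
    intro x hx
    rw [Set.mem_ofPred_eq, abs_lt] at hx
    rw [Set.mem_ofPred_eq, Nat.floor_eq_iff' (by omega)]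
    unfold sp
    constructor
    · linarith [hx.1]
    · linarith [hx.2]
  constructor
  · exact Nat.card_mono (hfin.subset hsub2) hsub1
  · exact Nat.card_mono hfin hsub2

/-- **The asymptotic formula for `s ≥ 2 k + 1`**, without exceptions. -/
theorem main3 {k s : ℕ} (hk : 2 ≤ k) (hs : 2 * k + 1 ≤ s) :
    ∀ᵐ ξ ∂(cube s), ∀ ε : ℝ, 0 < ε → ∃ N₀ : ℕ, ∀ n : ℕ, N₀ ≤ n →
      |(rn k ξ n : ℝ) - Vs k s * ((s : ℝ) / k) * (n : ℝ) ^ ((s : ℝ) / k - 1)| ≤ ε * (n : ℝ) ^ ((s : ℝ) / k - 1) := by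
  have hk1 : 1 ≤ k := by omega
  have hk0 : (0 : ℝ) < k := by exact_mod_cast (by omega : 0 < k)
  have hs0 : (0 : ℝ) < s := by exact_mod_cast (by omega : 0 < s)
  have hsk : (2 : ℝ) * k + 1 ≤ s := by exact_mod_cast hs
  have hpos : 0 < (s : ℝ) / (2 * k) - 1 := by
    rw [sub_pos, lt_div_iff₀ (by positivity)]
    linarith
  have hρ : 0 < (s : ℝ) / k - 1 := by
    rw [sub_pos, lt_div_iff₀ hk0]
    linarith
  obtain ⟨κ, hκ0, hκ⟩ := exists_between hpos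
  have hpos2 : ∀ᵐ ξ ∂(cube s), ∀ i, 0 ≤ ξ i := by
    unfold cube
    have h1 : ∀ i : Fin s, ∀ᵐ x : ℝ ∂(volume.restrict (Set.Ioc (0 : ℝ) 1)), 0 ≤ x := fun i => by
      filter_upwards [ae_restrict_mem measurableSet_Ioc] with x hx
      exact hx.1.le
    rw [ae_all_iff]
    intro i
    exact (Measure.quasiMeasurePreserving_eval (fun _ : Fin s => (volume.restrict (Set.Ioc (0 : ℝ) 1))) i).ae (h1 i)
  filter_upwards [main hk hs hκ0.le hκ, hpos2] with ξ hξ hξ0 ε hε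
  set V := Vs k s * ((s : ℝ) / k) with hV
  set ρ := (s : ℝ) / k - 1 with hρdef
  have hV0 : 0 ≤ V := by
    rw [hV]
    have : 0 ≤ Vs k s := by
      unfold Vs
      positivity
    positivity
  -- choose e
  set e : ℝ := min (1 / 4) (ε / (8 * (V + 1))) with he
  have he0 : 0 < e := by
    rw [he]
    exact lt_min (by norm_num) (by positivity)
  have he4 : e ≤ 1 / 4 := min_le_left _ _
  have heV : e * V ≤ ε / 8 := by
    have h1 : e ≤ ε / (8 * (V + 1)) := min_le_right _ _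
    have h2 : e * V ≤ ε / (8 * (V + 1)) * (V + 1) := mul_le_mul h1 (by linarith) hV0 (by positivity)
    have h3 : ε / (8 * (V + 1)) * (V + 1) = ε / 8 := by field_simp
    linarith
  obtain ⟨τ₀, hτ₀⟩ := hξ e he0
  obtain ⟨τ₁, hτ₁⟩ := eventually_atTop.1
    ((tendsto_rpow_neg_atTop hκ0).eventually_lt_const (by norm_num : (0 : ℝ) < 1 / 2))
  -- the ratio of main terms
  have hratio : Tendsto (fun n : ℕ => (1 + 1 / 2 * ((n : ℝ))⁻¹) ^ ρ) atTop (𝓝 1) := by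
    have h1 : Tendsto (fun n : ℕ => 1 + 1 / 2 * ((n : ℝ))⁻¹) atTop (𝓝 1) := by
      have := (tendsto_inv_atTop_zero.comp tendsto_natCast_atTop_atTop : Tendsto (fun n : ℕ => ((n : ℝ))⁻¹) atTop (𝓝 0))
      simpa using (this.const_mul (1 / 2 : ℝ)).const_add 1
    have h2 := h1.rpow_const (p := ρ) (Or.inl one_ne_zero)
    simpa using h2
  obtain ⟨N₁, hN₁⟩ := eventually_atTop.1 (hratio.eventually_lt_const (by linarith : (1:ℝ) < 1 + e))
  obtain ⟨N₂, hN₂⟩ := exists_nat_gt (max 1 (max τ₀ τ₁))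
  refine ⟨max N₁ N₂, fun n hn => ?_⟩
  have hn1 : N₁ ≤ n := (le_max_left _ _).trans hn
  have hn2 : max 1 (max τ₀ τ₁) < (n : ℝ) := hN₂.trans_le (by exact_mod_cast (le_max_right _ _).trans hn)
  have hn3 : 1 < (n : ℝ) := (le_max_left _ _).trans_lt hn2
  have hn4 : τ₀ < (n : ℝ) := ((le_max_left _ _).trans (le_max_right _ _)).trans_lt hn2
  have hn5 : τ₁ < (n : ℝ) := ((le_max_right _ _).trans (le_max_right _ _)).trans_lt hn2
  have hn0 : 1 ≤ n := by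
    have : (1:ℝ) ≤ n := hn3.le
    exact_mod_cast this
  have hτe := (hτ₁ ((n:ℝ) + 1 / 2) (by linarith)).le
  have h1 := (abs_le.1 (hτ₀ ((n : ℝ) + 1 / 2) (1 / 2) (by linarith) hτe (by norm_num))).1
  have h2 := (abs_le.1 (hτ₀ ((n : ℝ) + 1 / 2) (1 / 2 + e) (by linarith) (by linarith) (by linarith))).2
  obtain ⟨h3, h4⟩ := rn_between hk1 hξ0 hn0 he0 (n := n)
  have h3' : (cnt k ξ ((n : ℝ) + 1 / 2) (1 / 2) : ℝ) ≤ rn k ξ n := by exact_mod_cast h3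
  have h4' : (rn k ξ n : ℝ) ≤ cnt k ξ ((n : ℝ) + 1 / 2) (1 / 2 + e) := by exact_mod_cast h4
  set T := ((n : ℝ) + 1 / 2) ^ ρ with hT
  set M := (n : ℝ) ^ ρ with hM
  have hM0 : 0 < M := Real.rpow_pos_of_pos (by linarith) _
  have hTM : M ≤ T := Real.rpow_le_rpow (by linarith) (by linarith) hρ.le
  have hTM2 : T ≤ (1 + e) * M := by
    have h5 : T = (1 + 1 / 2 * ((n : ℝ))⁻¹) ^ ρ * M := by
      rw [hT, hM, ← Real.mul_rpow (by positivity) (by linarith)]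
      congr 1
      field_simp
    rw [h5]
    exact mul_le_mul_of_nonneg_right (hN₁ n hn1).le hM0.le
  have hTM3 : T ≤ 2 * M := hTM2.trans (by nlinarith)
  have a1 : V * M ≤ V * T := mul_le_mul_of_nonneg_left hTM hV0
  have a2 : e * T ≤ 2 * e * M := by
    have := mul_le_mul_of_nonneg_left hTM3 he0.le
    linarith
  have he8 : e ≤ ε / 8 := by
    have h5 : e ≤ ε / (8 * (V + 1)) := min_le_right _ _
    refine h5.trans ?_
    apply div_le_div_of_nonneg_left hε.le (by norm_num)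
    linarith
  have a3 : e * M ≤ ε / 8 * M := mul_le_mul_of_nonneg_right he8 hM0.le
  have a4 : e * V * M ≤ ε / 8 * M := mul_le_mul_of_nonneg_right heV hM0.le
  have a5 : 0 < ε * M := by positivity
  have a6 : (1 + 2 * e) * (V * T) ≤ V * M + 4 * (e * V * M) := by
    have h5 : V * T ≤ V * ((1 + e) * M) := mul_le_mul_of_nonneg_left hTM2 hV0
    have h6 : (1 + 2 * e) * (V * T) ≤ (1 + 2 * e) * (V * ((1 + e) * M)) := mul_le_mul_of_nonneg_left h5 (by linarith)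
    have h7 : (1 + 2 * e) * (1 + e) ≤ 1 + 4 * e := by nlinarith
    have h8 : (1 + 2 * e) * (1 + e) * (V * M) ≤ (1 + 4 * e) * (V * M) := mul_le_mul_of_nonneg_right h7 (by positivity)
    calc (1 + 2 * e) * (V * T) ≤ (1 + 2 * e) * (V * ((1 + e) * M)) := h6
      _ = (1 + 2 * e) * (1 + e) * (V * M) := by ring
      _ ≤ (1 + 4 * e) * (V * M) := h8
      _ = _ := by ring
  have a7 : e * ((1 / 2 + e) * T) ≤ 2 * e * M := by
    have h5 : (1 / 2 + e) * T ≤ 1 * T := mul_le_mul_of_nonneg_right (by linarith) (hM0.le.trans hTM)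
    have h6 := mul_le_mul_of_nonneg_left h5 he0.le
    linarith
  rw [abs_le]
  constructor
  · have h5 : 2 * V * (1 / 2 * T) = V * T := by ring
    have h6 : e * (1 / 2 * T) = e * T / 2 := by ring
    rw [h5, h6] at h1
    linarith
  · have h5 : 2 * V * ((1 / 2 + e) * T) = (1 + 2 * e) * (V * T) := by ring
    rw [h5] at h2
    linarith

end Pool.Agent.K7.H74.WS
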