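import Mathlib
import Pool.Agent.K7.H74.WS.Main

/-!
# Waring's problem with `2 k + 1` shifted `k`-th powers, for almost all shifts

For `ξ = (ξ_1, ..., ξ_s)` in `[0, 1] ^ s` we count the solutions of the inequality
`|(x_1 + ξ_1) ^ k + ... + (x_s + ξ_s) ^ k - τ| < η` in natural numbers `x_1, ..., x_s` (Waring's problem with
shifts). For `ξ = 0`, a natural number `τ` and `η ≤ 1` these are the representations of `τ` as a sum of `s` many
`k`-th powers; thus `G (k) ≤ 2 k + 1` says that for `s = 2 k + 1`, `η = 1` and `ξ = 0` there is a solution for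
all large natural numbers `τ`.

**Theorem.** Let `k ≥ 2` and `s ≥ 2 k + 1`. For almost all `ξ` in `[0, 1] ^ s` the following holds.

* For all `κ < s / (2 k) - 1` the number of solutions is asymptotically equal to
  `2 η Γ (1 + 1 / k) ^ s / Γ (s / k) τ ^ (s / k - 1)` for `τ → ∞`, uniformly for `τ ^ (-κ) ≤ η ≤ 1`.
* All large natural numbers are integral parts of numbers `(x_1 + ξ_1) ^ k + ... + (x_s + ξ_s) ^ k`.

Sketch of the proof. Let `S (α, t)` be the exponential sum over `α (x + t) ^ k`, `0 ≤ x < X = 3 ^ J`, and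
`M (α)` its mean value over `t` in `[0, 1]`. The mean value of `|S|²` is `O (X log X)` if `α` is not small, by the
first derivative test for the integrals of `e (α ((x + D + t) ^ k - (x + t) ^ k))`; for small `α` dyadic blocks and
the trivial bound are used. As the shifts are independent, this bounds the mean value over `ξ` of
`|S (α, ξ_1) ⋯ S (α, ξ_s) - M (α) ^ s|`, for all `α`. Integrated against Fejér's kernel it is smaller than the
expected number of solutions, by a power of `X`, precisely for `s > 2 k` (and windows of length `X ^ (-θ)` with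
`θ < s / 2 - k`). By the Borel-Cantelli lemma the number of solutions is close to its mean value over the shifts
for almost all `ξ` and all large `τ` at the same time. The mean value is a volume.
-/

set_option autoImplicit false

namespace Pool.Agent.K7.H74.WS.AlmostAllShifts

open MeasureTheory Filter

/-- The number of solutions `x` in natural numbers of the inequality
`|(x_1 + ξ_1) ^ k + ... + (x_s + ξ_s) ^ k - τ| < η`. -/
noncomputable def solutions (k : ℕ) {s : ℕ} (ξ : Fin s → ℝ) (τ η : ℝ) : ℕ :=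
  Nat.card {x : Fin s → ℕ // |(∑ i, ((x i : ℝ) + ξ i) ^ k) - τ| < η}

/-- The constant `Γ (1 + 1 / k) ^ s / Γ (s / k)`. -/
noncomputable def density (k s : ℕ) : ℝ := Real.Gamma (1 + 1 / (k : ℝ)) ^ s / Real.Gamma ((s : ℝ) / k)

/-- **Waring's problem with `2 k + 1` shifted `k`-th powers, for almost all shifts.** Let `k ≥ 2` and
`s ≥ 2 k + 1`. For almost all `ξ` in `[0, 1] ^ s`: for all `κ < s / (2 k) - 1` the inequality
`|(x_1 + ξ_1) ^ k + ... + (x_s + ξ_s) ^ k - τ| < η` has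
`(1 + o (1)) 2 η Γ (1 + 1 / k) ^ s / Γ (s / k) τ ^ (s / k - 1)` solutions in natural numbers, uniformly for
`τ ^ (-κ) ≤ η ≤ 1`; and all large natural numbers `n` are integral parts of such sums of `s` shifted
`k`-th powers. -/
theorem result (k s : ℕ) (hk : 2 ≤ k) (hs : 2 * k + 1 ≤ s) :
    ∀ᵐ ξ : Fin s → ℝ, (∀ i, ξ i ∈ Set.Icc (0 : ℝ) 1) →
      (∀ κ : ℝ, κ < (s : ℝ) / (2 * k) - 1 → ∀ ε : ℝ, 0 < ε → ∃ τ₀ : ℝ, ∀ τ η : ℝ, τ₀ ≤ τ → τ ^ (-κ) ≤ η → η ≤ 1 →
        |(solutions k ξ τ η : ℝ) - 2 * η * density k s * τ ^ ((s : ℝ) / k - 1)| ≤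
          ε * (2 * η * density k s * τ ^ ((s : ℝ) / k - 1))) ∧
      ∃ n₀ : ℕ, ∀ n : ℕ, n₀ ≤ n → ∃ x : Fin s → ℕ, ⌊∑ i, ((x i : ℝ) + ξ i) ^ k⌋₊ = n := by
  have hk1 : 1 ≤ k := by omega
  have hs1 : 1 ≤ s := by omega
  have hk0 : (0 : ℝ) < k := by exact_mod_cast (by omega : 0 < k)
  have hs0 : (0 : ℝ) < s := by exact_mod_cast (by omega : 0 < s)
  have hsk : (2 : ℝ) * k + 1 ≤ s := by exact_mod_cast hs
  have hpos : 0 < (s : ℝ) / (2 * k) - 1 := by
    rw [sub_pos, lt_div_iff₀ (by positivity)]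
    linarith
  have hdens : 0 < density k s := by
    unfold density
    have hG1 : 0 < Real.Gamma (1 + 1 / (k : ℝ)) := Real.Gamma_pos_of_pos (by positivity)
    have hG2 : 0 < Real.Gamma ((s : ℝ) / k) := Real.Gamma_pos_of_pos (by positivity)
    positivity
  -- the exceptional set
  have h1 : ∀ᵐ ξ ∂(K7.H74.WS.cube s), ∀ κ : ℚ, 0 ≤ (κ : ℝ) → (κ : ℝ) < (s : ℝ) / (2 * k) - 1 →
      ∀ ε : ℝ, 0 < ε → ∃ τ₀ : ℝ, ∀ τ η : ℝ, τ₀ ≤ τ → τ ^ (-(κ : ℝ)) ≤ η → η ≤ 1 →
      |(K7.H74.WS.cnt k ξ τ η : ℝ) - 2 * (K7.H74.WS.Vs k s * ((s : ℝ) / k)) * (η * τ ^ ((s : ℝ) / k - 1))| ≤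
        ε * (η * τ ^ ((s : ℝ) / k - 1)) := by
    rw [ae_all_iff]
    intro κ
    by_cases h2 : 0 ≤ (κ : ℝ)
    · by_cases h3 : (κ : ℝ) < (s : ℝ) / (2 * k) - 1
      · filter_upwards [K7.H74.WS.main hk hs h2 h3] with ξ hξ _ _
        exact hξ
      · exact Eventually.of_forall fun ξ _ h => absurd h h3
    · exact Eventually.of_forall fun ξ h => absurd h h2
  have h2 : K7.H74.WS.cube s = volume.restrict (Set.univ.pi fun _ : Fin s => Set.Ioc (0 : ℝ) 1) := by
    unfold K7.H74.WS.cube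
    rw [volume_pi, Measure.restrict_pi_pi]
  rw [h2, ae_restrict_iff' (MeasurableSet.univ_pi fun _ => measurableSet_Ioc)] at h1
  have h3 : ∀ᵐ ξ : Fin s → ℝ, ∀ i, ξ i ≠ 0 := by
    rw [ae_all_iff]
    intro i
    have h4 : ∀ᵐ x : ℝ, x ≠ 0 := compl_mem_ae_iff.2 (measure_singleton (0 : ℝ))
    rw [volume_pi]
    exact (Measure.quasiMeasurePreserving_eval (fun _ : Fin s => (volume : Measure ℝ)) i).ae h4
  filter_upwards [h1, h3] with ξ h4 h5 h6
  have h7 := h4 (fun i _ => ⟨lt_of_le_of_ne (h6 i).1 (h5 i).symm, (h6 i).2⟩)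
  have key : ∀ κ : ℝ, κ < (s : ℝ) / (2 * k) - 1 → ∀ ε : ℝ, 0 < ε → ∃ τ₀ : ℝ, ∀ τ η : ℝ, τ₀ ≤ τ → τ ^ (-κ) ≤ η → η ≤ 1 →
        |(solutions k ξ τ η : ℝ) - 2 * η * density k s * τ ^ ((s : ℝ) / k - 1)| ≤
          ε * (2 * η * density k s * τ ^ ((s : ℝ) / k - 1)) := by
    intro κ hκ ε hε
    obtain ⟨κ', hκ1, hκ2⟩ := exists_rat_btwn (max_lt hκ hpos)
    obtain ⟨τ₀, hτ₀⟩ := h7 κ' ((le_max_right _ _).trans hκ1.le) hκ2 (ε * (2 * density k s)) (by positivity)
    refine ⟨max 1 τ₀, fun τ η hτ hη hη1 => ?_⟩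
    have hτ1 : 1 ≤ τ := (le_max_left _ _).trans hτ
    have h8 : τ ^ (-(κ' : ℝ)) ≤ η := by
      refine le_trans ?_ hη
      apply Real.rpow_le_rpow_of_exponent_le hτ1
      linarith [(le_max_left κ 0).trans hκ1.le]
    have h9 := hτ₀ τ η ((le_max_right _ _).trans hτ) h8 hη1
    have e1 : 2 * η * density k s * τ ^ ((s : ℝ) / k - 1) =
        2 * (K7.H74.WS.Vs k s * ((s : ℝ) / k)) * (η * τ ^ ((s : ℝ) / k - 1)) := by
      rw [K7.H74.WS.Vs_const hk1 hs1]
      unfold density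
      ring
    have e2 : ε * (2 * η * density k s * τ ^ ((s : ℝ) / k - 1)) =
        ε * (2 * density k s) * (η * τ ^ ((s : ℝ) / k - 1)) := by ring
    rw [e2, e1]
    exact h9
  refine ⟨key, ?_⟩
  obtain ⟨κ, hκ0, hκ⟩ := exists_between hpos
  obtain ⟨τ₀, hτ₀⟩ := key κ hκ (1 / 2) (by norm_num)
  obtain ⟨τ₁, hτ₁⟩ := eventually_atTop.1
    ((tendsto_rpow_neg_atTop hκ0).eventually_lt_const (by norm_num : (0 : ℝ) < 1 / 2))
  obtain ⟨n₀, hn₀⟩ := exists_nat_gt (max 1 (max τ₀ τ₁))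
  refine ⟨n₀, fun n hn => ?_⟩
  have hn1 : max 1 (max τ₀ τ₁) < (n : ℝ) := hn₀.trans_le (by exact_mod_cast hn)
  have hn2 : 1 < (n : ℝ) := (le_max_left _ _).trans_lt hn1
  have hn3 : τ₀ < (n : ℝ) := ((le_max_left _ _).trans (le_max_right _ _)).trans_lt hn1
  have hn4 : τ₁ < (n : ℝ) := ((le_max_right _ _).trans (le_max_right _ _)).trans_lt hn1
  have h8 := hτ₀ ((n : ℝ) + 1 / 2) (1 / 2) (by linarith) (hτ₁ _ (by linarith)).le (by norm_num)
  have h9 : 0 < 2 * (1 / 2) * density k s * ((n : ℝ) + 1 / 2) ^ ((s : ℝ) / k - 1) := by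
    have : 0 < ((n : ℝ) + 1 / 2) ^ ((s : ℝ) / k - 1) := Real.rpow_pos_of_pos (by linarith) _
    positivity
  have h10 : 0 < (solutions k ξ ((n : ℝ) + 1 / 2) (1 / 2) : ℝ) := by
    have := (abs_le.1 h8).1
    linarith
  have h11 : 0 < solutions k ξ ((n : ℝ) + 1 / 2) (1 / 2) := by exact_mod_cast h10
  obtain ⟨x, hx⟩ := (Nat.card_pos_iff.1 h11).1
  refine ⟨x, ?_⟩
  rw [abs_lt] at hx
  rw [Nat.floor_eq_iff' ?_]
  · constructor
    · linarith [hx.1]
    · linarith [hx.2]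
  · intro h12
    rw [h12] at hn2
    norm_num at hn2

end Pool.Agent.K7.H74.WS.AlmostAllShifts
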